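import Pool.Agent.CRD.T.Stmts

open CategoryTheory Opposite Limits Pretriangulated CochainComplex HomComplex

namespace Pool.CRD.Tra

namespace CYC_

variable {K : Type} [Field K] {C : Type} [Preorder C] {R : PAlg K C} [R.Good]

instance : (ιD R).Additive := by unfold ιD; infer_instance
instance : (ιD R).Linear K := by unfold ιD; infer_instance

/-- transport of a morphism -/
noncomputable def tf {M M' : Db R} {V V' : CochainComplex (Coh R) ℤ}
    (α : M.obj ≅ DerivedCategory.Q.obj V) (α' : M'.obj ≅ DerivedCategory.Q.obj V')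
    (f : M ⟶ M') : DerivedCategory.Q.obj V ⟶ DerivedCategory.Q.obj V' :=
  α.inv ≫ DerivedCategory.Bounded.ι.map f ≫ α'.hom

/-- transport of a morphism of degree 2 -/
noncomputable def tg {M M' : Db R} {V V' : CochainComplex (Coh R) ℤ}
    (α : M.obj ≅ DerivedCategory.Q.obj V) (α' : M'.obj ≅ DerivedCategory.Q.obj V')
    (g : M' ⟶ M⟦(2 : ℤ)⟧) : DerivedCategory.Q.obj ((ιC R).obj V') ⟶
      (DerivedCategory.Q.obj ((ιC R).obj V))⟦(2 : ℤ)⟧ :=
  (tra M' V' α').inv ≫ (ιD R).map g ≫ ((ιD R).commShiftIso (2 : ℤ)).hom.app M ≫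
    (tra M V α).hom⟦(2 : ℤ)⟧'

lemma icm_tf {M M' : Db R} {V V' : CochainComplex (Coh R) ℤ}
    (α : M.obj ≅ DerivedCategory.Q.obj V) (α' : M'.obj ≅ DerivedCategory.Q.obj V')
    (f : M ⟶ M') :
    icm (tf α α' f) = (tra M V α).inv ≫ (ιD R).map f ≫ (tra M' V' α').hom := by
  unfold icm tf
  rw [Functor.map_comp, Functor.map_comp]
  unfold tra
  simp only [Iso.trans_inv, Iso.trans_hom, Functor.mapIso_inv, Functor.mapIso_hom, Iso.app_inv,
    Iso.app_hom, Category.assoc]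
  rfl

lemma tre_fg {M M' : Db R} {V V' : CochainComplex (Coh R) ℤ}
    (α : M.obj ≅ DerivedCategory.Q.obj V) (α' : M'.obj ≅ DerivedCategory.Q.obj V')
    (f : M ⟶ M') (g : M' ⟶ M⟦(2 : ℤ)⟧) :
    tre M V α (f ≫ g) = icm (tf α α' f) ≫ tg α α' g := by
  rw [icm_tf]
  unfold tre tg
  rw [Functor.map_comp]
  simp only [Category.assoc, Iso.hom_inv_id_assoc]

lemma tre_gf {M M' : Db R} {V V' : CochainComplex (Coh R) ℤ}
    (α : M.obj ≅ DerivedCategory.Q.obj V) (α' : M'.obj ≅ DerivedCategory.Q.obj V')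
    (f : M ⟶ M') (g : M' ⟶ M⟦(2 : ℤ)⟧) :
    tre M' V' α' (g ≫ f⟦(2 : ℤ)⟧') = tg α α' g ≫ (icm (tf α α' f))⟦(2 : ℤ)⟧' := by
  rw [icm_tf]
  unfold tre tg
  have h := (ιD R).commShiftIso_hom_naturality f (2 : ℤ)
  rw [Functor.map_comp]
  simp only [Category.assoc, Functor.map_comp]
  rw [reassoc_of% h]
  congr 3
  rw [← Functor.map_comp_assoc, Iso.hom_inv_id, CategoryTheory.Functor.map_id, Category.id_comp]

/-- transport is linear -/
noncomputable def trl (M : Db R) (V : CochainComplex (Coh R) ℤ)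
    (α : M.obj ≅ DerivedCategory.Q.obj V) : (M ⟶ M⟦(2 : ℤ)⟧) →ₗ[K]
      (DerivedCategory.Q.obj ((ιC R).obj V) ⟶ (DerivedCategory.Q.obj ((ιC R).obj V))⟦(2 : ℤ)⟧) where
  toFun := tre M V α
  map_add' e e' := by
    unfold tre
    rw [Functor.map_add, Preadditive.add_comp, Preadditive.comp_add]
  map_smul' k e := by
    unfold tre
    rw [Functor.map_smul, Linear.smul_comp, Linear.comp_smul]
    rfl

omit [R.Good] in
lemma bq [R.Good] {V : CochainComplex (Coh R) ℤ} (h : BVB V) : BQ (IsVB R) ((ιC R).obj V) := by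
  obtain ⟨⟨a, b, ha, hb⟩, h2⟩ := h
  refine ⟨⟨a, b, ?_, ?_⟩, h2⟩
  · rw [CochainComplex.isStrictlyGE_iff]
    intro i hi
    exact (IsCoh R).ι.map_isZero (V.isZero_of_isStrictlyGE a i hi)
  · rw [CochainComplex.isStrictlyLE_iff]
    intro i hi
    exact (IsCoh R).ι.map_isZero (V.isZero_of_isStrictlyLE b i hi)

end CYC_

open CYC_ in
theorem cyc_proof (hVBD : Pool.CRD.Stmt_VBD) (hTAU : Stmt_TAU) (hCYA : Stmt_CYA) : Stmt_CYC := by
  intro K _ C _ R _ r hE w₁ w₂ t θ hP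
  have hV : ∀ M : Db R, ∃ (V : CochainComplex (Coh R) ℤ), BVB V ∧
      Nonempty (M.obj ≅ DerivedCategory.Q.obj V) := by
    intro M
    obtain ⟨V, a, b, h1, h2, h3, h4⟩ := hVBD K C R r hE.1 hE.2 M
    exact ⟨V, ⟨⟨a, b, h1, h2⟩, h3⟩, h4⟩
  choose V hBV hα using hV
  let α : ∀ M : Db R, M.obj ≅ DerivedCategory.Q.obj (V M) := fun M => (hα M).some
  have hT : ∀ M : Db R, ∃ τ : (DerivedCategory.Q.obj ((ιC R).obj (V M)) ⟶
      (DerivedCategory.Q.obj ((ιC R).obj (V M)))⟦(2 : ℤ)⟧) →ₗ[K] K,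
      IsTau θ ((ιC R).obj (V M)) τ := fun M =>
    hTAU K C R w₁ w₂ t θ hP _ (bq (hBV M))
  choose τ hτ using hT
  refine ⟨⟨fun M => (τ M).comp (trl M (V M) (α M)), ?_⟩, ?_⟩
  · intro M M' f g
    change τ M (tre M (V M) (α M) (f ≫ g)) = τ M' (tre M' (V M') (α M') (g ≫ f⟦(2 : ℤ)⟧'))
    rw [tre_fg (α M) (α M') f g, tre_gf (α M) (α M') f g]
    exact hCYA K C R r hE w₁ w₂ t θ hP (V M) (V M') (hBV M) (hBV M') (τ M) (τ M') (hτ M) (hτ M')
      _ _
  · intro M V' hV' β e z hz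
    change τ M (tre M (V M) (α M) e) = _
    obtain ⟨τ', hτ'⟩ := hTAU K C R w₁ w₂ t θ hP _ (bq hV')
    rw [← hτ' _ z hz]
    have h1 := tre_fg β (α M) (𝟙 M) e
    have h2 := tre_gf β (α M) (𝟙 M) e
    rw [Category.id_comp] at h1
    rw [CategoryTheory.Functor.map_id, Category.comp_id] at h2
    rw [h1, h2]
    exact (hCYA K C R r hE w₁ w₂ t θ hP V' (V M) hV' (hBV M) τ' (τ M) hτ' (hτ M) _ _).symm

end Pool.CRD.Tra
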