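import Pool.Agent.CRD.T.Stmts

/-!
# CRD, area D3: FN0, the cyclic functional on the surface
-/

open CategoryTheory Opposite Limits Pretriangulated CochainComplex HomComplex

namespace Pool.CRD.Tra

namespace FN0_

/-- multiple of a cyclic functional -/
noncomputable def smulC {K : Type} [Field K] {T : Type 1} [Category.{1} T] [HasZeroObject T]
    [HasShift T ℤ] [Preadditive T] [∀ (n : ℤ), (CategoryTheory.shiftFunctor T n).Additive]
    [Pretriangulated T] [Linear K T] (k : K) (τ : CycFun K T) : CycFun K T where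
  φ M := k • τ.φ M
  cyc f g := by
    rw [LinearMap.smul_apply, LinearMap.smul_apply, τ.cyc]

variable {K : Type} [Field K] {c₁ c₂ : CurveData K} (S : SurfData c₁ c₂)

lemma princ : Princ (w₁S S) (w₂S S) := by
  have key : ∀ c c' : Cov Bool, ∃ v : Ch2, ∀ X : Ch2, X ∈ S.dirS₁.U c ∧ X ∈ S.dirS₂.U c' ↔ X ≤ v :=
    fun c c' => ⟨⟨c, c'⟩, fun X => Iff.rfl⟩
  intro U V hU hV
  rcases hU with rfl | rfl | rfl <;> rcases hV with rfl | rfl | rfl
  · exact key ca ca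
  · exact key ca cb
  · exact key ca cab
  · exact key cb ca
  · exact key cb cb
  · exact key cb cab
  · exact key cab ca
  · exact key cab cb
  · exact key cab cab

/-- the trace of multiplication by a function -/
lemma trT_mul (hFRS : Stmt_FRS) (hRKF : Stmt_RKF) (hTRA : Stmt_TRA) (M : PMod S.R)
    (hM : IsVB S.R M) (a : S.R.ring SurfData.c0)
    (φ : M.obj (op SurfData.c0) →ₗ[S.R.toRing.obj (op SurfData.c0)] M.obj (op SurfData.c0))
    (hφ : ∀ x : sec M SurfData.c0, (show sec M SurfData.c0 from φ x) = a • x) :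
    trT (eS S).toRingHom M φ = eS S a *
      (Module.finrank (S.R.toRing.obj (op SurfData.c0)) (M.obj (op SurfData.c0)) : S.L) := by
  obtain ⟨-, h2, h3, -⟩ := hTRA (S.R.ring SurfData.c0) S.L (eS S).toRingHom (sec M SurfData.c0)
  have hfin : Module.Finite (S.R.ring SurfData.c0) (sec M SurfData.c0) := hM.1.1 _
  letI : Algebra (S.R.ring SurfData.c0) S.L := (eS S).toRingHom.toAlgebra
  haveI : IsFractionRing (S.R.ring SurfData.c0) S.L := hFRS K c₁ c₂ S
  have h4 := hRKF (S.R.ring SurfData.c0) S.L (sec M SurfData.c0) hfin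
  have h5 : (show sec M SurfData.c0 →ₗ[S.R.ring SurfData.c0] sec M SurfData.c0 from φ) =
      a • LinearMap.id := by
    ext x
    exact hφ x
  unfold trT
  rw [h5, h2, h3 hfin]
  congr 1
  exact congrArg _ h4

/-- ranks outside the bounds vanish -/
lemma fr_zero (N : Cx S.R) (a b : ℤ) (ha : N.IsStrictlyGE a)
    (hb : N.IsStrictlyLE b) (n : ℤ) (hn : n < a ∨ b < n) :
    Module.finrank (S.R.toRing.obj (op SurfData.c0)) ((N.X n).obj (op SurfData.c0)) = 0 := by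
  have h0 : IsZero (N.X n) := by
    rcases hn with hn | hn
    · exact N.isZero_of_isStrictlyGE a n hn
    · exact N.isZero_of_isStrictlyLE b n hn
  have := subsingleton_of_isZero h0 (op SurfData.c0)
  haveI : Nontrivial (S.R.toRing.obj (op SurfData.c0)) :=
    inferInstanceAs (Nontrivial (S.A cab cab))
  exact Module.finrank_zero_of_subsingleton

/-- value on one module -/
lemma th_val (hFRS : Stmt_FRS) (hRKF : Stmt_RKF) (hTRA : Stmt_TRA)
    (β : c₁.A cab →ₗ[K] c₂.A cab →ₗ[K] K) (l : S.L →ₗ[K] K)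
    (hl : ∀ (f : c₁.A cab) (g : c₂.A cab), l (S.e₁ (f : c₁.F) * S.e₂ (g : c₂.F)) = β f g)
    (θ : Theta (w₁S S) (w₂S S) SurfData.c0 (IsVB S.R))
    (hθ : ∀ M φ, θ.th M φ = l (trT (eS S).toRingHom M φ)) (f : c₁.A cab) (g : c₂.A cab)
    (ε : ℤ) (M : PMod S.R) (hM : IsVB S.R M)
    (φ : M.obj (op SurfData.c0) →ₗ[S.R.toRing.obj (op SurfData.c0)] M.obj (op SurfData.c0))
    (hφ : ∀ x, φ x = ε • ((S.dirS₂.sec cab g).a (op SurfData.c0) •
      (S.dirS₁.sec cab f).a (op SurfData.c0) • x)) :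
    θ.th M φ = (ε : K) * β f g * (Module.finrank (S.R.toRing.obj (op SurfData.c0))
        (M.obj (op SurfData.c0)) : K) := by
  rw [hθ, trT_mul S hFRS hRKF hTRA M hM
      ((ε : S.R.ring SurfData.c0) *
        ((show S.R.ring SurfData.c0 from (S.dirS₂.sec cab g).a (op SurfData.c0)) *
        (show S.R.ring SurfData.c0 from (S.dirS₁.sec cab f).a (op SurfData.c0)))) φ ?_]
  · have h1 : eS S (show S.R.ring SurfData.c0 from (S.dirS₂.sec cab g).a (op SurfData.c0)) =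
        S.e₂ (g : c₂.F) := by
      rw [Dir.sec_a _ g (le_refl (α := Cov Bool) _)]
      rfl
    have h2 : eS S (show S.R.ring SurfData.c0 from (S.dirS₁.sec cab f).a (op SurfData.c0)) =
        S.e₁ (f : c₁.F) := by
      rw [Dir.sec_a _ f (le_refl (α := Cov Bool) _)]
      rfl
    rw [map_mul (eS S), map_mul (eS S), h1, h2, map_intCast]
    have h3 : (ε : S.L) * (S.e₂ (g : c₂.F) * S.e₁ (f : c₁.F)) *
        (Module.finrank (S.R.toRing.obj (op SurfData.c0)) (M.obj (op SurfData.c0)) : S.L) =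
        ((ε : K) * (Module.finrank (S.R.toRing.obj (op SurfData.c0))
          (M.obj (op SurfData.c0)) : K)) • (S.e₁ (f : c₁.F) * S.e₂ (g : c₂.F)) := by
      rw [Algebra.smul_def, map_mul, map_intCast, map_natCast]
      ring
    rw [h3, map_smul, hl, smul_eq_mul]
    ring
  · intro x
    have h4 := hφ x
    rw [mul_smul, mul_smul, Int.cast_smul_eq_zsmul]
    exact h4

/-- value on a complex -/
lemma str_val (hFRS : Stmt_FRS) (hRKF : Stmt_RKF) (hTRA : Stmt_TRA)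
    (β : c₁.A cab →ₗ[K] c₂.A cab →ₗ[K] K) (l : S.L →ₗ[K] K)
    (hl : ∀ (f : c₁.A cab) (g : c₂.A cab), l (S.e₁ (f : c₁.F) * S.e₂ (g : c₂.F)) = β f g)
    (θ : Theta (w₁S S) (w₂S S) SurfData.c0 (IsVB S.R))
    (hθ : ∀ M φ, θ.th M φ = l (trT (eS S).toRingHom M φ)) (f : c₁.A cab) (g : c₂.A cab)
    (ε : ℤ) (N : Cx S.R) (a b : ℤ) (ha : N.IsStrictlyGE a) (hb : N.IsStrictlyLE b)
    (hN : ∀ n, IsVB S.R (N.X n))
    (u : ∀ n, (N.X n).obj (op SurfData.c0) →ₗ[S.R.toRing.obj (op SurfData.c0)]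
      (N.X n).obj (op SurfData.c0))
    (hu : ∀ n x, u n x = ε • ((S.dirS₂.sec cab g).a (op SurfData.c0) •
      (S.dirS₁.sec cab f).a (op SurfData.c0) • x)) :
    θ.str N u = (ε : K) * β f g * ((∑ᶠ n : ℤ, (n.negOnePow : ℤ) *
      (Module.finrank (S.R.toRing.obj (op SurfData.c0))
        ((N.X n).obj (op SurfData.c0)) : ℤ) : ℤ) : K) := by
  unfold Theta.str
  have h1 : ∀ n : ℤ, ((n.negOnePow : ℤ) : K) * θ.th (N.X n) (u n) =
      ((ε : K) * β f g) * (((n.negOnePow : ℤ) *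
      (Module.finrank (S.R.toRing.obj (op SurfData.c0))
        ((N.X n).obj (op SurfData.c0)) : ℤ) : ℤ) : K) := by
    intro n
    rw [th_val S hFRS hRKF hTRA β l hl θ hθ f g ε (N.X n) (hN n) (u n) (hu n)]
    push_cast
    ring
  have hs : (Function.support (fun n : ℤ => (n.negOnePow : ℤ) *
      (Module.finrank (S.R.toRing.obj (op SurfData.c0))
        ((N.X n).obj (op SurfData.c0)) : ℤ))) ⊆ (Finset.Icc a b : Finset ℤ) := by
    intro n hn
    rw [Finset.coe_Icc, Set.mem_Icc]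
    by_contra hc
    apply hn
    have : n < a ∨ b < n := by
      by_contra h
      push Not at h
      exact hc h
    change (n.negOnePow : ℤ) * _ = 0
    rw [fr_zero S N a b ha hb n this]
    simp
  rw [finsum_congr h1]
  rw [finsum_eq_sum_of_support_subset _ hs, finsum_eq_sum_of_support_subset]
  · push_cast
    rw [Finset.mul_sum]
  · intro n hn
    apply hs
    intro h0
    apply hn
    change _ * (((n.negOnePow : ℤ) *
      (Module.finrank (S.R.toRing.obj (op SurfData.c0))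
        ((N.X n).obj (op SurfData.c0)) : ℤ) : ℤ) : K) = 0
    have h0' : ((n.negOnePow : ℤ) *
      (Module.finrank (S.R.toRing.obj (op SurfData.c0))
        ((N.X n).obj (op SurfData.c0)) : ℤ) : ℤ) = 0 := h0
    rw [h0', Int.cast_zero, mul_zero]

lemma eS_val (y : S.R.ring SurfData.c0) :
    eS S y = (y : S.A cab cab).1 := rfl

lemma map_v {v w : Ch2} (hv : w ≤ v) (x : S.R.ring v) :
    (S.R.map (homOfLE hv).op).hom x = Subalgebra.inclusion (S.A_mono hv.1 hv.2) x := rfl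

lemma eS_map {v : Ch2} (hv : SurfData.c0 ≤ v) (x : S.R.ring v) :
    eS S ((S.R.map (homOfLE hv).op).hom x) = (x : S.A v.i v.j).1 := by
  rw [map_v, eS_val]
  exact Subalgebra.coe_inclusion (h := S.A_mono hv.1 hv.2) x

lemma cond (l : S.L →ₗ[K] K) (hl1 : ∀ x ∈ S.A cab ca, l x = 0) (hl2 : ∀ x ∈ S.A cab cb, l x = 0)
    (hl3 : ∀ x ∈ S.A ca cab, l x = 0) (hl4 : ∀ x ∈ S.A cb cab, l x = 0) (U V : LowerSet Ch2)
    (hUV : (U = (w₁S S).ab ∧ (V = (w₂S S).a ∨ V = (w₂S S).b)) ∨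
      ((U = (w₁S S).a ∨ U = (w₁S S).b) ∧ V = (w₂S S).ab)) :
      ∃ (v : Ch2) (hv : SurfData.c0 ≤ v), v ∈ U ∧ v ∈ V ∧
        ∀ r : S.R.ring v, l (eS S ((S.R.map (homOfLE hv).op).hom r)) = 0 := by
  have k : ∀ c c' : Cov Bool, (∀ x ∈ S.A c c', l x = 0) → ∃ (v : Ch2) (hv : SurfData.c0 ≤ v),
      v ∈ S.dirS₁.U c ∧ v ∈ S.dirS₂.U c' ∧
        ∀ r : S.R.ring v, l (eS S ((S.R.map (homOfLE hv).op).hom r)) = 0 := by
    intro c c' h
    refine ⟨⟨c, c'⟩, ⟨cab_le c, cab_le c'⟩, le_refl (α := Cov Bool) _,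
          le_refl (α := Cov Bool) _, fun x => ?_⟩
    rw [eS_map]
    exact h _ x.2
  rcases hUV with ⟨rfl, rfl | rfl⟩ | ⟨rfl | rfl, rfl⟩
  · exact k cab ca hl1
  · exact k cab cb hl2
  · exact k ca cab hl3
  · exact k cb cab hl4

end FN0_

open FN0_ in
theorem fn0_proof (hCYC : Stmt_CYC) (hTHT : Stmt_THT) (hLAM : Stmt_LAM) (hFRS : Stmt_FRS)
    (hRKF : Stmt_RKF) (hRKV : Stmt_RKV) (hTRA : Stmt_TRA) (hVBD : Pool.CRD.Stmt_VBD) :
    Stmt_FN0 := by
  intro K _ c₁ c₂ S _ r hE β hβ1 hβ2 ε hε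
  obtain ⟨l, hl, hl1, hl2, hl3, hl4⟩ := hLAM K c₁ c₂ S β hβ1 hβ2
  obtain ⟨θ, hθ⟩ := hTHT K Ch2 S.R S.L (w₁S S) (w₂S S) SurfData.c0 (c0_mem₁ S) (c0_mem₂ S) (eS S)
    l (cond S l hl1 hl2 hl3 hl4)
  obtain ⟨τ', hτ'⟩ := hCYC K Ch2 S.R r hE (w₁S S) (w₂S S) SurfData.c0 θ (princ S)
  refine ⟨smulC (ε : K) τ', fun M e f g h => ?_⟩
  obtain ⟨V, a, b, ha, hb, hV, ⟨α⟩⟩ := hVBD K Ch2 S.R r hE.1 hE.2 M
  have hB : BVB V := ⟨⟨a, b, ha, hb⟩, hV⟩
  obtain ⟨z, hz, hz2⟩ := h V hB α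
  have h1 := hτ' M V hB α e z hz
  have hdom : IsDomain (S.R.ring SurfData.c0) := inferInstanceAs (IsDomain (S.A cab cab))
  have h2 := hRKV K Ch2 S.R SurfData.c0 hdom M V ⟨a, b, ha, hb⟩ ⟨α⟩
  have h3 := str_val S hFRS hRKF hTRA β l hl θ hθ f g ε ((ιC S.R).obj V) a b inferInstance
    inferInstance hV _ hz2
  have h4 : (smulC (ε : K) τ').φ M e = (ε : K) * τ'.φ M e := rfl
  rw [h4, h1, h2]
  have h5 : θ.val (z : Cochain (PP (w₁S S) (w₂S S) ((ιC S.R).obj V)) ((ιC S.R).obj V) 2) = _ := h3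
  rw [h5, ← mul_assoc, ← mul_assoc]
  have h6 : (ε : K) * (ε : K) = 1 := by
    rcases hε with rfl | rfl <;> simp
  rw [h6, one_mul]
  rfl

end Pool.CRD.Tra
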