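import Pool.Agent.CRD.T.Surf

/-!
# CRD, area D3 (trace on the surface): statements
-/

open CategoryTheory Opposite Limits Pretriangulated CochainComplex HomComplex

open scoped TensorProduct

namespace Pool.CRD.Tra

/-! ### resolutions -/

/-- MVE: Mayer-Vietoris sequence of complexes; the Cech resolution is a resolution, and it is
functorial. -/
def Stmt_MVE : Prop :=
  ∀ (K : Type) [Field K] (C : Type) [Preorder C] (R : PAlg K C),
    (∀ (w : Cov2 C) (N : Cx R), (mvS w N).ShortExact) ∧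
    (∀ (w₁ w₂ : Cov2 C) (N : Cx R), IsIso (DerivedCategory.Q.map (CEπ w₂ N)) ∧
      IsIso (DerivedCategory.Q.map (PPπ w₁ w₂ N))) ∧
    (∀ (w₁ w₂ : Cov2 C) (N N' : Cx R) (f : N ⟶ N'),
      PPmap w₁ w₂ f ≫ PPπ w₁ w₂ N' = PPπ w₁ w₂ N ≫ f)

/-- PRJ: projectivity of `(M_V)_U` for `U ∩ V` principal, `M` a vector bundle. -/
def Stmt_PRJ : Prop :=
  ∀ (K : Type) [Field K] (C : Type) [Preorder C] (R : PAlg K C) (U V : LowerSet C) (v : C),
    (∀ X, X ∈ U ∧ X ∈ V ↔ X ≤ v) → ∀ M : PMod R, IsVB R M →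
      Projective ((tr R U).obj ((tr R V).obj M))

/-- KPB: the Cech resolution of a bounded complex of vector bundles is K-projective. -/
def Stmt_KPB : Prop :=
  ∀ (K : Type) [Field K] (C : Type) [Preorder C] (R : PAlg K C) (w₁ w₂ : Cov2 C), Princ w₁ w₂ →
    ∀ N : Cx R, BQ (IsVB R) N → (PP w₁ w₂ N).IsKProjective

/-- REP: morphisms in the derived category out of a complex with a K-projective resolution. -/
def Stmt_REP : Prop :=
  ∀ (A : Type 1) [Category.{0} A] [Abelian A] [HasDerivedCategory.{1} A]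
    (P N N' : CochainComplex A ℤ) (π : P ⟶ N) [P.IsKProjective]
    [IsIso (DerivedCategory.Q.map π)],
    (∀ e : DerivedCategory.Q.obj N ⟶ (DerivedCategory.Q.obj N')⟦(2 : ℤ)⟧,
      ∃ z : Cocycle P N' 2, DerivedCategory.Q.map π ≫ e = cl z) ∧
    ∀ z : Cocycle P N' 2, cl z = 0 → ∃ H : Cochain P N' 1, δ 1 2 H = (z : Cochain P N' 2)

/-- CLA: formal properties of `cl`. -/
def Stmt_CLA : Prop :=
  ∀ (K : Type) [Field K] (A : Type 1) [Category.{0} A] [Abelian A] [Linear K A]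
    [HasDerivedCategory.{1} A] (M N : CochainComplex A ℤ),
    (∀ z z' : Cocycle M N 2, cl (z + z') = cl z + cl z') ∧
    (∀ (k : K) (z : Cocycle M N 2), cl (k • z) = k • cl z) ∧
    (∀ (M' : CochainComplex A ℤ) (f : M' ⟶ M) (z : Cocycle M N 2) (z' : Cocycle M' N 2),
      (z' : Cochain M' N 2) = (Cochain.ofHom f).comp (z : Cochain M N 2) (zero_add 2) →
      cl z' = DerivedCategory.Q.map f ≫ cl z) ∧
    (∀ (N' : CochainComplex A ℤ) (g : N ⟶ N') (z : Cocycle M N 2) (z' : Cocycle M N' 2),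
      (z' : Cochain M N' 2) = (z : Cochain M N 2).comp (Cochain.ofHom g) (add_zero 2) →
      cl z' = cl z ≫ (DerivedCategory.Q.map g)⟦(2 : ℤ)⟧')

/-! ### the top component -/

/-- JDL: the top component of a coboundary. -/
def Stmt_JDL : Prop :=
  ∀ (K : Type) [Field K] (C : Type) [Preorder C] (R : PAlg K C) (w₁ w₂ : Cov2 C) (N N' : Cx R)
    (H : Cochain (PP w₁ w₂ N) N' 1),
    ∃ (h : Cochain (tt w₁.ab w₂.ab N) N' (-1)) (k₁ : Cochain (tt w₁.ab w₂.a N) N' 0)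
      (k₂ : Cochain (tt w₁.ab w₂.b N) N' 0) (k₃ : Cochain (tt w₁.a w₂.ab N) N' 0)
      (k₄ : Cochain (tt w₁.b w₂.ab N) N' 0),
      top w₁ w₂ (δ 1 2 H) = δ (-1) 0 h +
        (Cochain.ofHom ((trC R w₁.ab).map (trCLE R w₂.ab_a N))).comp k₁ (zero_add 0) +
        (Cochain.ofHom ((trC R w₁.ab).map (trCLE R w₂.ab_b N))).comp k₂ (zero_add 0) +
        (Cochain.ofHom (trCLE R w₁.ab_a ((trC R w₂.ab).obj N))).comp k₃ (zero_add 0) +
        (Cochain.ofHom (trCLE R w₁.ab_b ((trC R w₂.ab).obj N))).comp k₄ (zero_add 0)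

/-- STB: the functional vanishes on coboundaries. -/
def Stmt_STB : Prop :=
  ∀ (K : Type) [Field K] (C : Type) [Preorder C] (R : PAlg K C) (w₁ w₂ : Cov2 C) (t : C)
    (Q : ObjectProperty (PMod R)) (θ : Theta w₁ w₂ t Q) (N : Cx R), BQ Q N →
    ∀ H : Cochain (PP w₁ w₂ N) N 1, θ.val (δ 1 2 H) = 0

/-- VLN: the functional on cochains is linear. -/
def Stmt_VLN : Prop :=
  ∀ (K : Type) [Field K] (C : Type) [Preorder C] (R : PAlg K C) (w₁ w₂ : Cov2 C) (t : C)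
    (Q : ObjectProperty (PMod R)) (θ : Theta w₁ w₂ t Q) (N : Cx R), BQ Q N →
    (∀ z z' : Cochain (PP w₁ w₂ N) N 2, θ.val (z + z') = θ.val z + θ.val z') ∧
    (∀ (k : K) (z : Cochain (PP w₁ w₂ N) N 2), θ.val (k • z) = k * θ.val z)

/-- CYS: cyclicity for morphisms of complexes. -/
def Stmt_CYS : Prop :=
  ∀ (K : Type) [Field K] (C : Type) [Preorder C] (R : PAlg K C) (w₁ w₂ : Cov2 C) (t : C)
    (Q : ObjectProperty (PMod R)) (θ : Theta w₁ w₂ t Q) (N N' : Cx R), BQ Q N → BQ Q N' →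
    ∀ (f : N ⟶ N') (z : Cochain (PP w₁ w₂ N') N 2),
      θ.val ((Cochain.ofHom (PPmap w₁ w₂ f)).comp z (zero_add 2)) =
        θ.val (z.comp (Cochain.ofHom f) (add_zero 2))

/-! ### the functional on the derived category -/

/-- TAU: existence of the functional on `Hom(N, N[2])`. -/
def Stmt_TAU : Prop :=
  ∀ (K : Type) [Field K] (C : Type) [Preorder C] (R : PAlg K C) (w₁ w₂ : Cov2 C) (t : C)
    (θ : Theta w₁ w₂ t (IsVB R)), Princ w₁ w₂ → ∀ (N : Cx R), BQ (IsVB R) N →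
    ∃ τ : (DerivedCategory.Q.obj N ⟶ (DerivedCategory.Q.obj N)⟦(2 : ℤ)⟧) →ₗ[K] K, IsTau θ N τ

/-- CYR: cyclicity for morphisms of complexes, in the derived category. -/
def Stmt_CYR : Prop :=
  ∀ (K : Type) [Field K] (C : Type) [Preorder C] (R : PAlg K C) (w₁ w₂ : Cov2 C) (t : C)
    (θ : Theta w₁ w₂ t (IsVB R)), Princ w₁ w₂ → ∀ (N N' : Cx R), BQ (IsVB R) N →
    BQ (IsVB R) N' →
    ∀ (τ : (DerivedCategory.Q.obj N ⟶ (DerivedCategory.Q.obj N)⟦(2 : ℤ)⟧) →ₗ[K] K)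
      (τ' : (DerivedCategory.Q.obj N' ⟶ (DerivedCategory.Q.obj N')⟦(2 : ℤ)⟧) →ₗ[K] K),
      IsTau θ N τ → IsTau θ N' τ' →
      ∀ (f : N ⟶ N') (g : DerivedCategory.Q.obj N' ⟶ (DerivedCategory.Q.obj N)⟦(2 : ℤ)⟧),
        τ (DerivedCategory.Q.map f ≫ g) = τ' (g ≫ (DerivedCategory.Q.map f)⟦(2 : ℤ)⟧')

/-- ROF: morphisms of `D^b(Coh R)` as fractions of morphisms of complexes of vector bundles. -/
def Stmt_ROF : Prop :=
  ∀ (K : Type) [Field K] (C : Type) [Preorder C] (R : PAlg K C) [R.Good] (r : ℕ), Enough R r →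
    ∀ (V W : CochainComplex (Coh R) ℤ), BVB V → BVB W →
    ∀ f : DerivedCategory.Q.obj V ⟶ DerivedCategory.Q.obj W,
    ∃ (V' : CochainComplex (Coh R) ℤ) (s : V' ⟶ V) (g : V' ⟶ W), BVB V' ∧
      IsIso (DerivedCategory.Q.map s) ∧ DerivedCategory.Q.map s ≫ f = DerivedCategory.Q.map g

/-- CYA: cyclicity for morphisms of `D^b(Coh R)`. -/
def Stmt_CYA : Prop :=
  ∀ (K : Type) [Field K] (C : Type) [Preorder C] (R : PAlg K C) [R.Good] (r : ℕ), Enough R r →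
    ∀ (w₁ w₂ : Cov2 C) (t : C) (θ : Theta w₁ w₂ t (IsVB R)), Princ w₁ w₂ →
    ∀ (V V' : CochainComplex (Coh R) ℤ), BVB V → BVB V' →
    ∀ (τ : (DerivedCategory.Q.obj ((ιC R).obj V) ⟶
          (DerivedCategory.Q.obj ((ιC R).obj V))⟦(2 : ℤ)⟧) →ₗ[K] K)
      (τ' : (DerivedCategory.Q.obj ((ιC R).obj V') ⟶
          (DerivedCategory.Q.obj ((ιC R).obj V'))⟦(2 : ℤ)⟧) →ₗ[K] K),
      IsTau θ ((ιC R).obj V) τ → IsTau θ ((ιC R).obj V') τ' →
      ∀ (f : DerivedCategory.Q.obj V ⟶ DerivedCategory.Q.obj V')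
        (g : DerivedCategory.Q.obj ((ιC R).obj V') ⟶
          (DerivedCategory.Q.obj ((ιC R).obj V))⟦(2 : ℤ)⟧),
        τ (icm f ≫ g) = τ' (g ≫ (icm f)⟦(2 : ℤ)⟧')

/-- CYC: the cyclic functional on `D^b(Coh R)`. -/
def Stmt_CYC : Prop :=
  ∀ (K : Type) [Field K] (C : Type) [Preorder C] (R : PAlg K C) [R.Good] (r : ℕ), Enough R r →
    ∀ (w₁ w₂ : Cov2 C) (t : C) (θ : Theta w₁ w₂ t (IsVB R)), Princ w₁ w₂ →
    ∃ τ : CycFun K (Db R), ∀ (M : Db R) (V : CochainComplex (Coh R) ℤ), BVB V →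
      ∀ (α : M.obj ≅ DerivedCategory.Q.obj V) (e : M ⟶ M⟦(2 : ℤ)⟧)
        (z : Cocycle (PP w₁ w₂ ((ιC R).obj V)) ((ιC R).obj V) 2),
        Rep w₁ w₂ z (tre M V α e) →
        τ.φ M e = θ.val (z : Cochain (PP w₁ w₂ ((ιC R).obj V)) ((ιC R).obj V) 2)

/-! ### the value on the classes -/

/-- EXS: the Mayer-Vietoris sequence of a direction maps to the extension given by `f`; on
`N_ab` the map is multiplication by `f`. -/
def Stmt_EXS : Prop :=
  ∀ (K : Type) [Field K] (c : CurveData K) (C : Type) [Preorder C] (R : PAlg K C) (D : Dir c R)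
    (f : c.A cab) (N : Cx R),
    ∃ s : mvS (covD D) N ⟶ (D.coc f).sx.sC N, s.τ₃ = 𝟙 N ∧ s.τ₁ = mulC (D.sec cab f) N

/-- KA1: the class of a direction on the Cech resolution. -/
def Stmt_KA1 : Prop :=
  ∀ (K : Type) [Field K] (c : CurveData K) (C : Type) [Preorder C] (R : PAlg K C) [R.Good]
    (D : Dir c R) (f : c.A cab) (N : Cx R),
    DerivedCategory.Q.map (CEπ (covD D) N) ≫ (D.κM f).app (DerivedCategory.Q.obj N) =
      DerivedCategory.Q.map (wm (covD D) N (mulC (D.sec cab f) N)) ≫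
        (DerivedCategory.Q.commShiftIso (1 : ℤ)).hom.app N

/-- KA2: a cocycle representing the composition of two classes, and its top component; the sign
`ε` does not depend on anything. -/
def Stmt_KA2 : Prop :=
  ∃ ε : ℤ, (ε = 1 ∨ ε = -1) ∧
  ∀ (K : Type) [Field K] (C : Type) [Preorder C] (R : PAlg K C) (w₁ w₂ : Cov2 C) (N : Cx R)
    (s₁ : SecOn R w₁.ab) (s₂ : SecOn R w₂.ab)
    (κ₁ κ₂ : 𝟭 (DPM R) ⟶ CategoryTheory.shiftFunctor (DPM R) (1 : ℤ)),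
    (DerivedCategory.Q.map (CEπ w₁ (CE w₂ N)) ≫ κ₁.app (DerivedCategory.Q.obj (CE w₂ N)) =
      DerivedCategory.Q.map (wm w₁ (CE w₂ N) (mulC s₁ (CE w₂ N))) ≫
        (DerivedCategory.Q.commShiftIso (1 : ℤ)).hom.app (CE w₂ N)) →
    (DerivedCategory.Q.map (CEπ w₂ N) ≫ κ₂.app (DerivedCategory.Q.obj N) =
      DerivedCategory.Q.map (wm w₂ N (mulC s₂ N)) ≫
        (DerivedCategory.Q.commShiftIso (1 : ℤ)).hom.app N) →
    ∃ z : Cocycle (PP w₁ w₂ N) N 2,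
      Rep w₁ w₂ z (κ₁.app (DerivedCategory.Q.obj N) ≫
        (κ₂.app (DerivedCategory.Q.obj N))⟦(1 : ℤ)⟧' ≫
        (CategoryTheory.shiftFunctorAdd' (DPM R) (1 : ℤ) 1 2 (by norm_num)).inv.app (DerivedCategory.Q.obj N)) ∧
      ∀ (t : C) (h₁ : t ∈ w₁.ab) (h₂ : t ∈ w₂.ab) (n : ℤ) (x : (N.X n).obj (op t)),
        atT h₁ h₂ ((top w₁ w₂ (z : Cochain (PP w₁ w₂ N) N 2)).v n n (add_zero n)) x =
          ε • (s₂.a (op t) • s₁.a (op t) • x)

/-! ### traces -/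

/-- TRA: formal properties of the trace over a field. -/
def Stmt_TRA : Prop :=
  ∀ (A F : Type) [CommRing A] [Field F] (e : A →+* F) (M : Type) [AddCommGroup M] [Module A M],
    (∀ φ ψ : M →ₗ[A] M, trE e M (φ + ψ) = trE e M φ + trE e M ψ) ∧
    (∀ (a : A) (φ : M →ₗ[A] M), trE e M (a • φ) = e a * trE e M φ) ∧
    (Module.Finite A M → trE e M LinearMap.id = (rkE e M : F)) ∧
    (Module.Finite A M → ∀ (N : Type) [AddCommGroup N] [Module A N], Module.Finite A N →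
      ∀ (φ : M →ₗ[A] N) (ψ : N →ₗ[A] M), trE e M (ψ.comp φ) = trE e N (φ.comp ψ))

/-- TRP: the trace of an endomorphism of a finitely generated projective module lies in the ring;
traces are compatible with base change. -/
def Stmt_TRP : Prop :=
  ∀ (A B F : Type) [CommRing A] [CommRing B] [Algebra A B] [Field F] (e : B →+* F)
    (M₀ : Type) [AddCommGroup M₀] [Module A M₀] [Module.Finite A M₀] [Module.Projective A M₀]
    (M : Type) [AddCommGroup M] [Module B M] [Module A M] [IsScalarTower A B M]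
    (ρ : M₀ →ₗ[A] M), IsBaseChange B ρ →
    ∀ (φ₀ : M₀ →ₗ[A] M₀) (φ : M →ₗ[B] M), (∀ x, φ (ρ x) = ρ (φ₀ x)) →
      ∃ a : A, trE e M φ = e (algebraMap A B a)

/-- THT: the functionals `λ (trace)`. -/
def Stmt_THT : Prop :=
  ∀ (K : Type) [Field K] (C : Type) [Preorder C] (R : PAlg K C) (F : Type) [Field F] [Algebra K F]
    (w₁ w₂ : Cov2 C) (t : C) (_ : t ∈ w₁.ab) (_ : t ∈ w₂.ab) (e : R.ring t →ₐ[K] F)
    (l : F →ₗ[K] K),
    (∀ U V : LowerSet C, (U = w₁.ab ∧ (V = w₂.a ∨ V = w₂.b)) ∨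
      ((U = w₁.a ∨ U = w₁.b) ∧ V = w₂.ab) →
      ∃ (v : C) (hv : t ≤ v), v ∈ U ∧ v ∈ V ∧
        ∀ r : R.ring v, l (e ((R.map (homOfLE hv).op).hom r)) = 0) →
    ∃ θ : Theta w₁ w₂ t (IsVB R), ∀ M φ, θ.th M φ = l (trT e.toRingHom M φ)

/-- RKF: the rank over a domain is the dimension over its fraction field. -/
def Stmt_RKF : Prop :=
  ∀ (A F : Type) [CommRing A] [Field F] [Algebra A F] [IsFractionRing A F]
    (M : Type) [AddCommGroup M] [Module A M], Module.Finite A M →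
    rkE (algebraMap A F) M = Module.finrank A M

/-- RKV: the rank of a bounded complex. -/
def Stmt_RKV : Prop :=
  ∀ (K : Type) [Field K] (C : Type) [Preorder C] (R : PAlg K C) [R.Good] (t : C),
    IsDomain (R.ring t) → ∀ (M : Db R) (V : CochainComplex (Coh R) ℤ),
    (∃ a b : ℤ, V.IsStrictlyGE a ∧ V.IsStrictlyLE b) →
    Nonempty (M.obj ≅ DerivedCategory.Q.obj V) →
    rkD R t M = ∑ᶠ n : ℤ, (n.negOnePow : ℤ) *
      (Module.finrank (R.toRing.obj (op t)) ((V.X n).obj.obj (op t)) : ℤ)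

/-! ### the product of two curves -/

section Surf

/-- LAM: a functional on `H^1(C₁,O) ⊗ H^1(C₂,O)` extends to a functional on the function field
which vanishes on the functions regular on one of the four bigger charts. -/
def Stmt_LAM : Prop :=
  ∀ (K : Type) [Field K] (c₁ c₂ : CurveData K) (S : SurfData c₁ c₂)
    (β : c₁.A cab →ₗ[K] c₂.A cab →ₗ[K] K),
    (∀ (f : c₁.A cab) (g : c₂.A cab), ((f : c₁.F) ∈ c₁.A ca ∨ (f : c₁.F) ∈ c₁.A cb) → β f g = 0) →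
    (∀ (f : c₁.A cab) (g : c₂.A cab), ((g : c₂.F) ∈ c₂.A ca ∨ (g : c₂.F) ∈ c₂.A cb) → β f g = 0) →
    ∃ l : S.L →ₗ[K] K, (∀ (f : c₁.A cab) (g : c₂.A cab), l (S.e₁ (f : c₁.F) * S.e₂ (g : c₂.F)) = β f g) ∧
      (∀ x ∈ S.A cab ca, l x = 0) ∧ (∀ x ∈ S.A cab cb, l x = 0) ∧
      (∀ x ∈ S.A ca cab, l x = 0) ∧ (∀ x ∈ S.A cb cab, l x = 0)

/-- FRS: the function field is the fraction field of the ring of the smallest chart. -/
def Stmt_FRS : Prop :=
  ∀ (K : Type) [Field K] (c₁ c₂ : CurveData K) (S : SurfData c₁ c₂),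
    @IsFractionRing (S.R.ring SurfData.c0) _ S.L _ (eS S).toRingHom.toAlgebra

/-- FN0: the cyclic functional on the surface. -/
def Stmt_FN0 : Prop :=
  ∀ (K : Type) [Field K] (c₁ c₂ : CurveData K) (S : SurfData c₁ c₂) [S.R.Good] (r : ℕ),
    Enough S.R r → ∀ (β : c₁.A cab →ₗ[K] c₂.A cab →ₗ[K] K),
    (∀ (f : c₁.A cab) (g : c₂.A cab), ((f : c₁.F) ∈ c₁.A ca ∨ (f : c₁.F) ∈ c₁.A cb) → β f g = 0) →
    (∀ (f : c₁.A cab) (g : c₂.A cab), ((g : c₂.F) ∈ c₂.A ca ∨ (g : c₂.F) ∈ c₂.A cb) → β f g = 0) →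
    ∀ ε : ℤ, (ε = 1 ∨ ε = -1) →
    ∃ τ : CycFun K (Db S.R), ∀ (M : Db S.R) (e : M ⟶ M⟦(2 : ℤ)⟧) (f : c₁.A cab) (g : c₂.A cab),
      (∀ (V : CochainComplex (Coh S.R) ℤ) (_ : BVB V) (α : M.obj ≅ DerivedCategory.Q.obj V),
        ∃ z : Cocycle (PP (w₁S S) (w₂S S) ((ιC S.R).obj V)) ((ιC S.R).obj V) 2,
          Rep (w₁S S) (w₂S S) z (tre M V α e) ∧
          ∀ (n : ℤ) (x : (((ιC S.R).obj V).X n).obj (op SurfData.c0)),
            atT (c0_mem₁ S) (c0_mem₂ S) ((top _ _ (z : Cochain (PP (w₁S S) (w₂S S)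
              ((ιC S.R).obj V)) ((ιC S.R).obj V) 2)).v n n (add_zero n)) x =
              ε • ((S.dirS₂.sec cab g).a (op SurfData.c0) •
                (S.dirS₁.sec cab f).a (op SurfData.c0) • x)) →
      τ.φ M e = β f g * ((rkD S.R SurfData.c0 M : ℤ) : K)

/-- CCT: the image of the product of two classes in `DPM R`, on a complex. -/
def Stmt_CCT : Prop :=
  ∀ (K : Type) [Field K] (c₁ c₂ : CurveData K) (C : Type) [Preorder C] (R : PAlg K C) [R.Good]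
    (D₁ : Dir c₁ R) (D₂ : Dir c₂ R) (f : c₁.A cab) (g : c₂.A cab) (M : Db R)
    (V : CochainComplex (Coh R) ℤ) (α : M.obj ≅ DerivedCategory.Q.obj V),
    tre M V α (cc D₁ D₂ f g M) =
      (D₁.κM f).app (DerivedCategory.Q.obj ((ιC R).obj V)) ≫
        ((D₂.κM g).app (DerivedCategory.Q.obj ((ιC R).obj V)))⟦(1 : ℤ)⟧' ≫
        (CategoryTheory.shiftFunctorAdd' (DPM R) (1 : ℤ) 1 2 (by norm_num)).inv.app
          (DerivedCategory.Q.obj ((ιC R).obj V))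

/-- D3M: the main theorem of area D3. -/
def Stmt_D3M : Prop :=
  ∀ (K : Type) [Field K] (c₁ c₂ : CurveData K) (S : SurfData c₁ c₂) [S.R.Good] (r : ℕ),
    Enough S.R r → ∀ (β : c₁.A cab →ₗ[K] c₂.A cab →ₗ[K] K),
    (∀ (f : c₁.A cab) (g : c₂.A cab), ((f : c₁.F) ∈ c₁.A ca ∨ (f : c₁.F) ∈ c₁.A cb) → β f g = 0) →
    (∀ (f : c₁.A cab) (g : c₂.A cab), ((g : c₂.F) ∈ c₂.A ca ∨ (g : c₂.F) ∈ c₂.A cb) → β f g = 0) →
    ∃ τ : CycFun K (Db S.R), ∀ (M : Db S.R) (f : c₁.A cab) (g : c₂.A cab),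
      τ.φ M (cc S.dirS₁ S.dirS₂ f g M) = β f g * ((rkD S.R SurfData.c0 M : ℤ) : K)

end Surf

end Pool.CRD.Tra
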