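import Pool.Agent.CRD.T.Stmts

open CategoryTheory Opposite Limits Pretriangulated CochainComplex HomComplex

namespace Pool.CRD.Tra

namespace CCT_

section gen

variable {T T' : Type*} [Category T] [Category T'] [HasShift T ℤ] [HasShift T' ℤ]
  (F : T ⥤ T') [F.CommShift ℤ]

/-- the image of a composition of two morphisms of degree 1 -/
lemma comp2 {M N L : T} (f : M ⟶ N⟦(1 : ℤ)⟧) (g : N ⟶ L⟦(1 : ℤ)⟧) :
    F.map (f ≫ g⟦(1 : ℤ)⟧' ≫
      (CategoryTheory.shiftFunctorAdd' T (1 : ℤ) 1 2 (by norm_num)).inv.app L) ≫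
      (F.commShiftIso (2 : ℤ)).hom.app L =
    (F.map f ≫ (F.commShiftIso (1 : ℤ)).hom.app N) ≫
      (F.map g ≫ (F.commShiftIso (1 : ℤ)).hom.app L)⟦(1 : ℤ)⟧' ≫
      (CategoryTheory.shiftFunctorAdd' T' (1 : ℤ) 1 2 (by norm_num)).inv.app (F.obj L) := by
  have h := NatTrans.congr_app (congr_arg Iso.hom
    (F.commShiftIso_add' (show (1 : ℤ) + 1 = 2 by norm_num))) L
  rw [h, Functor.CommShift.isoAdd'_hom_app]
  have h2 := F.commShiftIso_hom_naturality g (1 : ℤ)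
  have h3 : F.map ((CategoryTheory.shiftFunctorAdd' T (1 : ℤ) 1 2
      (by norm_num)).inv.app L) ≫ F.map ((CategoryTheory.shiftFunctorAdd' T
      (1 : ℤ) 1 2 (by norm_num)).hom.app L) = 𝟙 _ := by
    rw [← Functor.map_comp, Iso.inv_hom_id_app, F.map_id]
  simp only [Functor.map_comp, Category.assoc]
  rw [← reassoc_of% h2, reassoc_of% h3]

/-- transport of a composition of two natural transformations of degree 1 -/
lemma trans2 (κ₁ κ₂ : 𝟭 T' ⟶ CategoryTheory.shiftFunctor T' (1 : ℤ)) {A B : T'} (a : A ≅ B) :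
    a.inv ≫ (κ₁.app A ≫ (κ₂.app A)⟦(1 : ℤ)⟧' ≫
      (CategoryTheory.shiftFunctorAdd' T' (1 : ℤ) 1 2 (by norm_num)).inv.app A) ≫ a.hom⟦(2 : ℤ)⟧' =
    κ₁.app B ≫ (κ₂.app B)⟦(1 : ℤ)⟧' ≫
      (CategoryTheory.shiftFunctorAdd' T' (1 : ℤ) 1 2 (by norm_num)).inv.app B := by
  have h1 := (CategoryTheory.shiftFunctorAdd' T' (1 : ℤ) 1 2 (by norm_num)).inv.naturality a.hom
  have h2 := congrArg (fun x => x⟦(1 : ℤ)⟧') (κ₂.naturality a.hom)
  have h3 := κ₁.naturality a.hom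
  simp only [Functor.id_map, Functor.comp_map, Functor.map_comp] at h1 h2 h3
  rw [Category.assoc, Category.assoc, ← h1, ← reassoc_of% h2, ← reassoc_of% h3, Iso.inv_hom_id_assoc]

/-- the statement for a general functor -/
lemma all (κ₁ κ₂ : 𝟭 T' ⟶ CategoryTheory.shiftFunctor T' (1 : ℤ)) {M : T} {B : T'}
    (f g : M ⟶ M⟦(1 : ℤ)⟧) (a : F.obj M ≅ B)
    (hf : F.map f ≫ (F.commShiftIso (1 : ℤ)).hom.app M = κ₁.app (F.obj M))
    (hg : F.map g ≫ (F.commShiftIso (1 : ℤ)).hom.app M = κ₂.app (F.obj M)) :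
    a.inv ≫ F.map (f ≫ g⟦(1 : ℤ)⟧' ≫
      (CategoryTheory.shiftFunctorAdd' T (1 : ℤ) 1 2 (by norm_num)).inv.app M) ≫
      (F.commShiftIso (2 : ℤ)).hom.app M ≫ a.hom⟦(2 : ℤ)⟧' =
    κ₁.app B ≫ (κ₂.app B)⟦(1 : ℤ)⟧' ≫
      (CategoryTheory.shiftFunctorAdd' T' (1 : ℤ) 1 2 (by norm_num)).inv.app B := by
  have h := comp2 F f g
  rw [← trans2 κ₁ κ₂ a, ← Category.assoc (F.map _), h, ← hf, ← hg]

end gen

end CCT_

theorem cct_proof : Stmt_CCT := by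
  intro K _ c₁ c₂ C _ R _ D₁ D₂ f g M V α
  exact CCT_.all (ιD R) (D₁.κM f) (D₂.κM g) _ _ (tra M V α) (D₁.κ_ιD f M) (D₂.κ_ιD g M)

end Pool.CRD.Tra
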