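import Pool.Agent.CRD.T.Stmts

set_option autoImplicit false

/-!
# CRD, area D3, CLA: formal properties of `cl`
-/

open CategoryTheory Opposite Limits Pretriangulated CochainComplex HomComplex

namespace Pool.CRD.Tra

namespace CLA_

section
variable {K : Type} [Field K] {A : Type 1} [Category.{0} A] [Abelian A] [Linear K A]
  {M N : CochainComplex A ℤ}

theorem shift_smul (k : K) (f : M ⟶ N⟦(2 : ℤ)⟧) :
    Cocycle.equivHomShift (k • f) = k • Cocycle.equivHomShift f := by
  ext p q hpq
  simp [Cocycle.equivHomShift_apply, Cochain.rightUnshift_v _ _ _ _ _ _ _ (add_zero p)]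
  exact Linear.smul_comp _ _ _ _ _ _

theorem shift_symm_smul (k : K) (z : Cocycle M N 2) :
    Cocycle.equivHomShift.symm (k • z) = k • Cocycle.equivHomShift.symm z := by
  apply Cocycle.equivHomShift.injective
  rw [shift_smul, AddEquiv.apply_symm_apply, AddEquiv.apply_symm_apply]

end

end CLA_

theorem cla_proof : Stmt_CLA := by
  intro K _ A _ _ _ _ M N
  refine ⟨?_, ?_, ?_, ?_⟩
  · intro z z'
    unfold cl
    rw [map_add, Functor.map_add, Preadditive.add_comp]
  · intro k z
    unfold cl
    rw [CLA_.shift_symm_smul, Functor.map_smul, Linear.smul_comp]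
  · intro M' f z z' h
    have h1 : z' = Cocycle.precomp z f := by
      ext1
      exact h
    unfold cl
    rw [h1, Cocycle.equivHomShift_symm_precomp, Functor.map_comp, Category.assoc]
  · intro N' g z z' h
    have h1 : z' = Cocycle.postcomp z g := by
      ext1
      exact h
    unfold cl
    rw [h1, Cocycle.equivHomShift_symm_postcomp, Functor.map_comp, Category.assoc, Category.assoc]
    congr 1
    exact (DerivedCategory.Q.commShiftIso (2 : ℤ)).hom.naturality g

end Pool.CRD.Tra
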