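import Pool.Agent.CRD.T.Stmts

/-!
# CRD, area D3: CYA, cyclicity for morphisms of `D^b(Coh R)`
-/

open CategoryTheory Opposite Limits Pretriangulated CochainComplex HomComplex

namespace Pool.CRD.Tra

namespace CYA_

variable {K : Type} [Field K] {C : Type} [Preorder C] {R : PAlg K C} [R.Good]

lemma icm_Q {V V' : CochainComplex (Coh R) ℤ} (h : V ⟶ V') :
    icm (DerivedCategory.Q.map h) = DerivedCategory.Q.map ((ιC R).map h) := by
  unfold icm
  have := (IsCoh R).ι.mapDerivedCategoryFactors.hom.naturality h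
  dsimp at this
  erw [this]
  erw [Iso.inv_hom_id_app_assoc]

lemma icm_comp {V V' V'' : CochainComplex (Coh R) ℤ}
    (f : DerivedCategory.Q.obj V ⟶ DerivedCategory.Q.obj V')
    (g : DerivedCategory.Q.obj V' ⟶ DerivedCategory.Q.obj V'') :
    icm (f ≫ g) = icm f ≫ icm g := by
  unfold icm
  simp only [Functor.map_comp, Category.assoc, Iso.hom_inv_id_app_assoc]

lemma icm_id (V : CochainComplex (Coh R) ℤ) :
    icm (𝟙 (DerivedCategory.Q.obj V)) = 𝟙 _ := by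
  rw [← CategoryTheory.Functor.map_id, icm_Q]
  rw [CategoryTheory.Functor.map_id]
  exact DerivedCategory.Q.map_id _

lemma bq (V : CochainComplex (Coh R) ℤ) (h : BVB V) : BQ (IsVB R) ((ιC R).obj V) := by
  obtain ⟨⟨a, b, ha, hb⟩, h2⟩ := h
  exact ⟨⟨a, b, inferInstance, inferInstance⟩, h2⟩

end CYA_

open CYA_ in
theorem cya_proof (hCYR : Stmt_CYR) (hROF : Stmt_ROF) (hTAU : Stmt_TAU) : Stmt_CYA := by
  intro K _ C _ R _ r hE w₁ w₂ t θ hP V V' hV hV' τ τ' hτ hτ' f g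
  obtain ⟨V'', s, g', hV'', hs, e⟩ := hROF K C R r hE V V' hV hV' f
  obtain ⟨τ'', hτ''⟩ := hTAU K C R w₁ w₂ t θ hP _ (bq V'' hV'')
  have E : DerivedCategory.Q.map ((ιC R).map s) ≫ icm f = DerivedCategory.Q.map ((ιC R).map g') := by
    rw [← icm_Q, ← icm_comp, e, icm_Q]
  have hS : IsIso (DerivedCategory.Q.map ((ιC R).map s)) := by
    rw [← icm_Q]
    exact ⟨icm (inv (DerivedCategory.Q.map s)), by rw [← icm_comp, IsIso.hom_inv_id, icm_id],
      by rw [← icm_comp, IsIso.inv_hom_id, icm_id]⟩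
  have h1 := hCYR K C R w₁ w₂ t θ hP _ _ (bq V'' hV'') (bq V hV) τ'' τ hτ'' hτ ((ιC R).map s)
    ((icm f ≫ g) ≫ (inv (DerivedCategory.Q.map ((ιC R).map s)))⟦(2 : ℤ)⟧')
  have h2 := hCYR K C R w₁ w₂ t θ hP _ _ (bq V'' hV'') (bq V' hV') τ'' τ' hτ'' hτ' ((ιC R).map g')
    (g ≫ (inv (DerivedCategory.Q.map ((ιC R).map s)))⟦(2 : ℤ)⟧')
  have h3 : ((icm f ≫ g) ≫ (inv (DerivedCategory.Q.map ((ιC R).map s)))⟦(2 : ℤ)⟧') ≫
      (DerivedCategory.Q.map ((ιC R).map s))⟦(2 : ℤ)⟧' = icm f ≫ g := by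
    rw [Category.assoc, ← Functor.map_comp, IsIso.inv_hom_id, CategoryTheory.Functor.map_id, Category.comp_id]
  have h4 : (g ≫ (inv (DerivedCategory.Q.map ((ιC R).map s)))⟦(2 : ℤ)⟧') ≫
      (DerivedCategory.Q.map ((ιC R).map g'))⟦(2 : ℤ)⟧' = g ≫ (icm f)⟦(2 : ℤ)⟧' := by
    rw [Category.assoc, ← Functor.map_comp, ← E, IsIso.inv_hom_id_assoc]
  rw [h3] at h1
  rw [h4] at h2
  rw [← h1, ← h2, ← E]
  simp only [Category.assoc]

end Pool.CRD.Tra
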