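import Pool.Agent.CRD.T.Stmts

/-!
# CRD, area D3: cyclicity for morphisms of complexes, in the derived category
-/

open CategoryTheory Opposite Limits Pretriangulated CochainComplex HomComplex

open scoped TensorProduct

namespace Pool.CRD.Tra

namespace CYR_

variable {A : Type*} [Category A] [Preadditive A] {M N : CochainComplex A ℤ}

/-- precomposition of a cocycle with a morphism -/
def pre {M' : CochainComplex A ℤ} (f : M' ⟶ M) (z : Cocycle M N 2) : Cocycle M' N 2 :=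
  Cocycle.mk ((Cochain.ofHom f).comp (z : Cochain M N 2) (zero_add 2)) 3 (by norm_num) (by
    rw [δ_zero_cochain_comp _ _ _ (by norm_num : (2 : ℤ) + 1 = 3), Cocycle.δ_eq_zero, δ_ofHom]
    simp)

/-- postcomposition of a cocycle with a morphism -/
def post {N' : CochainComplex A ℤ} (z : Cocycle M N 2) (g : N ⟶ N') : Cocycle M N' 2 :=
  Cocycle.mk ((z : Cochain M N 2).comp (Cochain.ofHom g) (add_zero 2)) 3 (by norm_num) (by
    rw [δ_comp_zero_cochain _ _ _ (by norm_num : (2 : ℤ) + 1 = 3), Cocycle.δ_eq_zero, δ_ofHom]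
    simp)

end CYR_

open CYR_ in
theorem cyr_proof (hMVE : Stmt_MVE) (hKPB : Stmt_KPB) (hREP : Stmt_REP) (hCLA : Stmt_CLA)
    (hCYS : Stmt_CYS) : Stmt_CYR := by
  intro K _ C _ R w₁ w₂ t θ hPr N N' hN hN' τ τ' hτ hτ' f g
  obtain ⟨-, hMVE2, hMVE3⟩ := hMVE K C R
  have hproj := hKPB K C R w₁ w₂ hPr N' hN'
  have hiso : IsIso (DerivedCategory.Q.map (PPπ w₁ w₂ N')) := (hMVE2 w₁ w₂ N').2
  obtain ⟨hex, -⟩ := hREP (PMod R) (PP w₁ w₂ N') N' N (PPπ w₁ w₂ N')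
  obtain ⟨z, hz⟩ := hex g
  obtain ⟨-, -, hpre, hpost⟩ := hCLA K (PMod R) (PP w₁ w₂ N') N
  have h1 : Rep w₁ w₂ (pre (PPmap w₁ w₂ f) z) (DerivedCategory.Q.map f ≫ g) := by
    have e1 := hpre (PP w₁ w₂ N) (PPmap w₁ w₂ f) z (pre (PPmap w₁ w₂ f) z) rfl
    change DerivedCategory.Q.map (PPπ w₁ w₂ N) ≫ DerivedCategory.Q.map f ≫ g = _
    rw [e1, ← hz, ← Category.assoc, ← Functor.map_comp, ← hMVE3 w₁ w₂ N N' f, Functor.map_comp,
      Category.assoc]
  have h2 : Rep w₁ w₂ (post z f) (g ≫ (DerivedCategory.Q.map f)⟦(2 : ℤ)⟧') := by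
    have e2 := hpost N' f z (post z f) rfl
    change DerivedCategory.Q.map (PPπ w₁ w₂ N') ≫ g ≫ (DerivedCategory.Q.map f)⟦(2 : ℤ)⟧' = _
    rw [e2, ← hz, Category.assoc]
  rw [hτ _ _ h1, hτ' _ _ h2]
  exact hCYS K C R w₁ w₂ t (IsVB R) θ N N' hN hN' f (z : Cochain (PP w₁ w₂ N') N 2)

end Pool.CRD.Tra
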