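import Pool.Agent.CRD.T.Stmts

/-!
# CRD, area D3: cyclicity for morphisms of complexes
-/

open CategoryTheory Opposite Limits Pretriangulated CochainComplex HomComplex

open scoped TensorProduct

namespace Pool.CRD.Tra

namespace CYS_

/-- naturality of the inclusion of the shifted source in the mapping cone -/
theorem inl_map {A : Type*} [Category A] [Preadditive A] [HasBinaryBiproducts A]
    {K₁ L₁ K₂ L₂ : CochainComplex A ℤ} (φ₁ : K₁ ⟶ L₁) (φ₂ : K₂ ⟶ L₂) (a : K₁ ⟶ K₂) (b : L₁ ⟶ L₂)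
    (comm : φ₁ ≫ b = a ≫ φ₂) :
    (mappingCone.inl φ₁).comp (Cochain.ofHom (mappingCone.map φ₁ φ₂ a b comm)) (add_zero (-1)) =
      (Cochain.ofHom a).comp (mappingCone.inl φ₂) (zero_add (-1)) :=
  mappingCone.inl_desc _ _ _ _

/-- formal lemma on compositions -/
theorem gen {A : Type*} [Category A] [Preadditive A] {X Y P X' Y' P' : CochainComplex A ℤ}
    (α : Cochain X Y (-1)) (β : Cochain Y P (-1)) (F : P ⟶ P') (α' : Cochain X' Y' (-1))
    (β' : Cochain Y' P' (-1)) (a : X ⟶ X') (b : Y ⟶ Y')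
    (h1 : β.comp (Cochain.ofHom F) (add_zero (-1)) = (Cochain.ofHom b).comp β' (zero_add (-1)))
    (h2 : α.comp (Cochain.ofHom b) (add_zero (-1)) = (Cochain.ofHom a).comp α' (zero_add (-1)))
    (h : (-1 : ℤ) + -1 = -2) :
    (α.comp β h).comp (Cochain.ofHom F) (add_zero (-2)) =
      (Cochain.ofHom a).comp (α'.comp β' h) (zero_add (-2)) := by
  rw [Cochain.comp_assoc_of_third_is_zero_cochain, h1,
    ← Cochain.comp_assoc_of_second_is_zero_cochain, h2,
    Cochain.comp_assoc_of_first_is_zero_cochain]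

/-- formal lemma on compositions -/
theorem gen2 {A : Type*} [Category A] [Preadditive A] {X P X' P' Z : CochainComplex A ℤ}
    (j : Cochain X P (-2)) (F : P ⟶ P') (j' : Cochain X' P' (-2)) (a : X ⟶ X')
    (z : Cochain P' Z 2)
    (h1 : j.comp (Cochain.ofHom F) (add_zero (-2)) = (Cochain.ofHom a).comp j' (zero_add (-2)))
    (h : (-2 : ℤ) + 2 = 0) :
    j.comp ((Cochain.ofHom F).comp z (zero_add 2)) h =
      (Cochain.ofHom a).comp (j'.comp z h) (zero_add 0) := by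
  rw [← Cochain.comp_assoc_of_second_is_zero_cochain, h1,
    Cochain.comp_assoc_of_first_is_zero_cochain]

variable {K : Type} [Field K] {C : Type} [Preorder C] {R : PAlg K C}

/-- naturality of the top summand -/
theorem jj_map (w₁ w₂ : Cov2 C) {N N' : Cx R} (f : N ⟶ N') :
    (jj w₁ w₂ N).comp (Cochain.ofHom (PPmap w₁ w₂ f)) (add_zero (-2)) =
      (Cochain.ofHom ((trC R w₁.ab).map ((trC R w₂.ab).map f))).comp (jj w₁ w₂ N')
        (zero_add (-2)) := by
  have h1 : (mappingCone.inl (mvS w₁ (CE w₂ N)).f).comp (Cochain.ofHom (PPmap w₁ w₂ f))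
      (add_zero (-1)) = (Cochain.ofHom ((trC R w₁.ab).map (CEmap w₂ f))).comp
        (mappingCone.inl (mvS w₁ (CE w₂ N')).f) (zero_add (-1)) :=
    inl_map _ _ _ _ _
  have h2 : (mappingCone.inl (mvS w₂ N).f).comp (Cochain.ofHom (CEmap w₂ f))
      (add_zero (-1)) = (Cochain.ofHom ((trC R w₂.ab).map f)).comp
        (mappingCone.inl (mvS w₂ N').f) (zero_add (-1)) :=
    inl_map _ _ _ _ _
  have h3 := congrArg (fun z => z.map (tr R w₁.ab)) h2
  have h4 : ((mappingCone.inl (mvS w₂ N).f).map (tr R w₁.ab)).comp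
      (Cochain.ofHom ((trC R w₁.ab).map (CEmap w₂ f))) (add_zero (-1)) =
      (Cochain.ofHom ((trC R w₁.ab).map ((trC R w₂.ab).map f))).comp
        ((mappingCone.inl (mvS w₂ N').f).map (tr R w₁.ab)) (zero_add (-1)) := by
    have e1 := Cochain.map_comp _ (mappingCone.inl (mvS w₂ N).f)
      (Cochain.ofHom (CEmap w₂ f)) (add_zero (-1)) (tr R w₁.ab)
    have e2 := Cochain.map_comp _ (Cochain.ofHom ((trC R w₂.ab).map f))
      (mappingCone.inl (mvS w₂ N').f) (zero_add (-1)) (tr R w₁.ab)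
    rw [Cochain.map_ofHom] at e1 e2
    exact e1.symm.trans (h3.trans e2)
  exact gen _ _ _ _ _ _ _ h1 h4 _

end CYS_

open CYS_ in
theorem cys_proof : Stmt_CYS := by
  intro K _ C _ R w₁ w₂ t Q θ N N' hN hN' f z
  let g : ∀ n, N.X n ⟶ N'.X n := fun n => f.f n
  have htop1 : top w₁ w₂ ((Cochain.ofHom (PPmap w₁ w₂ f)).comp z (zero_add 2)) =
      (Cochain.ofHom ((trC R w₁.ab).map ((trC R w₂.ab).map f))).comp (top w₁ w₂ z)
        (zero_add 0) :=
    gen2 _ _ _ _ _ (jj_map w₁ w₂ f) _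
  have htop2 : top w₁ w₂ (z.comp (Cochain.ofHom f) (add_zero 2)) =
      (top w₁ w₂ z).comp (Cochain.ofHom f) (add_zero 0) :=
    (Cochain.comp_assoc_of_third_is_zero_cochain _ _ _ _).symm
  unfold Theta.val Theta.str
  apply finsum_congr
  intro n
  congr 1
  rw [htop1, htop2]
  let φ : (N.X n).obj (op t) →ₗ[R.toRing.obj (op t)] (N'.X n).obj (op t) :=
    ((f.f n).app (op t)).hom
  let ψ : (N'.X n).obj (op t) →ₗ[R.toRing.obj (op t)] (N.X n).obj (op t) :=
    atT θ.h₁ θ.h₂ ((top w₁ w₂ z).v n n (add_zero n))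
  have h1 : atT θ.h₁ θ.h₂ (((Cochain.ofHom ((trC R w₁.ab).map ((trC R w₂.ab).map f))).comp
      (top w₁ w₂ z) (zero_add 0)).v n n (add_zero n)) = ψ.comp φ := by
    rw [Cochain.zero_cochain_comp_v, Cochain.ofHom_v]
    rfl
  have h2 : atT θ.h₁ θ.h₂ (((top w₁ w₂ z).comp (Cochain.ofHom f)
      (add_zero 0)).v n n (add_zero n)) = φ.comp ψ := by
    rw [Cochain.comp_zero_cochain_v, Cochain.ofHom_v]
    rfl
  refine (congrArg (θ.th (N.X n)) h1).trans ?_
  refine (θ.cyc (N.X n) (N'.X n) (hN.2 n) (hN'.2 n) φ ψ).trans ?_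
  exact (congrArg (θ.th (N'.X n)) h2).symm

end Pool.CRD.Tra
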