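import Pool.Agent.CRD.T.Stmts

/-!
# CRD, area D3, D3M: the main theorem of area D3
-/

open CategoryTheory Opposite Limits Pretriangulated CochainComplex HomComplex

open scoped TensorProduct

namespace Pool.CRD.Tra

theorem d3m_proof (hFN0 : Stmt_FN0) (hCCT : Stmt_CCT) (hKA1 : Stmt_KA1) (hKA2 : Stmt_KA2) :
    Stmt_D3M := by
  intro K _ c₁ c₂ S _ r hE β hβ₁ hβ₂
  obtain ⟨ε, hε, H⟩ := hKA2
  obtain ⟨τ, hτ⟩ := hFN0 K c₁ c₂ S r hE β hβ₁ hβ₂ ε hε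
  refine ⟨τ, fun M f g => ?_⟩
  refine hτ M (cc S.dirS₁ S.dirS₂ f g M) f g fun V hV α => ?_
  obtain ⟨z, hz1, hz2⟩ := H K Ch2 S.R (w₁S S) (w₂S S) ((ιC S.R).obj V)
    (S.dirS₁.sec cab f) (S.dirS₂.sec cab g) (S.dirS₁.κM f) (S.dirS₂.κM g)
    (hKA1 K c₁ Ch2 S.R S.dirS₁ f (CE (w₂S S) ((ιC S.R).obj V)))
    (hKA1 K c₂ Ch2 S.R S.dirS₂ g ((ιC S.R).obj V))
  refine ⟨z, ?_, fun n x => hz2 SurfData.c0 (c0_mem₁ S) (c0_mem₂ S) n x⟩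
  rw [hCCT K c₁ c₂ Ch2 S.R S.dirS₁ S.dirS₂ f g M V α]
  exact hz1

end Pool.CRD.Tra
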