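import Pool.Agent.CRD.T.Stmts

/-!
# CRD, area D3, module EXS: the Mayer-Vietoris sequence maps to the extension
-/

open CategoryTheory Opposite Limits Pretriangulated CochainComplex HomComplex

namespace Pool.CRD.Tra

namespace EXS_

variable {K : Type} [Field K] {c : CurveData K} {C : Type} [Preorder C] {R : PAlg K C}
  (D : Dir c R) (f : c.A cab)

omit [Preorder C] in
lemma hco_ca {t : Cov Bool} (h : t ≤ ca) : hco f t = 0 := by
  unfold hco
  rw [if_neg]
  rintro rfl
  have h1 := h (Finset.mem_singleton_self _)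
  simp [cb, Cov.one] at h1

omit [Preorder C] in
lemma hco_cab : hco f cab = 0 := hco_ca f (Pool.CRD.cab_le _)

omit [Preorder C] in
lemma hco_cb : hco f cb = f := by
  unfold hco
  rw [if_pos rfl]

omit [Preorder C] in
lemma u_mem {t : Cov Bool} (h : t ≤ cb) : hco f t - f ∈ c.A t := by
  rcases CurveData.Pt.cov_bool_le_cases h with rfl | rfl
  · rw [hco_cb, sub_self]
    exact zero_mem _
  · rw [hco_cab, zero_sub]
    exact neg_mem f.2

open Classical in
/-- the cochain `hco - f` on the sieve of `cb` -/
noncomputable def u (X : Cᵒᵖ) : R.toRing.obj X :=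
  if h : D.p X.unop ≤ cb then D.el X ⟨hco f (D.p X.unop) - f, u_mem f h⟩ else 0

lemma u_map {X Y : Cᵒᵖ} (g : X ⟶ Y) (h : D.p X.unop ≤ cb) :
    u D f Y = R.toRing.map g (u D f X) + (D.coc f).a g := by
  have h' : D.p Y.unop ≤ cb := (D.mono (leOfHom g.unop)).trans h
  unfold u
  rw [dif_pos h, dif_pos h', D.el_map]
  refine Eq.trans ?_ (D.el_add Y _ _)
  congr 1
  apply Subtype.ext
  change hco f (D.p Y.unop) - f = (hco f (D.p X.unop) - f) +
    (hco f (D.p Y.unop) - hco f (D.p X.unop))
  ring

/-- `x ↦ (x, 0)` on `M_a` -/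
noncomputable def sa : tr R (D.U ca) ⟶ (D.coc f).ext where
  app M := mkHom (M := trObj (D.U ca) M) (N := (D.coc f).extObj M)
    (fun X => (LinearMap.inl _ _ _).comp (trSub (D.U ca) M X).subtype)
    (by
      intro X Y g x
      refine Prod.ext rfl ?_
      change (0 : M.obj Y) = rs M g 0 + (D.coc f).a g • rs M g x.1
      rw [rs_zero, zero_add]
      by_cases h : X.unop ∈ D.U ca
      · have h0 : (D.coc f).a g = 0 := by
          refine Eq.trans ?_ (D.el_zero Y)
          change D.el Y _ = D.el Y 0
          congr 1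
          apply Subtype.ext
          change hco f (D.p Y.unop) - hco f (D.p X.unop) = 0
          rw [hco_ca f h, hco_ca f ((D.mono (leOfHom g.unop)).trans h), sub_zero]
        rw [h0, zero_smul]
      · rw [x.2 h, rs_zero, smul_zero])
  naturality M N φ := by
    apply pmod_ext; intro X x
    refine Prod.ext rfl ?_
    exact (map_zero (φ.app X).hom).symm

/-- `x ↦ (x, u x)` on `M_b` -/
noncomputable def sb : tr R (D.U cb) ⟶ (D.coc f).ext where
  app M := mkHom (M := trObj (D.U cb) M) (N := (D.coc f).extObj M)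
    (fun X =>
      { toFun := fun x => ((x.1, u D f X • x.1) : M.obj X × M.obj X)
        map_add' := fun x y => Prod.ext rfl (smul_add _ _ _)
        map_smul' := fun r x => Prod.ext rfl (by
          change u D f X • (r • x.1) = r • (u D f X • x.1)
          rw [smul_smul, smul_smul]
          congr 1
          exact mul_comm (G := R.obj X) _ _) })
    (by
      intro X Y g x
      refine Prod.ext rfl ?_
      change u D f Y • rs M g x.1 = rs M g (u D f X • x.1) + (D.coc f).a g • rs M g x.1
      by_cases h : X.unop ∈ D.U cb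
      · rw [rs_smul, ← add_smul, u_map D f g h]
      · rw [x.2 h, rs_zero, smul_zero, smul_zero, smul_zero, rs_zero, add_zero])
  naturality M N φ := by
    apply pmod_ext; intro X x
    refine Prod.ext rfl ?_
    exact (map_smul (φ.app X).hom _ _).symm

/-- on complexes -/
noncomputable def saC (N : Cx R) : (trC R (D.U ca)).obj N ⟶
    ((D.coc f).ext.mapHomologicalComplex (ComplexShape.up ℤ)).obj N where
  f n := (sa D f).app (N.X n)
  comm' i j _ := ((sa D f).naturality (N.d i j)).symm

/-- on complexes -/
noncomputable def sbC (N : Cx R) : (trC R (D.U cb)).obj N ⟶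
    ((D.coc f).ext.mapHomologicalComplex (ComplexShape.up ℤ)).obj N where
  f n := (sb D f).app (N.X n)
  comm' i j _ := ((sb D f).naturality (N.d i j)).symm

lemma key (N : Cx R) : mulC (D.sec cab f) N ≫ (D.coc f).sx.iC N =
    trCLE R (covD D).ab_a N ≫ saC D f N + trCLE R (covD D).ab_b N ≫ (-sbC D f N) := by
  apply HomologicalComplex.hom_ext
  intro n
  apply pmod_ext
  intro X x
  have hx : X.unop ∉ D.U cab → (x : trSub (D.U cab) (N.X n) X).1 = 0 :=
    (x : trSub (D.U cab) (N.X n) X).2
  refine Prod.ext ?_ ?_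
  · change (0 : (N.X n).obj X) = (x : trSub (D.U cab) (N.X n) X).1 +
      -(x : trSub (D.U cab) (N.X n) X).1
    rw [add_neg_cancel]
  · change (D.sec cab f).a X • (x : trSub (D.U cab) (N.X n) X).1 = 0 +
      -(u D f X • (x : trSub (D.U cab) (N.X n) X).1)
    by_cases h : X.unop ∈ D.U cab
    · have h1 : D.p X.unop = cab := le_antisymm h (Pool.CRD.cab_le _)
      have h2 : (D.sec cab f).a X + u D f X = 0 := by
        rw [D.sec_a f h]
        unfold u
        rw [dif_pos (show D.p X.unop ≤ cb from h1.le.trans (Pool.CRD.cab_le _))]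
        refine (D.el_add X _ _).symm.trans (Eq.trans ?_ (D.el_zero X))
        congr 1
        apply Subtype.ext
        change (f : c.F) + (hco f (D.p X.unop) - f) = 0
        rw [h1, hco_cab]
        ring
      rw [zero_add, ← neg_smul, eq_neg_of_add_eq_zero_left h2]
    · rw [hx h, smul_zero, smul_zero, neg_zero, add_zero]

end EXS_

open EXS_ in
theorem exs_proof : Stmt_EXS := by
  intro K _ c C _ R D f N
  refine ⟨{ τ₁ := mulC (D.sec cab f) N
            τ₂ := biprod.desc (saC D f N) (-sbC D f N)
            τ₃ := 𝟙 N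
            comm₁₂ := ?_
            comm₂₃ := ?_ }, rfl, rfl⟩
  · change mulC (D.sec cab f) N ≫ (D.coc f).sx.iC N = biprod.lift _ _ ≫ biprod.desc _ _
    rw [biprod.lift_desc]
    exact key D f N
  · change biprod.desc _ _ ≫ (D.coc f).sx.pC N = biprod.desc _ _ ≫ 𝟙 N
    rw [Category.comp_id]
    apply biprod.hom_ext'
    · rw [biprod.inl_desc_assoc, biprod.inl_desc]
      rfl
    · rw [biprod.inr_desc_assoc, biprod.inr_desc]
      have h1 : (-sbC D f N) ≫ (D.coc f).sx.pC N = -(sbC D f N ≫ (D.coc f).sx.pC N) :=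
        Preadditive.neg_comp (sbC D f N) ((D.coc f).sx.pC N)
      exact h1

end Pool.CRD.Tra
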