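import Pool.Agent.CRD.T.Stmts

/-!
# CRD, area D3, module FRS: the function field of the surface
-/

set_option autoImplicit false

open CategoryTheory Opposite Limits Pretriangulated CochainComplex HomComplex
open scoped TensorProduct

namespace Pool.CRD.Tra

namespace FRS_

variable {K : Type} [Field K] {c₁ c₂ : CurveData K} (S : SurfData c₁ c₂)

theorem mem₁ {f : c₁.F} (hf : f ∈ c₁.A cab) : S.e₁ f ∈ S.A cab cab :=
  (le_sup_left : _ ≤ S.A cab cab) ⟨f, hf, rfl⟩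

theorem mem₂ {f : c₂.F} (hf : f ∈ c₂.A cab) : S.e₂ f ∈ S.A cab cab :=
  (le_sup_right : _ ≤ S.A cab cab) ⟨f, hf, rfl⟩

theorem denom (p : c₁.F ⊗[K] c₂.F) : ∃ d ∈ S.A cab cab, d ≠ 0 ∧
    d * Algebra.TensorProduct.productMap S.e₁ S.e₂ p ∈ S.A cab cab := by
  induction p using TensorProduct.induction_on with
  | zero => exact ⟨1, Subalgebra.one_mem _, one_ne_zero, by
      rw [map_zero, mul_zero]; exact Subalgebra.zero_mem _⟩
  | tmul f g =>
    obtain ⟨a, ha, b, hb, hb0, rfl⟩ := c₁.frac cab f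
    obtain ⟨a', ha', b', hb', hb0', rfl⟩ := c₂.frac cab g
    have h1 : S.e₁ b ≠ 0 := (map_ne_zero S.e₁).2 hb0
    have h2 : S.e₂ b' ≠ 0 := (map_ne_zero S.e₂).2 hb0'
    refine ⟨S.e₁ b * S.e₂ b', Subalgebra.mul_mem _ (mem₁ S hb) (mem₂ S hb'),
      mul_ne_zero h1 h2, ?_⟩
    rw [Algebra.TensorProduct.productMap_apply_tmul, map_div₀, map_div₀]
    have h3 : S.e₁ b * S.e₂ b' * (S.e₁ a / S.e₁ b * (S.e₂ a' / S.e₂ b')) = S.e₁ a * S.e₂ a' := by
      field_simp
    rw [h3]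
    exact Subalgebra.mul_mem _ (mem₁ S ha) (mem₂ S ha')
  | add p q hp hq =>
    obtain ⟨d, hd, hd0, h⟩ := hp
    obtain ⟨d', hd', hd0', h'⟩ := hq
    refine ⟨d * d', Subalgebra.mul_mem _ hd hd', mul_ne_zero hd0 hd0', ?_⟩
    rw [map_add]
    have h3 : d * d' * (Algebra.TensorProduct.productMap S.e₁ S.e₂ p +
        Algebra.TensorProduct.productMap S.e₁ S.e₂ q) =
        d' * (d * Algebra.TensorProduct.productMap S.e₁ S.e₂ p) +
        d * (d' * Algebra.TensorProduct.productMap S.e₁ S.e₂ q) := by ring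
    rw [h3]
    exact Subalgebra.add_mem _ (Subalgebra.mul_mem _ hd' h) (Subalgebra.mul_mem _ hd h')

end FRS_

open FRS_ in
theorem frs_proof : Stmt_FRS := by
  intro K _ c₁ c₂ S
  letI : Algebra (S.R.ring SurfData.c0) S.L := (eS S).toRingHom.toAlgebra
  haveI : FaithfulSMul (S.R.ring SurfData.c0) S.L :=
    (faithfulSMul_iff_algebraMap_injective _ _).2 (by
      intro x y h
      exact Subtype.ext h)
  refine IsFractionRing.of_field _ _ (fun z => ?_)
  obtain ⟨p, q, hq, hz⟩ := S.frac z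
  obtain ⟨d, hd, hd0, h⟩ := denom S p
  obtain ⟨d', hd', hd0', h'⟩ := denom S q
  refine ⟨⟨d' * (d * Algebra.TensorProduct.productMap S.e₁ S.e₂ p),
    Subalgebra.mul_mem _ hd' h⟩, ⟨d * (d' * Algebra.TensorProduct.productMap S.e₁ S.e₂ q),
    Subalgebra.mul_mem _ hd h'⟩, ?_⟩
  show z = (d' * (d * Algebra.TensorProduct.productMap S.e₁ S.e₂ p)) /
    (d * (d' * Algebra.TensorProduct.productMap S.e₁ S.e₂ q))
  rw [hz]
  field_simp

end Pool.CRD.Tra
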