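import Pool.Agent.CRD.T.Stmts

/-!
# CRD, area D3: the top component of a coboundary
-/

set_option autoImplicit false

open CategoryTheory Opposite Limits Pretriangulated CochainComplex HomComplex

namespace Pool.CRD.Tra

namespace JDL_

section
universe v u
variable {A : Type u} [Category.{v} A] [Preadditive A]

lemma neg_unit {M M' : CochainComplex A ℤ} {n : ℤ} (z : Cochain M M' n) :
    (1 : ℤ).negOnePow • z = -z := by
  rw [Int.negOnePow_one, Units.neg_smul, one_smul]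

lemma neg_unit' {M M' : CochainComplex A ℤ} {n : ℤ} (z : Cochain M M' n) :
    (-1 : ℤ).negOnePow • z = -z := by
  have : (-1 : ℤ).negOnePow = -1 := by
    rw [Int.negOnePow_neg, Int.negOnePow_one]
  rw [this, Units.neg_smul, one_smul]

lemma one {T M P N' Ma Ta : CochainComplex A ℤ} (i₂ : Cochain T M (-1)) (a : M ⟶ Ma)
    (ua : Ma ⟶ P) (a' : T ⟶ Ta) (ia : Cochain Ta Ma (-1))
    (ha : i₂.comp (Cochain.ofHom a) (add_zero (-1)) = (Cochain.ofHom a').comp ia (zero_add (-1)))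
    (H : Cochain P N' 1) :
    i₂.comp ((Cochain.ofHom a).comp ((Cochain.ofHom ua).comp H (zero_add 1)) (zero_add 1))
      (by norm_num : (-1 : ℤ) + 1 = 0) =
      (Cochain.ofHom a').comp (ia.comp ((Cochain.ofHom ua).comp H (zero_add 1))
        (by norm_num : (-1 : ℤ) + 1 = 0)) (zero_add 0) := by
  rw [← Cochain.comp_assoc_of_second_is_zero_cochain, ha,
    Cochain.comp_assoc_of_first_is_zero_cochain]

lemma lift_comp {X Y Z W : A} [HasBinaryBiproduct Y Z] (s : X ⟶ Y) (t : X ⟶ Z)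
    (r : Y ⊞ Z ⟶ W) :
    biprod.lift s t ≫ r = s ≫ (biprod.inl ≫ r) + t ≫ (biprod.inr ≫ r) := by
  rw [biprod.lift_eq, Preadditive.add_comp, Category.assoc, Category.assoc]

lemma map_sum_comp {A' : Type u} [Category.{v} A'] [Preadditive A'] (F : A ⥤ A') [F.Additive]
    {X Y Z W : A} (s : X ⟶ Y) (s' : Y ⟶ W) (t : X ⟶ Z) (t' : Z ⟶ W) (r : X ⟶ W)
    (hr : r = s ≫ s' + t ≫ t') :
    F.map r = F.map s ≫ F.map s' + F.map t ≫ F.map t' := by
  rw [hr, Functor.map_add, Functor.map_comp, Functor.map_comp]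

theorem abs {T M P N' Ma Mb Tc Td Ta Tb : CochainComplex A ℤ}
    (i₂ : Cochain T M (-1)) (i₁ : Cochain M P (-1)) (u : M ⟶ P) (v : T ⟶ M)
    (hu : δ (-1) 0 i₁ = Cochain.ofHom u) (hv : δ (-1) 0 i₂ = Cochain.ofHom v)
    (a : M ⟶ Ma) (ua : Ma ⟶ P) (b : M ⟶ Mb) (ub : Mb ⟶ P) (hu' : u = a ≫ ua + b ≫ ub)
    (c : T ⟶ Tc) (vc : Tc ⟶ M) (d : T ⟶ Td) (vd : Td ⟶ M) (hv' : v = c ≫ vc + d ≫ vd)
    (a' : T ⟶ Ta) (ia : Cochain Ta Ma (-1))
    (ha : i₂.comp (Cochain.ofHom a) (add_zero (-1)) = (Cochain.ofHom a').comp ia (zero_add (-1)))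
    (b' : T ⟶ Tb) (ib : Cochain Tb Mb (-1))
    (hb : i₂.comp (Cochain.ofHom b) (add_zero (-1)) = (Cochain.ofHom b').comp ib (zero_add (-1)))
    (H : Cochain P N' 1) :
    (i₂.comp i₁ (by norm_num : (-1 : ℤ) + -1 = -2)).comp (δ 1 2 H)
        (by norm_num : (-2 : ℤ) + 2 = 0) =
      δ (-1) 0 ((i₂.comp i₁ (by norm_num : (-1 : ℤ) + -1 = -2)).comp H
        (by norm_num : (-2 : ℤ) + 1 = -1)) +
      (Cochain.ofHom c).comp (-((Cochain.ofHom vc).comp
        (i₁.comp H (by norm_num : (-1 : ℤ) + 1 = 0)) (zero_add 0))) (zero_add 0) +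
      (Cochain.ofHom d).comp (-((Cochain.ofHom vd).comp
        (i₁.comp H (by norm_num : (-1 : ℤ) + 1 = 0)) (zero_add 0))) (zero_add 0) +
      (Cochain.ofHom a').comp (ia.comp ((Cochain.ofHom ua).comp H (zero_add 1))
        (by norm_num : (-1 : ℤ) + 1 = 0)) (zero_add 0) +
      (Cochain.ofHom b').comp (ib.comp ((Cochain.ofHom ub).comp H (zero_add 1))
        (by norm_num : (-1 : ℤ) + 1 = 0)) (zero_add 0) := by
  have h1 := δ_comp (i₂.comp i₁ (by norm_num : (-1 : ℤ) + -1 = -2)) H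
    (by norm_num : (-2 : ℤ) + 1 = -1) (-1) 2 0 (by norm_num) (by norm_num) (by norm_num)
  have h2 := δ_comp i₂ i₁ (by norm_num : (-1 : ℤ) + -1 = -2) 0 0 (-1) (by norm_num)
    (by norm_num) (by norm_num)
  rw [neg_unit', hu, hv] at h2
  rw [neg_unit, h2] at h1
  have e1 : (i₂.comp (Cochain.ofHom u) (add_zero (-1))).comp H
      (by norm_num : (-1 : ℤ) + 1 = 0) =
      (Cochain.ofHom a').comp (ia.comp ((Cochain.ofHom ua).comp H (zero_add 1))
        (by norm_num : (-1 : ℤ) + 1 = 0)) (zero_add 0) +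
      (Cochain.ofHom b').comp (ib.comp ((Cochain.ofHom ub).comp H (zero_add 1))
        (by norm_num : (-1 : ℤ) + 1 = 0)) (zero_add 0) := by
    rw [Cochain.comp_assoc_of_second_is_zero_cochain, hu', Cochain.ofHom_add,
      Cochain.ofHom_comp, Cochain.ofHom_comp, Cochain.add_comp, Cochain.comp_add,
      Cochain.comp_assoc_of_first_is_zero_cochain, Cochain.comp_assoc_of_first_is_zero_cochain,
      one i₂ a ua a' ia ha H, one i₂ b ub b' ib hb H]
  have e2 : ((Cochain.ofHom v).comp i₁ (zero_add (-1))).comp H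
      (by norm_num : (-1 : ℤ) + 1 = 0) =
      (Cochain.ofHom c).comp ((Cochain.ofHom vc).comp
        (i₁.comp H (by norm_num : (-1 : ℤ) + 1 = 0)) (zero_add 0)) (zero_add 0) +
      (Cochain.ofHom d).comp ((Cochain.ofHom vd).comp
        (i₁.comp H (by norm_num : (-1 : ℤ) + 1 = 0)) (zero_add 0)) (zero_add 0) := by
    rw [Cochain.comp_assoc_of_first_is_zero_cochain, hv', Cochain.ofHom_add,
      Cochain.ofHom_comp, Cochain.ofHom_comp, Cochain.add_comp,
      Cochain.comp_assoc_of_first_is_zero_cochain, Cochain.comp_assoc_of_first_is_zero_cochain]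
  rw [Cochain.add_comp, Cochain.neg_comp, e1, e2] at h1
  rw [h1, Cochain.comp_neg, Cochain.comp_neg]
  abel

end

section
variable {K : Type} [Field K] {C : Type} [Preorder C] {R : PAlg K C}

/-- naturality of `trCLE` for cochains -/
lemma nat {U V : LowerSet C} (h : U ≤ V) {N N' : Cx R} {n : ℤ} (z : Cochain N N' n) :
    (z.map (tr R U)).comp (Cochain.ofHom (trCLE R h N')) (add_zero n) =
      (Cochain.ofHom (trCLE R h N)).comp (z.map (tr R V)) (zero_add n) := by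
  refine Cochain.ext _ _ fun p q hpq => ?_
  rw [Cochain.comp_zero_cochain_v, Cochain.zero_cochain_comp_v]
  rw [Cochain.ofHom_v, Cochain.ofHom_v, Cochain.map_v, Cochain.map_v]
  exact (trLE R h).naturality _

lemma hu (w : Cov2 C) (N : Cx R) : (mvS w N).f ≫ mappingCone.inr (mvS w N).f =
    trCLE R w.ab_a N ≫ (biprod.inl ≫ mappingCone.inr (mvS w N).f) +
      trCLE R w.ab_b N ≫ (biprod.inr ≫ mappingCone.inr (mvS w N).f) :=
  lift_comp _ _ _

end

end JDL_

open JDL_ in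
theorem jdl_proof : Stmt_JDL := by
  intro K _ C _ R w₁ w₂ N N' H
  have hv : (trC R w₁.ab).map ((mvS w₂ N).f ≫ mappingCone.inr (mvS w₂ N).f) =
      (trC R w₁.ab).map (trCLE R w₂.ab_a N) ≫
        (trC R w₁.ab).map (biprod.inl ≫ mappingCone.inr (mvS w₂ N).f) +
      (trC R w₁.ab).map (trCLE R w₂.ab_b N) ≫
        (trC R w₁.ab).map (biprod.inr ≫ mappingCone.inr (mvS w₂ N).f) := by
    exact map_sum_comp (trC R w₁.ab) _ _ _ _ _ (hu w₂ N)
  have hδ : δ (-1) 0 ((mappingCone.inl (mvS w₂ N).f).map (tr R w₁.ab)) =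
      Cochain.ofHom ((trC R w₁.ab).map ((mvS w₂ N).f ≫ mappingCone.inr (mvS w₂ N).f)) := by
    rw [δ_map, mappingCone.δ_inl, Cochain.map_ofHom]
  exact ⟨_, _, _, _, _, abs ((mappingCone.inl (mvS w₂ N).f).map (tr R w₁.ab))
    (mappingCone.inl (mvS w₁ (CE w₂ N)).f)
    ((mvS w₁ (CE w₂ N)).f ≫ mappingCone.inr (mvS w₁ (CE w₂ N)).f) _
    (mappingCone.δ_inl _) hδ _ _ _ _ (hu w₁ (CE w₂ N)) _ _ _ _ hv
    (trCLE R w₁.ab_a ((trC R w₂.ab).obj N)) ((mappingCone.inl (mvS w₂ N).f).map (tr R w₁.a))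
    (nat _ _)
    (trCLE R w₁.ab_b ((trC R w₂.ab).obj N)) ((mappingCone.inl (mvS w₂ N).f).map (tr R w₁.b))
    (nat _ _) H⟩

end Pool.CRD.Tra
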