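import Pool.Agent.CRD.T.Stmts

/-!
# CRD, area D3, KA1: the class of a direction on the Cech resolution
-/

open CategoryTheory Opposite Limits Pretriangulated CochainComplex HomComplex

open scoped TensorProduct

namespace Pool.CRD.Tra

theorem ka1_proof (hEXS : Stmt_EXS) (hMVE : Stmt_MVE) : Stmt_KA1 := by
  intro K _ c C _ R _ D f N
  obtain ⟨s, h3, h1⟩ := hEXS K c C R D f N
  have hS₁ : (mvS (covD D) N).ShortExact := (hMVE K C R).1 (covD D) N
  have hS₂ : ((D.coc f).sx.sC N).ShortExact := (D.coc f).sx.sC_se N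
  have e1 : (D.κM f).app (DerivedCategory.Q.obj N) = DerivedCategory.triangleOfSESδ hS₂ :=
    SelfExt.κ_Q _ _
  have e2 := DerivedCategory.triangleOfSESδ_naturality hS₁ hS₂ s
  have e3 : DerivedCategory.triangleOfSESδ hS₂ = DerivedCategory.triangleOfSESδ hS₁ ≫
      (DerivedCategory.Q.map (mulC (D.sec cab f) N))⟦(1 : ℤ)⟧' := by
    have e4 : DerivedCategory.Q.map s.τ₃ ≫ DerivedCategory.triangleOfSESδ hS₂ =
        DerivedCategory.triangleOfSESδ hS₂ := by
      rw [h3]
      exact (congrArg (· ≫ DerivedCategory.triangleOfSESδ hS₂)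
        (DerivedCategory.Q.map_id N)).trans (Category.id_comp _)
    rw [← e4, ← e2, h1]
    rfl
  have e5 := DerivedCategory.descShortComplex_triangleOfSESδ hS₁
  rw [e1, e3, ← Category.assoc]
  refine (congrArg (· ≫ (DerivedCategory.Q.map (mulC (D.sec cab f) N))⟦(1 : ℤ)⟧') e5).trans ?_
  refine (Category.assoc _ _ _).trans ?_
  have e6 := DerivedCategory.Q.commShiftIso_hom_naturality (mulC (D.sec cab f) N) (1 : ℤ)
  refine (congrArg (DerivedCategory.Q.map (mappingCone.triangle (mvS (covD D) N).f).mor₃ ≫ ·)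
    e6.symm).trans ?_
  refine (Category.assoc _ _ _).symm.trans ?_
  refine congrArg (· ≫ (DerivedCategory.Q.commShiftIso (1 : ℤ)).hom.app N) ?_
  exact (DerivedCategory.Q.map_comp _ _).symm

end Pool.CRD.Tra
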