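import Pool.Agent.CRD.T.Stmts

open CategoryTheory Opposite Limits Pretriangulated CochainComplex HomComplex

namespace Pool.CRD.Tra

namespace KA2_

section rep

variable {A : Type 1} [Category.{0} A] [Abelian A] [HasDerivedCategory.{1} A]

open DerivedCategory in
/-- composition of shifted morphisms and `cl` -/
lemma cl_comp {P M N : CochainComplex A ℤ} (f : P ⟶ M⟦(1 : ℤ)⟧) (g : M ⟶ N⟦(1 : ℤ)⟧) :
    Q.map (f ≫ g⟦(1 : ℤ)⟧' ≫
        (CategoryTheory.shiftFunctorAdd' (CochainComplex A ℤ) (1 : ℤ) 1 2 (by norm_num)).inv.app N) ≫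
      (Q.commShiftIso (2 : ℤ)).hom.app N =
    (Q.map f ≫ (Q.commShiftIso (1 : ℤ)).hom.app M) ≫
      (Q.map g ≫ (Q.commShiftIso (1 : ℤ)).hom.app N)⟦(1 : ℤ)⟧' ≫
      (CategoryTheory.shiftFunctorAdd' (DerivedCategory A) (1 : ℤ) 1 2 (by norm_num)).inv.app
        (Q.obj N) := by
  have h := NatTrans.congr_app (congr_arg Iso.hom
    ((Q (C := A)).commShiftIso_add' (show (1 : ℤ) + 1 = 2 by norm_num))) N
  rw [h, Functor.CommShift.isoAdd'_hom_app]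
  have h2 := (Q (C := A)).commShiftIso_hom_naturality g (1 : ℤ)
  have h3 : Q.map ((CategoryTheory.shiftFunctorAdd' (CochainComplex A ℤ) (1 : ℤ) 1 2
      (by norm_num)).inv.app N) ≫ Q.map ((CategoryTheory.shiftFunctorAdd' (CochainComplex A ℤ)
      (1 : ℤ) 1 2 (by norm_num)).hom.app N) = 𝟙 _ := by
    rw [← Functor.map_comp, Iso.inv_hom_id_app, Q.map_id]
  simp only [Functor.map_comp, Category.assoc]
  rw [← reassoc_of% h2, reassoc_of% h3]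

/-- the morphism of complexes representing the composition -/
noncomputable def FF {P M N : CochainComplex A ℤ} (f : P ⟶ M⟦(1 : ℤ)⟧) (g : M ⟶ N⟦(1 : ℤ)⟧) :
    P ⟶ N⟦(2 : ℤ)⟧ :=
  f ≫ g⟦(1 : ℤ)⟧' ≫
    (CategoryTheory.shiftFunctorAdd' (CochainComplex A ℤ) (1 : ℤ) 1 2 (by norm_num)).inv.app N

open DerivedCategory in
lemma cl_FF {P M N : CochainComplex A ℤ} (f : P ⟶ M⟦(1 : ℤ)⟧) (g : M ⟶ N⟦(1 : ℤ)⟧) :
    cl (Cocycle.equivHomShift (FF f g)) =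
    (Q.map f ≫ (Q.commShiftIso (1 : ℤ)).hom.app M) ≫
      (Q.map g ≫ (Q.commShiftIso (1 : ℤ)).hom.app N)⟦(1 : ℤ)⟧' ≫
      (CategoryTheory.shiftFunctorAdd' (DerivedCategory A) (1 : ℤ) 1 2 (by norm_num)).inv.app
        (Q.obj N) := by
  unfold cl
  rw [AddEquiv.symm_apply_apply]
  exact cl_comp f g

end rep

/-- component of a morphism to a shift -/
def sf {A : Type 1} [Category.{0} A] [Abelian A] {P M : CochainComplex A ℤ}
    (f : P ⟶ M⟦(1 : ℤ)⟧) (q : ℤ) : P.X q ⟶ M.X (q + 1) := f.f q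

lemma FF_v {A : Type 1} [Category.{0} A] [Abelian A] {P M N : CochainComplex A ℤ}
    (f : P ⟶ M⟦(1 : ℤ)⟧) (g : M ⟶ N⟦(1 : ℤ)⟧) (q : ℤ) (h : q + 2 = q + 1 + 1) :
    (Cocycle.equivHomShift (FF f g) : Cochain P N 2).v q (q + 1 + 1) h =
      sf f q ≫ sf g (q + 1) := by
  rw [Cocycle.equivHomShift_apply]
  simp only [Cocycle.rightUnshift_coe, FF]
  rw [Cochain.rightUnshift_v _ _ _ _ _ _ _ (add_zero q)]
  have h1 := shiftFunctorAdd'_inv_app_f' N 1 1 2 (by norm_num) q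
  simp [h1, sf]

variable {K : Type} [Field K] {C : Type} [Preorder C] {R : PAlg K C}

/-- the third morphism of the triangle of the mapping cone -/
noncomputable def sm (w : Cov2 C) (N : Cx R) (q : ℤ) :
    (CE w N).X q ⟶ ((trC R w.ab).obj N).X (q + 1) := (mappingCone.triangle (mvS w N).f).mor₃.f q

/-- the inclusion of the first summand -/
noncomputable def il (w : Cov2 C) (N : Cx R) (q : ℤ) :
    ((trC R w.ab).obj N).X (q + 1) ⟶ (CE w N).X q :=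
  (mappingCone.inl (mvS w N).f).v (q + 1) q (by ring)

lemma il_sm (w : Cov2 C) (N : Cx R) (q : ℤ) : il w N q ≫ sm w N q = - 𝟙 _ := by
  refine (mappingCone.inl_v_triangle_mor₃_f (mvS w N).f (q + 1) q (by ring)).trans ?_
  congr 1

lemma sf_wm (w : Cov2 C) (N : Cx R) (m : (trC R w.ab).obj N ⟶ N) (q : ℤ) :
    sf (wm w N m) q = sm w N q ≫ m.f (q + 1) := rfl

lemma inl_wm (w : Cov2 C) (N : Cx R) (m : (trC R w.ab).obj N ⟶ N) (q : ℤ) :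
    il w N q ≫ sf (wm w N m) q = - m.f (q + 1) := by
  rw [sf_wm, ← Category.assoc, il_sm, Preadditive.neg_comp, Category.id_comp]

lemma jj_v (w₁ w₂ : Cov2 C) (N : Cx R) (q : ℤ) (h : q + 1 + 1 + (-2) = q) :
    (jj w₁ w₂ N).v (q + 1 + 1) q h = (tr R w₁.ab).map (il w₂ N (q + 1)) ≫ il w₁ (CE w₂ N) q := by
  unfold jj
  rw [Cochain.comp_v _ _ _ (q + 1 + 1) (q + 1) q (by ring) (by ring)]
  rfl

lemma alg {T : Type*} [Category T] [Preadditive T] {a b c d e x : T} {t : a ⟶ b} {i₁ : b ⟶ c}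
    {S₁ : c ⟶ d} {M₁ : b ⟶ d} {U : a ⟶ x} {i₂ : x ⟶ d} {S₂ : d ⟶ e} {M₂ : x ⟶ e}
    (h1 : i₁ ≫ S₁ = - M₁) (h3 : t ≫ M₁ = U ≫ i₂) (h2 : i₂ ≫ S₂ = - M₂) :
    (t ≫ i₁) ≫ S₁ ≫ S₂ = U ≫ M₂ := by
  have : (t ≫ i₁) ≫ S₁ ≫ S₂ = t ≫ (i₁ ≫ S₁) ≫ S₂ := by simp only [Category.assoc]
  rw [this, h1, Preadditive.neg_comp, Preadditive.comp_neg, ← Category.assoc, h3, Category.assoc,
    h2, Preadditive.comp_neg, neg_neg]

lemma top_v (w₁ w₂ : Cov2 C) (N : Cx R) (s₁ : SecOn R w₁.ab) (s₂ : SecOn R w₂.ab) (q : ℤ)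
    (h : q + 1 + 1 + 0 = q + 1 + 1) :
    (top w₁ w₂ (Cocycle.equivHomShift (FF (wm w₁ (CE w₂ N) (mulC s₁ (CE w₂ N)))
      (wm w₂ N (mulC s₂ N))) : Cochain (PP w₁ w₂ N) N 2)).v (q + 1 + 1) (q + 1 + 1) h =
    (mulU s₁ ≫ trι R w₁.ab).app ((tr R w₂.ab).obj (N.X (q + 1 + 1))) ≫
      (mulU s₂ ≫ trι R w₂.ab).app (N.X (q + 1 + 1)) := by
  unfold top
  rw [Cochain.comp_v _ _ _ (q + 1 + 1) q (q + 1 + 1) (by ring) (by ring), FF_v, jj_v]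
  exact alg (inl_wm w₁ (CE w₂ N) (mulC s₁ (CE w₂ N)) q)
    ((mulU s₁ ≫ trι R w₁.ab).naturality (il w₂ N (q + 1))) (inl_wm w₂ N (mulC s₂ N) (q + 1))

lemma top_atT (w₁ w₂ : Cov2 C) (N : Cx R) (s₁ : SecOn R w₁.ab) (s₂ : SecOn R w₂.ab) (t : C)
    (h₁ : t ∈ w₁.ab) (h₂ : t ∈ w₂.ab) (n : ℤ) (x : (N.X n).obj (op t)) :
    atT h₁ h₂ ((top w₁ w₂ (Cocycle.equivHomShift (FF (wm w₁ (CE w₂ N) (mulC s₁ (CE w₂ N)))
      (wm w₂ N (mulC s₂ N))) : Cochain (PP w₁ w₂ N) N 2)).v n n (add_zero n)) x =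
          (s₂.a (op t) • s₁.a (op t) • x) := by
  obtain ⟨q, rfl⟩ : ∃ q : ℤ, n = q + 1 + 1 := ⟨n - 1 - 1, by ring⟩
  rw [top_v]
  rfl

end KA2_

theorem ka2_proof : Stmt_KA2 := by
  refine ⟨1, Or.inl rfl, ?_⟩
  intro K _ C _ R w₁ w₂ N s₁ s₂ κ₁ κ₂ h1 h2
  refine ⟨Cocycle.equivHomShift (KA2_.FF (wm w₁ (CE w₂ N) (mulC s₁ (CE w₂ N)))
      (wm w₂ N (mulC s₂ N))), ?_, ?_⟩
  · unfold Rep
    rw [KA2_.cl_FF, ← h1, ← h2]
    have h3 := κ₁.naturality (DerivedCategory.Q.map (CEπ w₂ N))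
    rw [Functor.id_map] at h3
    simp only [PPπ, Functor.map_comp, Category.assoc]
    rw [← reassoc_of% h3]
  · intro t h₁ h₂ n x
    rw [one_smul]
    exact KA2_.top_atT w₁ w₂ N s₁ s₂ t h₁ h₂ n x

end Pool.CRD.Tra
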