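import Pool.Agent.CRD.T.Stmts

set_option autoImplicit false

/-!
# CRD, area D3, KPB: the Cech resolution of a bounded complex of vector bundles is K-projective
-/

open CategoryTheory Opposite Limits Pretriangulated CochainComplex HomComplex

namespace Pool.CRD.Tra

namespace KPB_

section
variable {K : Type} [Field K] {C : Type} [Preorder C] {R : PAlg K C}

theorem biprod_proj (T : PMod R ⥤ PMod R) [T.Additive] (A B : PMod R)
    (hA : Projective (T.obj A)) (hB : Projective (T.obj B)) : Projective (T.obj (A ⊞ B)) := by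
  have : PreservesBinaryBiproducts T := preservesBinaryBiproducts_of_preservesBiproducts T
  exact Projective.of_iso (T.mapBiprod A B).symm inferInstance

theorem ce_proj (T : PMod R ⥤ PMod R) [T.Additive] (w : Cov2 C) (N : Cx R) (n : ℤ)
    (h1 : Projective (T.obj ((tr R w.ab).obj (N.X (n + 1)))))
    (h2 : Projective (T.obj ((tr R w.a).obj (N.X n))))
    (h3 : Projective (T.obj ((tr R w.b).obj (N.X n)))) :
    Projective (T.obj ((CE w N).X n)) := by
  let φ := (mvS w N).f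
  have e1 : (CE w N).X n ≅ (mvS w N).X₁.X (n + 1) ⊞ (mvS w N).X₂.X n :=
    HomologicalComplex.homotopyCofiber.XIsoBiprod φ n (n + 1) rfl
  have e2 : (mvS w N).X₂.X n ≅ ((trC R w.a).obj N).X n ⊞ ((trC R w.b).obj N).X n :=
    HomologicalComplex.biprodXIso _ _ n
  have h4 : Projective (T.obj (((trC R w.a).obj N).X n ⊞ ((trC R w.b).obj N).X n)) :=
    biprod_proj T _ _ h2 h3
  have h5 : Projective (T.obj ((mvS w N).X₂.X n)) := Projective.of_iso (T.mapIso e2).symm h4
  have h6 : Projective (T.obj ((mvS w N).X₁.X (n + 1) ⊞ (mvS w N).X₂.X n)) :=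
    biprod_proj T _ _ h1 h5
  exact Projective.of_iso (T.mapIso e1).symm h6

theorem tr_zero (U : LowerSet C) (M : PMod R) (h : IsZero M) : IsZero ((tr R U).obj M) :=
  (tr R U).map_isZero h

theorem ce_le (w : Cov2 C) (N : Cx R) (b : ℤ) (h : N.IsStrictlyLE b) :
    (CE w N).IsStrictlyLE b := by
  rw [isStrictlyLE_iff] at h ⊢
  intro n hn
  refine HomologicalComplex.homotopyCofiber.isZero_X (mvS w N).f n ?_ ?_
  · have e2 : (mvS w N).X₂.X n ≅ ((trC R w.a).obj N).X n ⊞ ((trC R w.b).obj N).X n :=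
      HomologicalComplex.biprodXIso _ _ n
    refine IsZero.of_iso ?_ e2
    rw [biprod_isZero_iff]
    exact ⟨tr_zero _ _ (h n hn), tr_zero _ _ (h n hn)⟩
  · intro j hj
    have hj' : n + 1 = j := hj
    exact tr_zero _ _ (h j (by omega))

end

end KPB_

theorem kpb_proof (hPRJ : Stmt_PRJ) : Stmt_KPB := by
  intro K _ C _ R w₁ w₂ hPr N hN
  obtain ⟨⟨a, b, -, hb⟩, hVB⟩ := hN
  have hproj : ∀ U V : LowerSet C, (U = w₁.a ∨ U = w₁.b ∨ U = w₁.ab) →
      (V = w₂.a ∨ V = w₂.b ∨ V = w₂.ab) → ∀ n, Projective ((tr R U).obj ((tr R V).obj (N.X n))) := by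
    intro U V hU hV n
    obtain ⟨v, hv⟩ := hPr U V hU hV
    exact hPRJ K C R U V v hv (N.X n) (hVB n)
  have hce : ∀ U : LowerSet C, (U = w₁.a ∨ U = w₁.b ∨ U = w₁.ab) →
      ∀ n, Projective ((tr R U).obj ((CE w₂ N).X n)) := by
    intro U hU n
    have hadd : (tr R U).Additive := inferInstance
    exact KPB_.ce_proj (tr R U) w₂ N n (hproj U _ hU (Or.inr (Or.inr rfl)) _)
      (hproj U _ hU (Or.inl rfl) _) (hproj U _ hU (Or.inr (Or.inl rfl)) _)
  have hpp : ∀ n, Projective ((PP w₁ w₂ N).X n) := by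
    intro n
    exact KPB_.ce_proj (𝟭 (PMod R)) w₁ (CE w₂ N) n (hce _ (Or.inr (Or.inr rfl)) _)
      (hce _ (Or.inl rfl) _) (hce _ (Or.inr (Or.inl rfl)) _)
  have hle : (PP w₁ w₂ N).IsStrictlyLE b := KPB_.ce_le _ _ _ (KPB_.ce_le _ _ _ hb)
  exact isKProjective_of_projective (PP w₁ w₂ N) b

end Pool.CRD.Tra
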