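import Pool.Agent.CRD.T.Stmts

open CategoryTheory Opposite Limits Pretriangulated CochainComplex HomComplex

namespace Pool.CRD.Tra

namespace MVE_

variable {K : Type} [Field K] {C : Type} [Preorder C] {R : PAlg K C}

/-- the map on sections given by a morphism of complexes -/
noncomputable def el {M N : Cx R} (f : M ⟶ N) (n : ℤ) (X : Cᵒᵖ) :
    (M.X n).obj X →ₗ[R.toRing.obj X] (N.X n).obj X := ((f.f n).app X).hom

lemma el_comp {M N L : Cx R} (f : M ⟶ N) (g : N ⟶ L) (n : ℤ) (X : Cᵒᵖ) (x : (M.X n).obj X) :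
    el (f ≫ g) n X x = el g n X (el f n X x) := rfl

lemma el_add {M N : Cx R} (f g : M ⟶ N) (n : ℤ) (X : Cᵒᵖ) (x : (M.X n).obj X) :
    el (f + g) n X x = el f n X x + el g n X x := rfl

lemma el_neg {M N : Cx R} (f : M ⟶ N) (n : ℤ) (X : Cᵒᵖ) (x : (M.X n).obj X) :
    el (-f) n X x = - el f n X x := rfl

lemma el_id {M : Cx R} (n : ℤ) (X : Cᵒᵖ) (x : (M.X n).obj X) :
    el (𝟙 M) n X x = x := rfl

section

variable {A B Z : Cx R}

lemma dec (n : ℤ) (X : Cᵒᵖ) (x : ((A ⊞ B : Cx R).X n).obj X) :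
    x = el (biprod.inl : A ⟶ A ⊞ B) n X (el (biprod.fst : A ⊞ B ⟶ A) n X x) +
      el (biprod.inr : B ⟶ A ⊞ B) n X (el (biprod.snd : A ⊞ B ⟶ B) n X x) := by
  rw [← el_comp, ← el_comp, ← el_add, biprod.total, el_id]

lemma ext' (n : ℤ) (X : Cᵒᵖ) {x y : ((A ⊞ B : Cx R).X n).obj X}
    (h1 : el (biprod.fst : A ⊞ B ⟶ A) n X x = el (biprod.fst : A ⊞ B ⟶ A) n X y)
    (h2 : el (biprod.snd : A ⊞ B ⟶ B) n X x = el (biprod.snd : A ⊞ B ⟶ B) n X y) : x = y := by
  rw [dec n X x, dec n X y, h1, h2]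

lemma desc_el (f : A ⟶ Z) (g : B ⟶ Z) (n : ℤ) (X : Cᵒᵖ) (x : ((A ⊞ B : Cx R).X n).obj X) :
    el (biprod.desc f g) n X x = el f n X (el (biprod.fst : A ⊞ B ⟶ A) n X x) +
      el g n X (el (biprod.snd : A ⊞ B ⟶ B) n X x) := by
  rw [biprod.desc_eq, el_add]
  rfl

lemma lift_fst (f : Z ⟶ A) (g : Z ⟶ B) (n : ℤ) (X : Cᵒᵖ) (x : (Z.X n).obj X) :
    el (biprod.fst : A ⊞ B ⟶ A) n X (el (biprod.lift f g) n X x) = el f n X x := by
  rw [← el_comp, biprod.lift_fst]

lemma lift_snd (f : Z ⟶ A) (g : Z ⟶ B) (n : ℤ) (X : Cᵒᵖ) (x : (Z.X n).obj X) :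
    el (biprod.snd : A ⊞ B ⟶ B) n X (el (biprod.lift f g) n X x) = el g n X x := by
  rw [← el_comp, biprod.lift_snd]

end

/-- the value of a section of `M_U` -/
def vl (U : LowerSet C) (M : PMod R) (X : Cᵒᵖ) (x : ((tr R U).obj M).obj X) : M.obj X :=
  (x : trSub U M X).1

lemma vl_mem (U : LowerSet C) (M : PMod R) (X : Cᵒᵖ) (x : ((tr R U).obj M).obj X)
    (h : X.unop ∉ U) : vl U M X x = 0 := (x : trSub U M X).2 h

lemma ses (w : Cov2 C) (N : Cx R) : (mvS w N).ShortExact := by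
  apply HomologicalComplex.shortExact_of_degreewise_shortExact
  intro n
  have hab : ∀ (X : Cᵒᵖ) (m : (N.X n).obj X), (X.unop ∉ w.a → m = 0) → (X.unop ∉ w.b → m = 0) →
      (X.unop ∉ w.ab → m = 0) := by
    intro X m ha hb h
    by_cases h1 : X.unop ∈ w.a
    · exact hb (fun h2 => h ((w.mem_ab _).2 ⟨h1, h2⟩))
    · exact ha h1
  refine { exact := (pmod_exact_iff _).2 ?_, mono_f := (pmod_mono_iff _).2 ?_,
           epi_g := (pmod_epi_iff _).2 ?_ }
  · intro X x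
    change el (mvS w N).g n X x = 0 ↔ ∃ y, el (mvS w N).f n X y = x
    constructor
    · intro h
      rw [desc_el] at h
      have h1 : vl w.a (N.X n) X (el (biprod.fst : (trC R w.a).obj N ⊞
          (trC R w.b).obj N ⟶ _) n X x) + -vl w.b (N.X n) X (
            el (biprod.snd : (trC R w.a).obj N ⊞ (trC R w.b).obj N ⟶ _) n X x) = 0 := h
      rw [← sub_eq_add_neg, sub_eq_zero] at h1
      refine ⟨(⟨vl w.a (N.X n) X (el (biprod.fst : (trC R w.a).obj N ⊞
          (trC R w.b).obj N ⟶ _) n X x), hab X _ (vl_mem _ _ X _) ?_⟩ :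
            trSub w.ab (N.X n) X), ?_⟩
      · rw [h1]; exact vl_mem _ _ X _
      · apply ext'
        · rw [lift_fst]; rfl
        · rw [lift_snd]; exact Subtype.ext h1
    · rintro ⟨y, rfl⟩
      rw [← el_comp, (mvS w N).zero]
      rfl
  · intro X x y h
    change el (mvS w N).f n X x = el (mvS w N).f n X y at h
    have h1 := congrArg (el (biprod.fst : (trC R w.a).obj N ⊞ (trC R w.b).obj N ⟶ _) n X) h
    have h2 := (lift_fst (trCLE R w.ab_a N) (trCLE R w.ab_b N) n X x).symm.trans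
      (h1.trans (lift_fst (trCLE R w.ab_a N) (trCLE R w.ab_b N) n X y))
    exact Subtype.ext (congrArg (fun z : trSub w.a (N.X n) X => z.1) h2)
  · intro X y
    change ∃ x, el (mvS w N).g n X x = y
    rcases w.cov X.unop with h | h
    · refine ⟨el (biprod.inl : (trC R w.a).obj N ⟶ (trC R w.a).obj N ⊞ (trC R w.b).obj N) n X
        (⟨y, fun h' => absurd h h'⟩ : trSub w.a (N.X n) X), ?_⟩
      rw [← el_comp, biprod.inl_desc]
      rfl
    · refine ⟨el (biprod.inr : (trC R w.b).obj N ⟶ (trC R w.a).obj N ⊞ (trC R w.b).obj N) n X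
        (⟨-y, fun h' => absurd h h'⟩ : trSub w.b (N.X n) X), ?_⟩
      rw [← el_comp, biprod.inr_desc, el_neg]
      exact neg_neg y

lemma q (w : Cov2 C) (N : Cx R) : IsIso (DerivedCategory.Q.map (CEπ w N)) := by
  have : QuasiIso (CEπ w N) := mappingCone.quasiIso_descShortComplex (ses w N)
  infer_instance

lemma nat1 (w : Cov2 C) {N N' : Cx R} (f : N ⟶ N') :
    CEmap w f ≫ CEπ w N' = CEπ w N ≫ f :=
  mappingCone.descShortComplex_naturality (mvMap w f)

end MVE_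

theorem mve_proof : Stmt_MVE := by
  intro K _ C _ R
  refine ⟨MVE_.ses, fun w₁ w₂ N => ⟨MVE_.q w₂ N, ?_⟩, fun w₁ w₂ N N' f => ?_⟩
  · have := MVE_.q w₁ (CE w₂ N)
    have := MVE_.q w₂ N
    rw [Functor.map_comp]
    infer_instance
  · rw [← Category.assoc, MVE_.nat1 w₁ (CEmap w₂ f), Category.assoc, MVE_.nat1 w₂ f,
      Category.assoc]

end Pool.CRD.Tra
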