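import Pool.Agent.CRD.T.Stmts

set_option autoImplicit false

/-!
# CRD, area D3, PRJ: projectivity of `(M_V)_U` for `U ∩ V` principal, `M` a vector bundle
-/

open CategoryTheory Opposite Limits Pretriangulated CochainComplex HomComplex

namespace Pool.CRD.Tra

namespace PRJ_

section
variable {K : Type} [Field K] {C : Type} [Preorder C] {R : PAlg K C}

theorem cart_ind {M : PMod R} {X Y : Cᵒᵖ} (f : X ⟶ Y) (c : IsCart M f) (p : M.obj Y → Prop)
    (h0 : p 0) (him : ∀ x : M.obj X, p (rs M f x)) (hs : ∀ (r : R.toRing.obj Y) x, p x → p (r • x))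
    (ha : ∀ x y, p x → p y → p (x + y)) (y : M.obj Y) : p y := by
  let _ : Algebra (R.obj X) (R.obj Y) := (R.map f).hom.toRingHom.toAlgebra
  let _ : Module (R.obj X) (M.obj X) := inferInstanceAs (Module (R.toRing.obj X) (M.obj X))
  let _ : Module (R.obj Y) (M.obj Y) := inferInstanceAs (Module (R.toRing.obj Y) (M.obj Y))
  let _ : Module (R.obj X) (M.obj Y) := Module.compHom (M.obj Y) (R.map f).hom.toRingHom
  have _ : IsScalarTower (R.obj X) (R.obj Y) (M.obj Y) :=
    ⟨fun a b c => by rw [Algebra.smul_def, mul_smul]; rfl⟩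
  have c' : IsBaseChange (R.obj Y)
    ({ toFun := fun x => M.map f x
       map_add' := fun x y => map_add (M.map f).hom x y
       map_smul' := fun r x => M.map_smul f r x } : M.obj X →ₗ[R.obj X] M.obj Y) := c
  exact c'.inductionOn y p h0 him hs ha

theorem cart_lift {M N : PMod R} {X Y : Cᵒᵖ} (f : X ⟶ Y) (c : IsCart M f)
    (g : M.obj X →ₗ[R.toRing.obj X] N.obj X) :
    ∃ h : M.obj Y →ₗ[R.toRing.obj Y] N.obj Y, ∀ x, h (rs M f x) = rs N f (g x) := by
  let _ : Algebra (R.obj X) (R.obj Y) := (R.map f).hom.toRingHom.toAlgebra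
  let _ : Module (R.obj X) (M.obj X) := inferInstanceAs (Module (R.toRing.obj X) (M.obj X))
  let _ : Module (R.obj Y) (M.obj Y) := inferInstanceAs (Module (R.toRing.obj Y) (M.obj Y))
  let _ : Module (R.obj X) (M.obj Y) := Module.compHom (M.obj Y) (R.map f).hom.toRingHom
  have _ : IsScalarTower (R.obj X) (R.obj Y) (M.obj Y) :=
    ⟨fun a b c => by rw [Algebra.smul_def, mul_smul]; rfl⟩
  let _ : Module (R.obj Y) (N.obj Y) := inferInstanceAs (Module (R.toRing.obj Y) (N.obj Y))
  let _ : Module (R.obj X) (N.obj Y) := Module.compHom (N.obj Y) (R.map f).hom.toRingHom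
  have _ : IsScalarTower (R.obj X) (R.obj Y) (N.obj Y) :=
    ⟨fun a b c => by rw [Algebra.smul_def, mul_smul]; rfl⟩
  have c' : IsBaseChange (R.obj Y)
    ({ toFun := fun x => M.map f x
       map_add' := fun x y => map_add (M.map f).hom x y
       map_smul' := fun r x => M.map_smul f r x } : M.obj X →ₗ[R.obj X] M.obj Y) := c
  let gg : M.obj X →ₗ[R.obj X] N.obj Y :=
    { toFun := fun x => rs N f (g x)
      map_add' := fun x y => by rw [map_add, rs_add]
      map_smul' := fun r x => by
        have h1 : g (r • x) = (r : R.toRing.obj X) • g x := g.map_smul r x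
        rw [h1]
        exact rs_smul N f r (g x) }
  exact ⟨c'.lift gg, fun x => c'.lift_eq gg x⟩

end

end PRJ_

theorem prj_proof : Stmt_PRJ := by
  classical
  intro K _ C _ R U V v hUV M hM
  obtain ⟨⟨-, hcart⟩, hproj⟩ := hM
  have hv : v ∈ U ∧ v ∈ V := (hUV v).2 le_rfl
  refine ⟨fun {A B} f e _ => ?_⟩
  have _ := hproj (op v)
  -- the lift over the chart `v`
  obtain ⟨gv, hgv⟩ := Module.projective_lifting_property (e.app (op v)).hom
    ((f.app (op v)).hom.comp (emT hv.1 hv.2 M)) (surj_of_epi e (op v))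
  have hgv' : ∀ x, e.app (op v) (gv x) = f.app (op v) (emT hv.1 hv.2 M x) := fun x =>
    LinearMap.congr_fun hgv x
  -- the lifts over the other charts
  have hG : ∀ X : Cᵒᵖ, ∃ G : M.obj X →ₗ[R.toRing.obj X] A.obj X,
      ∀ h : X.unop ≤ v, ∀ x, G (rs M (homOfLE h).op x) = rs A (homOfLE h).op (gv x) := by
    intro X
    by_cases h : X.unop ≤ v
    · obtain ⟨G, hG⟩ := PRJ_.cart_lift (N := A) (homOfLE h).op (hcart _) gv
      exact ⟨G, fun _ => hG⟩
    · exact ⟨0, fun h' => absurd h' h⟩
  choose G hG using hG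
  -- elements of the domain
  have hzero : ∀ (X : Cᵒᵖ) (p : trSub U (trObj V M) X), ¬ X.unop ≤ v →
      ((p : (trObj V M).obj X) : trSub V M X).1 = 0 := by
    intro X p hX
    by_cases h1 : X.unop ∈ U
    · have h2 : X.unop ∉ V := fun h3 => hX ((hUV _).1 ⟨h1, h3⟩)
      exact ((p : (trObj V M).obj X) : trSub V M X).2 h2
    · have h2 := p.2 h1
      rw [h2]
      rfl
  let g : (tr R U).obj ((tr R V).obj M) ⟶ A := mkHom (M := trObj U (trObj V M)) (N := A)
    (fun X => (G X).comp ((trSub V M X).subtype.comp (trSub U (trObj V M) X).subtype))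
    (fun {X Y} q p => by
      change G Y (rs M q ((p : trSub U (trObj V M) X).1 : trSub V M X).1) =
        rs A q (G X ((p : trSub U (trObj V M) X).1 : trSub V M X).1)
      by_cases hX : X.unop ≤ v
      · have hY : Y.unop ≤ v := le_trans (leOfHom q.unop) hX
        generalize ((p : trSub U (trObj V M) X).1 : trSub V M X).1 = x
        refine PRJ_.cart_ind (homOfLE hX).op (hcart _)
          (fun x => G Y (rs M q x) = rs A q (G X x)) ?_ ?_ ?_ ?_ x
        · rw [rs_zero, map_zero, map_zero, rs_zero]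
        · intro x0
          rw [hG X hX, ← rs_comp, ← rs_comp]
          exact hG Y hY x0
        · intro r x0 h0
          rw [rs_smul, map_smul, h0, map_smul, rs_smul]
        · intro x0 x1 h0 h1
          rw [rs_add, map_add, h0, h1, map_add, rs_add]
      · rw [hzero X p hX, rs_zero, map_zero, map_zero, rs_zero])
  refine ⟨g, ?_⟩
  apply pmod_ext
  intro X p
  change e.app X (G X ((p : trSub U (trObj V M) X).1 : trSub V M X).1) = f.app X p
  by_cases hX : X.unop ≤ v
  · have hXUV := (hUV X.unop).2 hX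
    have hp : p = emT (t := X.unop) hXUV.1 hXUV.2 M
        ((p : trSub U (trObj V M) X).1 : trSub V M X).1 := rfl
    have key : ∀ x : M.obj X, e.app X (G X x) = f.app X (emT (t := X.unop) hXUV.1 hXUV.2 M x) := by
      intro x
      refine PRJ_.cart_ind (homOfLE hX).op (hcart _)
        (fun x => e.app X (G X x) = f.app X (emT (t := X.unop) hXUV.1 hXUV.2 M x)) ?_ ?_ ?_ ?_ x
      · rw [map_zero, map_zero]
        exact ((congrArg (f.app X) (map_zero (emT (t := X.unop) hXUV.1 hXUV.2 M))).trans
          (map_zero (f.app X).hom)).symm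
      · intro x0
        rw [hG X hX, rs_nat, hgv', ← rs_nat]
        rfl
      · intro r x0 h0
        rw [map_smul, map_smul, h0]
        have h1 : emT (t := X.unop) hXUV.1 hXUV.2 M (r • x0) =
          r • emT (t := X.unop) hXUV.1 hXUV.2 M x0 := map_smul _ _ _
        rw [h1]
        exact (map_smul (f.app X).hom _ _).symm
      · intro x0 x1 h0 h1
        rw [map_add, map_add, h0, h1]
        have h1 : emT (t := X.unop) hXUV.1 hXUV.2 M (x0 + x1) =
          emT (t := X.unop) hXUV.1 hXUV.2 M x0 + emT (t := X.unop) hXUV.1 hXUV.2 M x1 :=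
          map_add _ _ _
        rw [h1]
        exact (map_add (f.app X).hom _ _).symm
    rw [key, ← hp]
  · have h0 := hzero X p hX
    have hp : p = 0 := Subtype.ext (Subtype.ext h0)
    rw [h0, hp, map_zero, map_zero]
    exact (map_zero (f.app X).hom).symm

end Pool.CRD.Tra
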