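import Pool.Agent.CRD.T.Stmts

/-!
# CRD, area D3, module REP: morphisms out of a K-projective resolution as cocycles
-/

open CategoryTheory Opposite Limits Pretriangulated CochainComplex HomComplex

namespace Pool.CRD.Tra

namespace REP_

variable {A : Type 1} [Category.{0} A] [Abelian A] [HasDerivedCategory.{1} A]

lemma qmap {X Y : CochainComplex A ℤ} (f : X ⟶ Y) :
    DerivedCategory.Q.map f = (DerivedCategory.quotientCompQhIso A).inv.app X ≫
      DerivedCategory.Qh.map ((HomotopyCategory.quotient A _).map f) ≫
        (DerivedCategory.quotientCompQhIso A).hom.app Y := by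
  have h := (DerivedCategory.quotientCompQhIso A).hom.naturality f
  rw [Functor.comp_map] at h
  rw [h, Iso.inv_hom_id_app_assoc]

end REP_

open REP_ in
theorem rep_proof : Stmt_REP := by
  intro A _ _ _ P N N' π _ _
  constructor
  · intro e
    obtain ⟨g, hg⟩ := (CochainComplex.IsKProjective.Qh_map_bijective P
      ((HomotopyCategory.quotient A _).obj (N'⟦(2 : ℤ)⟧))).surjective
      ((DerivedCategory.quotientCompQhIso A).hom.app P ≫
        (DerivedCategory.Q.map π ≫ e ≫ (DerivedCategory.Q.commShiftIso (2 : ℤ)).inv.app N') ≫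
        (DerivedCategory.quotientCompQhIso A).inv.app (N'⟦(2 : ℤ)⟧))
    obtain ⟨y, rfl⟩ := (CohomologyClass.toHom_bijective P N' 2).surjective g
    obtain ⟨z, rfl⟩ := y.mk_surjective
    refine ⟨z, ?_⟩
    rw [CohomologyClass.toHom_mk] at hg
    unfold cl
    have h1 : DerivedCategory.Q.map (Cocycle.equivHomShift.symm z) =
        DerivedCategory.Q.map π ≫ e ≫ (DerivedCategory.Q.commShiftIso (2 : ℤ)).inv.app N' := by
      rw [qmap (Cocycle.equivHomShift.symm z), hg]
      simp
    rw [h1]
    simp
  · intro z hz
    have h1 : DerivedCategory.Q.map (Cocycle.equivHomShift.symm z) = 0 := by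
      unfold cl at hz
      rw [← cancel_mono ((DerivedCategory.Q.commShiftIso (2 : ℤ)).hom.app N'), hz, zero_comp]
    have h2 : DerivedCategory.Qh.map ((HomotopyCategory.quotient A _).map
        (Cocycle.equivHomShift.symm z)) = 0 := by
      rw [qmap] at h1
      rw [← cancel_epi ((DerivedCategory.quotientCompQhIso A).inv.app P),
        ← cancel_mono ((DerivedCategory.quotientCompQhIso A).hom.app (N'⟦(2 : ℤ)⟧)),
        Category.assoc, h1, comp_zero, zero_comp]
    have h3 : (HomotopyCategory.quotient A _).map (Cocycle.equivHomShift.symm z) = 0 := by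
      apply (CochainComplex.IsKProjective.Qh_map_bijective P _).injective
      rw [h2, Functor.map_zero]
    have h4 : CohomologyClass.toHom (CohomologyClass.mk z) = 0 := by
      rw [CohomologyClass.toHom_mk]; exact h3
    rw [CohomologyClass.toHom_mk_eq_zero_iff, mem_coboundaries_iff z 1 (by norm_num)] at h4
    exact h4

end Pool.CRD.Tra
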