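import Pool.Agent.CRD.T.Stmts

/-!
# CRD, area D3: the rank over a domain is the dimension over its fraction field
-/

open CategoryTheory Opposite Limits Pretriangulated CochainComplex HomComplex

open scoped TensorProduct

namespace Pool.CRD.Tra

theorem rkf_proof : Stmt_RKF := by
  intro A F _ _ iA hF M _ _ _
  have hA : (algebraMap A F).toAlgebra = iA := by
    apply Algebra.algebra_ext
    intro r
    rfl
  have hF' : @IsFractionRing A _ F _ (algebraMap A F).toAlgebra := by
    rw [hA]
    exact hF
  generalize algebraMap A F = e at hF'
  clear hA hF iA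
  unfold rkE
  let _ : Algebra A F := e.toAlgebra
  have _ : IsFractionRing A F := hF'
  have hloc : IsLocalizedModule (nonZeroDivisors A) (TensorProduct.mk A F M 1) :=
    (isLocalizedModule_iff_isBaseChange (nonZeroDivisors A) F _).mpr
      (TensorProduct.isBaseChange A M F)
  have h1 := IsLocalization.finrank_eq F (nonZeroDivisors A) le_rfl (N := F ⊗[A] M)
  have h2 := IsLocalizedModule.finrank_eq (nonZeroDivisors A) (TensorProduct.mk A F M 1) le_rfl
  exact h1.trans h2

end Pool.CRD.Tra
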