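import Pool.Agent.CRD.T.Stmts

/-!
# CRD, area D3: the rank of a bounded complex
-/

open CategoryTheory Opposite Limits Pretriangulated CochainComplex HomComplex

open scoped TensorProduct

namespace Pool.CRD.Tra

namespace RKV_

/-- linear algebra over a domain -/
theorem rank_alg (A Z X X' Z' H : Type) [CommRing A] [IsDomain A] [AddCommGroup Z] [Module A Z]
    [AddCommGroup X] [Module A X] [AddCommGroup X'] [Module A X'] [AddCommGroup Z'] [Module A Z']
    [AddCommGroup H] [Module A H] [Module.Finite A X] [Module.Finite A Z']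
    (i : Z →ₗ[A] X) (d : X →ₗ[A] X') (c : X →ₗ[A] Z') (i' : Z' →ₗ[A] X') (p : Z' →ₗ[A] H)
    (hi : Function.Injective i) (hi' : Function.Injective i') (h1 : Function.Exact i d)
    (h2 : Function.Exact c p) (hp : Function.Surjective p) (hc : ∀ x, i' (c x) = d x) :
    Module.finrank A X = Module.finrank A Z + Module.finrank A (LinearMap.range d) ∧
    Module.finrank A Z' = Module.finrank A (LinearMap.range d) + Module.finrank A H := by
  have e1 : Module.finrank A Z = Module.finrank A (LinearMap.ker d) := by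
    rw [h1.linearMap_ker_eq]
    exact (LinearEquiv.ofInjective i hi).finrank_eq
  have e2 : Module.finrank A H = Module.finrank A (LinearMap.range p) := by
    rw [LinearMap.range_eq_top.mpr hp]
    exact (LinearEquiv.finrank_eq Submodule.topEquiv).symm
  have e3 : Module.finrank A (LinearMap.ker p) = Module.finrank A (LinearMap.range d) := by
    rw [h2.linearMap_ker_eq]
    have h3 : (LinearMap.range c).map i' = LinearMap.range d := by
      have h4 : i' ∘ₗ c = d := LinearMap.ext hc
      rw [← h4, LinearMap.range_comp]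
    rw [← h3]
    exact (Submodule.equivMapOfInjective i' hi' (LinearMap.range c)).finrank_eq
  have e4 := Submodule.finrank_quotient_add_finrank (LinearMap.ker d)
  have e5 := Submodule.finrank_quotient_add_finrank (LinearMap.ker p)
  rw [d.quotKerEquivRange.finrank_eq] at e4
  rw [p.quotKerEquivRange.finrank_eq] at e5
  constructor
  · omega
  · omega

section
variable {K : Type} [Field K] {C : Type} [Preorder C] {R : PAlg K C} [R.Good]

/-- rank of the sections at `t` -/
noncomputable def rho (t : C) (F : Coh R) : ℤ := (Module.finrank (R.ring t) (sec F.obj t) : ℤ)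

omit [R.Good] in
theorem rho_iso (t : C) {F G : Coh R} (e : F ≅ G) : rho t F = rho t G := by
  unfold rho
  congr 1
  let f : sec F.obj t →ₗ[R.ring t] sec G.obj t := (e.hom.hom.app (op t)).hom
  let g : sec G.obj t →ₗ[R.ring t] sec F.obj t := (e.inv.hom.app (op t)).hom
  have h1 : e.hom.hom ≫ e.inv.hom = 𝟙 F.obj := by
    have := congrArg (fun u => u.hom) e.hom_inv_id
    exact this
  have h2 : e.inv.hom ≫ e.hom.hom = 𝟙 G.obj := by
    have := congrArg (fun u => u.hom) e.inv_hom_id
    exact this
  have hfg : ∀ x, g (f x) = x := fun x => congr(($h1).app (op t) x)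
  have hgf : ∀ x, f (g x) = x := fun x => congr(($h2).app (op t) x)
  exact (LinearEquiv.ofLinearMap f g (LinearMap.ext hgf) (LinearMap.ext hfg)).finrank_eq

theorem step (t : C) [IsDomain (R.ring t)] (V : CochainComplex (Coh R) ℤ) (n : ℤ) :
    ∃ r : ℕ, rho t (V.X n) = rho t (V.cycles n) + r ∧
      rho t (V.cycles (n + 1)) = r + rho t (V.homology (n + 1)) := by
  have hn : (ComplexShape.up ℤ).next n = n + 1 := by simp
  have hp : (ComplexShape.up ℤ).prev (n + 1) = n := by simp
  let S1 : ShortComplex (Coh R) := ShortComplex.mk (V.iCycles n) (V.d n (n + 1)) (V.iCycles_d n (n + 1))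
  have hS1 : S1.Exact := ShortComplex.exact_of_f_is_kernel S1 (V.cyclesIsKernel n (n + 1) hn)
  let S2 : ShortComplex (Coh R) := ShortComplex.mk (V.toCycles n (n + 1)) (V.homologyπ (n + 1))
    (V.toCycles_comp_homologyπ n (n + 1))
  have hS2 : S2.Exact := ShortComplex.exact_of_g_is_cokernel S2
    (V.homologyIsCokernel n (n + 1) hp)
  have hi := (coh_mono_iff (V.iCycles n)).1 inferInstance (op t)
  have hi' := (coh_mono_iff (V.iCycles (n + 1))).1 inferInstance (op t)
  have hpi := (coh_epi_iff (V.homologyπ (n + 1))).1 inferInstance (op t)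
  have h1 := (coh_exact_iff S1).1 hS1 (op t)
  have h2 := (coh_exact_iff S2).1 hS2 (op t)
  let i : sec (V.cycles n).obj t →ₗ[R.ring t] sec (V.X n).obj t :=
    ((V.iCycles n).hom.app (op t)).hom
  let i' : sec (V.cycles (n + 1)).obj t →ₗ[R.ring t] sec (V.X (n + 1)).obj t :=
    ((V.iCycles (n + 1)).hom.app (op t)).hom
  let d : sec (V.X n).obj t →ₗ[R.ring t] sec (V.X (n + 1)).obj t :=
    ((V.d n (n + 1)).hom.app (op t)).hom
  let c : sec (V.X n).obj t →ₗ[R.ring t] sec (V.cycles (n + 1)).obj t :=
    ((V.toCycles n (n + 1)).hom.app (op t)).hom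
  let p : sec (V.cycles (n + 1)).obj t →ₗ[R.ring t] sec (V.homology (n + 1)).obj t :=
    ((V.homologyπ (n + 1)).hom.app (op t)).hom
  have hf1 : Module.Finite (R.ring t) (sec (V.X n).obj t) := (V.X n).property.1 (op t)
  have hf2 : Module.Finite (R.ring t) (sec (V.cycles (n + 1)).obj t) :=
    (V.cycles (n + 1)).property.1 (op t)
  have hcd : ∀ x, i' (c x) = d x := by
    intro x
    have h3 : (V.toCycles n (n + 1)).hom ≫ (V.iCycles (n + 1)).hom = (V.d n (n + 1)).hom := by
      have := congrArg (fun u => u.hom) (V.toCycles_i n (n + 1))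
      exact this
    exact congr(($h3).app (op t) x)
  obtain ⟨e1, e2⟩ := rank_alg (R.ring t) _ _ _ _ _ i d c i' p hi hi' h1 h2 hpi hcd
  refine ⟨Module.finrank (R.ring t) (LinearMap.range d), ?_, ?_⟩
  · unfold rho
    rw [e1]
    push_cast
    rfl
  · unfold rho
    rw [e2]
    push_cast
    rfl

theorem rho_zero (t : C) [IsDomain (R.ring t)] {F : Coh R} (hF : IsZero F) : rho t F = 0 := by
  unfold rho
  have h1 : IsZero F.obj := (IsCoh R).ι.map_isZero hF
  have h2 : IsZero ((ev R (op t)).obj F.obj) := (ev R (op t)).map_isZero h1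
  have h3 : Subsingleton (sec F.obj t) := ModuleCat.subsingleton_of_isZero h2
  rw [Module.finrank_zero_of_subsingleton]
  rfl

/-- Euler characteristics of a bounded complex and of its cohomology -/
theorem euler (t : C) [IsDomain (R.ring t)] (V : CochainComplex (Coh R) ℤ) (a b : ℤ)
    (ha : V.IsStrictlyGE a) (hb : V.IsStrictlyLE b) :
    ∑ᶠ n : ℤ, (n.negOnePow : ℤ) * rho t (V.homology n) =
      ∑ᶠ n : ℤ, (n.negOnePow : ℤ) * rho t (V.X n) := by
  choose r hr1 hr2 using step t V
  have hnn : ∀ F : Coh R, 0 ≤ rho t F := fun F => Int.natCast_nonneg _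
  have hX : ∀ n : ℤ, n < a ∨ b < n → rho t (V.X n) = 0 := by
    intro n hn
    apply rho_zero
    rcases hn with hn | hn
    · exact V.isZero_of_isStrictlyGE a n hn
    · exact V.isZero_of_isStrictlyLE b n hn
  have hz : ∀ n : ℤ, n < a ∨ b < n → rho t (V.cycles n) = 0 ∧ (r n : ℤ) = 0 := by
    intro n hn
    have h1 := hX n hn
    have h2 := hr1 n
    have h3 := hnn (V.cycles n)
    omega
  have hfin : ∀ f : ℤ → ℤ, (∀ n, n < a ∨ b < n → f n = 0) → (Function.support f).Finite := by
    intro f hf
    refine (Set.finite_Icc a b).subset fun n hn => ?_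
    by_contra hcon
    apply hn
    apply hf
    rw [Set.mem_Icc, not_and_or, not_le, not_le] at hcon
    exact hcon
  let f : ℤ → ℤ := fun n => (n.negOnePow : ℤ) * rho t (V.cycles n)
  let g : ℤ → ℤ := fun n => (n.negOnePow : ℤ) * (r n : ℤ)
  have hf : (Function.support f).Finite := hfin f (fun n hn => by
    change (n.negOnePow : ℤ) * rho t (V.cycles n) = 0
    rw [(hz n hn).1, mul_zero])
  have hg : (Function.support g).Finite := hfin g (fun n hn => by
    change (n.negOnePow : ℤ) * (r n : ℤ) = 0
    rw [(hz n hn).2, mul_zero])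
  have hsum1 : ∑ᶠ n : ℤ, (n.negOnePow : ℤ) * rho t (V.X n) = ∑ᶠ n, f n + ∑ᶠ n, g n := by
    rw [← finsum_add_distrib hf hg]
    apply finsum_congr
    intro n
    change _ = (n.negOnePow : ℤ) * rho t (V.cycles n) + (n.negOnePow : ℤ) * (r n : ℤ)
    rw [hr1 n]
    ring
  have hg' : (Function.support (fun n => g (n - 1))).Finite := by
    have : (fun n => g (n - 1)) = g ∘ (Equiv.subRight (1 : ℤ)) := rfl
    rw [this, Function.support_comp_eq_preimage]
    exact hg.preimage (Equiv.injective _).injOn
  have hsum2 : ∑ᶠ n : ℤ, (n.negOnePow : ℤ) * rho t (V.homology n) = ∑ᶠ n, f n + ∑ᶠ n, g n := by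
    have h1 : ∑ᶠ n, g n = ∑ᶠ n, g (n - 1) :=
      (finsum_comp_equiv (Equiv.subRight (1 : ℤ)) (f := g)).symm
    rw [h1, ← finsum_add_distrib hf hg']
    apply finsum_congr
    intro n
    have h2 := hr2 (n - 1)
    rw [sub_add_cancel] at h2
    have h3 : ((n - 1).negOnePow : ℤ) = - (n.negOnePow : ℤ) := by
      have h4 := Int.negOnePow_succ (n - 1)
      rw [sub_add_cancel] at h4
      rw [h4]
      push_cast
      ring
    change _ = (n.negOnePow : ℤ) * rho t (V.cycles n) + ((n - 1).negOnePow : ℤ) * (r (n - 1) : ℤ)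
    rw [h2, h3]
    ring
  rw [hsum1, hsum2]

end

end RKV_

open RKV_ in
theorem rkv_proof : Stmt_RKV := by
  intro K _ C _ R _ t hdom M V hV hM
  obtain ⟨a, b, ha, hb⟩ := hV
  obtain ⟨α⟩ := hM
  have key := euler t V a b ha hb
  have h1 : rkD R t M = ∑ᶠ n : ℤ, (n.negOnePow : ℤ) * rho t (V.homology n) := by
    unfold rkD
    apply finsum_congr
    intro n
    congr 1
    have e : (DerivedCategory.homologyFunctor (Coh R) n).obj M.obj ≅ V.homology n :=
      (DerivedCategory.homologyFunctor (Coh R) n).mapIso α ≪≫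
        (DerivedCategory.homologyFunctorFactors (Coh R) n).app V
    exact rho_iso t e
  rw [h1, key]
  rfl

end Pool.CRD.Tra
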