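import Pool.Agent.CRD.T.Stmts

/-!
# CRD, area D3, ROF: morphisms of `D^b(Coh R)` as fractions of morphisms of complexes of vector
bundles
-/

open CategoryTheory Opposite Limits Pretriangulated CochainComplex HomComplex

open scoped TensorProduct

namespace Pool.CRD.Tra

theorem rof_proof (hVBR : Pool.CRD.Stmt_VBR) : Stmt_ROF := by
  intro K _ C _ R _ r hE V W hV hW f
  obtain ⟨⟨a₁, b₁, hV1, hV2⟩, -⟩ := hV
  obtain ⟨⟨a₂, b₂, hW1, hW2⟩, -⟩ := hW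
  have h1 : V.IsStrictlyGE (min a₁ a₂) := V.isStrictlyGE_of_ge _ a₁ (min_le_left _ _)
  have h2 : W.IsStrictlyGE (min a₁ a₂) := W.isStrictlyGE_of_ge _ a₂ (min_le_right _ _)
  obtain ⟨X', hX1, hX2, s₀, hs₀, g₀, hf⟩ :=
    DerivedCategory.right_fac_of_isStrictlyLE_of_isStrictlyGE (min a₁ a₂) b₁ f
  obtain ⟨V', q, a', hq1, hq2, hq3, hq4, -⟩ := hVBR K C R r hE.1 hE.2 X' (min a₁ a₂) b₁ hX1 hX2
  have hq : IsIso (DerivedCategory.Q.map q) := by
    rw [DerivedCategory.isIso_Q_map_iff_quasiIso]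
    exact hq4
  refine ⟨V', q ≫ s₀, q ≫ g₀, ⟨⟨a', b₁, hq1, hq2⟩, hq3⟩, ?_, ?_⟩
  · rw [Functor.map_comp]
    infer_instance
  · rw [hf, Functor.map_comp, Functor.map_comp, Category.assoc, IsIso.hom_inv_id_assoc]

end Pool.CRD.Tra
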