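import Pool.Agent.CRD.T.Stmts

/-!
# CRD, area D3, module STB: the functional vanishes on coboundaries
-/

open CategoryTheory Opposite Limits Pretriangulated CochainComplex HomComplex

namespace Pool.CRD.Tra

namespace STB_

lemma finsum_telescope {K : Type} [Field K] (c : ℤ → K) (a b : ℤ)
    (hc : ∀ n, n < a ∨ b < n → c n = 0) :
    ∑ᶠ n : ℤ, ((n.negOnePow : ℤ) : K) * (c n + c (n + 1)) = 0 := by
  set f : ℤ → K := fun n => ((n.negOnePow : ℤ) : K) * c n with hf
  have hs : (Function.support f).Finite := by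
    refine (Set.finite_Icc a b).subset fun n hn => ?_
    by_contra h
    apply hn
    have h' : n < a ∨ b < n := by
      by_contra h2
      apply h
      rw [not_or, not_lt, not_lt] at h2
      exact ⟨h2.1, h2.2⟩
    rw [hf]
    show ((n.negOnePow : ℤ) : K) * c n = 0
    rw [hc n h', mul_zero]
  have hs' : (Function.support fun n => f (n + 1)).Finite := by
    have : (Function.support fun n => f (n + 1)) = (fun n => n + 1) ⁻¹' (Function.support f) := rfl
    rw [this]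
    exact hs.preimage (fun x _ y _ h => by simpa using h)
  have h1 : ∀ n : ℤ, ((n.negOnePow : ℤ) : K) * (c n + c (n + 1)) = f n - f (n + 1) := by
    intro n
    rw [hf]
    show _ = ((n.negOnePow : ℤ) : K) * c n - (((n + 1).negOnePow : ℤ) : K) * c (n + 1)
    rw [Int.negOnePow_succ]
    push_cast
    ring
  rw [finsum_congr h1, finsum_sub_distrib hs hs']
  have h2 : ∑ᶠ n : ℤ, f (n + 1) = ∑ᶠ n : ℤ, f n :=
    finsum_comp_equiv (Equiv.addRight (1 : ℤ)) (f := f)
  rw [h2, sub_self]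

end STB_

open STB_ in
theorem stb_proof (hJDL : Stmt_JDL) : Stmt_STB := by
  intro K _ C _ R w₁ w₂ t Q θ N hN H
  obtain ⟨h, k₁, k₂, k₃, k₄, hH⟩ := hJDL K C R w₁ w₂ N N H
  obtain ⟨⟨a, b, ha, hb⟩, hQ⟩ := hN
  -- the summands
  set cc : ∀ m p : ℤ, p + (-1) = m → K := fun m p hmp =>
    θ.th (N.X p) (atT θ.h₁ θ.h₂ (h.v p m hmp ≫ N.d m p)) with hcc
  set c : ℤ → K := fun p => cc (p - 1) p rfl with hc
  have hc0 : ∀ n, n < a ∨ b < n → c n = 0 := by
    intro n hn
    have hz : IsZero (N.X n) := by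
      rcases hn with hn | hn
      · exact N.isZero_of_isStrictlyGE a n hn
      · exact N.isZero_of_isStrictlyLE b n hn
    have := subsingleton_of_isZero hz (op t)
    have : atT θ.h₁ θ.h₂ (h.v n (n - 1) rfl ≫ N.d (n - 1) n) = 0 := by
      ext x
      exact Subsingleton.elim _ _
    show θ.th (N.X n) (atT θ.h₁ θ.h₂ (h.v n (n - 1) rfl ≫ N.d (n - 1) n)) = 0
    rw [this, map_zero]
  have hterm : ∀ n : ℤ, θ.th (N.X n) (atT θ.h₁ θ.h₂ ((top w₁ w₂ (δ 1 2 H)).v n n (add_zero n))) =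
      c n + c (n + 1) := by
    intro n
    rw [hH]
    have hadd : ∀ u u' : (tt w₁.ab w₂.ab N).X n ⟶ N.X n,
        atT θ.h₁ θ.h₂ (u + u') = atT θ.h₁ θ.h₂ u + atT θ.h₁ θ.h₂ u' := fun _ _ => rfl
    have e1 : atT θ.h₁ θ.h₂ ((δ (-1) 0 h).v n n (add_zero n)) =
        atT θ.h₁ θ.h₂ (h.v n (n - 1) rfl ≫ N.d (n - 1) n) +
          (atT θ.h₁ θ.h₂ (h.v (n + 1) n (by omega))).comp ((N.d n (n + 1)).app (op t)).hom := by
      rw [δ_v (-1) 0 (by norm_num) h n n (add_zero n) (n - 1) (n + 1) rfl rfl]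
      rw [Int.negOnePow_zero, one_smul]
      rfl
    have e2 : atT θ.h₁ θ.h₂ (((Cochain.ofHom ((trC R w₁.ab).map (trCLE R w₂.ab_a N))).comp k₁
        (zero_add 0)).v n n (add_zero n)) =
          atT θ.h₁ (w₂.ab_a θ.h₂) (k₁.v n n (add_zero n)) := by
      rw [Cochain.zero_cochain_comp_v, Cochain.ofHom_v]
      rfl
    have e3 : atT θ.h₁ θ.h₂ (((Cochain.ofHom ((trC R w₁.ab).map (trCLE R w₂.ab_b N))).comp k₂
        (zero_add 0)).v n n (add_zero n)) =
          atT θ.h₁ (w₂.ab_b θ.h₂) (k₂.v n n (add_zero n)) := by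
      rw [Cochain.zero_cochain_comp_v, Cochain.ofHom_v]
      rfl
    have e4 : atT θ.h₁ θ.h₂ (((Cochain.ofHom (trCLE R w₁.ab_a ((trC R w₂.ab).obj N))).comp k₃
        (zero_add 0)).v n n (add_zero n)) =
          atT (w₁.ab_a θ.h₁) θ.h₂ (k₃.v n n (add_zero n)) := by
      rw [Cochain.zero_cochain_comp_v, Cochain.ofHom_v]
      rfl
    have e5 : atT θ.h₁ θ.h₂ (((Cochain.ofHom (trCLE R w₁.ab_b ((trC R w₂.ab).obj N))).comp k₄
        (zero_add 0)).v n n (add_zero n)) =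
          atT (w₁.ab_b θ.h₁) θ.h₂ (k₄.v n n (add_zero n)) := by
      rw [Cochain.zero_cochain_comp_v, Cochain.ofHom_v]
      rfl
    rw [Cochain.add_v, Cochain.add_v, Cochain.add_v, Cochain.add_v, hadd, hadd, hadd, hadd,
      e1, e2, e3, e4, e5, map_add, map_add, map_add, map_add, map_add]
    rw [θ.van₂a _ (hQ n), θ.van₂b _ (hQ n), θ.van₁a _ (hQ n), θ.van₁b _ (hQ n)]
    rw [add_zero, add_zero, add_zero, add_zero]
    rw [θ.cyc _ _ (hQ n) (hQ (n + 1))]
    have e6 : c (n + 1) = cc n (n + 1) (by omega) := by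
      have : ∀ m (hm : m = n) (h' : n + 1 + (-1) = m), cc m (n + 1) h' =
          cc n (n + 1) (by omega) := by
        rintro m rfl h'
        rfl
      exact this (n + 1 - 1) (by omega) rfl
    rw [e6]
    rfl
  show ∑ᶠ n : ℤ, ((n.negOnePow : ℤ) : K) *
    θ.th (N.X n) (atT θ.h₁ θ.h₂ ((top w₁ w₂ (δ 1 2 H)).v n n (add_zero n))) = 0
  rw [finsum_congr fun n => by rw [hterm n]]
  exact finsum_telescope c a b hc0

end Pool.CRD.Tra
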