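import Pool.Agent.CRD.T.Stmts

/-!
# CRD, area D3: existence of the functional on `Hom(N, N[2])`
-/

open CategoryTheory Opposite Limits Pretriangulated CochainComplex HomComplex

open scoped TensorProduct

namespace Pool.CRD.Tra

theorem tau_proof (hMVE : Stmt_MVE) (hKPB : Stmt_KPB) (hREP : Stmt_REP) (hCLA : Stmt_CLA)
    (hSTB : Stmt_STB) (hVLN : Stmt_VLN) : Stmt_TAU := by
  intro K _ C _ R w₁ w₂ t θ hPr N hN
  obtain ⟨-, hMVE2, -⟩ := hMVE K C R
  have hproj := hKPB K C R w₁ w₂ hPr N hN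
  have hiso : IsIso (DerivedCategory.Q.map (PPπ w₁ w₂ N)) := (hMVE2 w₁ w₂ N).2
  obtain ⟨hex, hvan⟩ := hREP (PMod R) (PP w₁ w₂ N) N N (PPπ w₁ w₂ N)
  obtain ⟨hadd, hsmul, -, -⟩ := hCLA K (PMod R) (PP w₁ w₂ N) N
  obtain ⟨hvadd, hvsmul⟩ := hVLN K C R w₁ w₂ t (IsVB R) θ N hN
  -- independence of the representative
  have hindep : ∀ z z' : Cocycle (PP w₁ w₂ N) N 2, cl z = cl z' →
      θ.val (z : Cochain (PP w₁ w₂ N) N 2) = θ.val (z' : Cochain (PP w₁ w₂ N) N 2) := by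
    intro z z' h
    have h1 : cl (z + (-1 : K) • z') = 0 := by
      rw [hadd, hsmul, h, neg_one_smul, add_neg_cancel]
    obtain ⟨H, hH⟩ := hvan _ h1
    have h2 := hSTB K C R w₁ w₂ t (IsVB R) θ N hN H
    rw [hH] at h2
    have h3 : ((z + (-1 : K) • z' : Cocycle (PP w₁ w₂ N) N 2) : Cochain (PP w₁ w₂ N) N 2) =
        (z : Cochain (PP w₁ w₂ N) N 2) + (-1 : K) • (z' : Cochain (PP w₁ w₂ N) N 2) := rfl
    rw [h3, hvadd, hvsmul] at h2
    linear_combination h2
  choose zz hzz using hex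
  let τ : (DerivedCategory.Q.obj N ⟶ (DerivedCategory.Q.obj N)⟦(2 : ℤ)⟧) →ₗ[K] K :=
    { toFun := fun e => θ.val (zz e : Cochain (PP w₁ w₂ N) N 2)
      map_add' := by
        intro e e'
        have h1 : cl (zz (e + e')) = cl (zz e + zz e') := by
          rw [hadd, ← hzz, ← hzz, ← hzz, Preadditive.comp_add]
        rw [hindep _ _ h1]
        exact hvadd _ _
      map_smul' := by
        intro k e
        have h1 : cl (zz (k • e)) = cl (k • zz e) := by
          rw [hsmul, ← hzz, ← hzz, Linear.comp_smul]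
        rw [hindep _ _ h1]
        exact hvsmul _ _ }
  refine ⟨τ, ?_⟩
  intro e z hz
  have h1 : cl (zz e) = cl z := (hzz e).symm.trans hz
  exact hindep _ _ h1

end Pool.CRD.Tra
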