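import Pool.Agent.CRD.T.Stmts

/-!
# CRD, area D3, module THT: the functionals `λ (trace)`
-/

open CategoryTheory Opposite Limits Pretriangulated CochainComplex HomComplex

namespace Pool.CRD.Tra

namespace THT_

variable {K : Type} [Field K] {C : Type} [Preorder C] {R : PAlg K C} {F : Type} [Field F]
  [Algebra K F]

/-- the trace of `atT u` comes from a chart in `U ∩ V` -/
lemma van (hTRP : Stmt_TRP) {U V : LowerSet C} {t v : C} (htU : t ∈ U) (htV : t ∈ V)
    (hv : t ≤ v) (hvU : v ∈ U) (hvV : v ∈ V) (e : R.ring t →ₐ[K] F)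
    (M : PMod R) (hM : IsVB R M) (u : (tr R U).obj ((tr R V).obj M) ⟶ M) :
    ∃ r : R.ring v, trT e.toRingHom M (atT htU htV u) = e ((R.map (homOfLE hv).op).hom r) := by
  let X : Cᵒᵖ := op v
  let Y : Cᵒᵖ := op t
  let f : X ⟶ Y := (homOfLE hv).op
  letI : Algebra (R.obj X) (R.obj Y) := (R.map f).hom.toRingHom.toAlgebra
  letI : Module (R.obj X) (M.obj X) := inferInstanceAs (Module (R.toRing.obj X) (M.obj X))
  letI : Module (R.obj Y) (M.obj Y) := inferInstanceAs (Module (R.toRing.obj Y) (M.obj Y))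
  letI : Module (R.obj X) (M.obj Y) := Module.compHom (M.obj Y) (R.map f).hom.toRingHom
  haveI : IsScalarTower (R.obj X) (R.obj Y) (M.obj Y) :=
    ⟨fun a b c => by rw [Algebra.smul_def, mul_smul]; rfl⟩
  haveI : Module.Finite (R.obj X) (M.obj X) := hM.1.1 X
  haveI : Module.Projective (R.obj X) (M.obj X) := hM.2 X
  obtain ⟨a, ha⟩ := hTRP (R.obj X) (R.obj Y) F e.toRingHom (M.obj X) (M.obj Y)
    ({ toFun := fun x => M.map f x
       map_add' := fun x y => map_add (M.map f).hom x y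
       map_smul' := fun r x => M.map_smul f r x } : M.obj X →ₗ[R.obj X] M.obj Y)
    (hM.1.2 f) (atT hvU hvV u) (atT htU htV u) (by
      intro x
      exact PresheafOfModules.naturality_apply u f (emT hvU hvV M x))
  exact ⟨a, ha⟩

end THT_

open THT_ in
theorem tht_proof (hTRA : Stmt_TRA) (hTRP : Stmt_TRP) : Stmt_THT := by
  intro K _ C _ R F _ _ w₁ w₂ t h₁ h₂ e l hl
  have hfin : ∀ M : PMod R, IsVB R M → Module.Finite (R.ring t) (sec M t) := fun M hM =>
    hM.1.1 (op t)
  have hvan : ∀ (U V : LowerSet C), ((U = w₁.ab ∧ (V = w₂.a ∨ V = w₂.b)) ∨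
      ((U = w₁.a ∨ U = w₁.b) ∧ V = w₂.ab)) → ∀ (htU : t ∈ U) (htV : t ∈ V) (M : PMod R),
      IsVB R M → ∀ u : (tr R U).obj ((tr R V).obj M) ⟶ M,
      l (trT e.toRingHom M (atT htU htV u)) = 0 := by
    intro U V hUV htU htV M hM u
    obtain ⟨v, hv, hvU, hvV, hr⟩ := hl U V hUV
    obtain ⟨r, hr'⟩ := van hTRP htU htV hv hvU hvV e M hM u
    rw [hr']
    exact hr r
  refine ⟨{
    h₁ := h₁
    h₂ := h₂
    th := fun M => AddMonoidHom.mk' (fun φ => l (trT e.toRingHom M φ)) (fun φ ψ => by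
      have := (hTRA (R.ring t) F e.toRingHom (sec M t)).1
        (show sec M t →ₗ[R.ring t] sec M t from φ) (show sec M t →ₗ[R.ring t] sec M t from ψ)
      show l (trT e.toRingHom M (φ + ψ)) = _
      rw [← map_add]
      exact congrArg l this)
    smul := ?_
    cyc := ?_
    van₂a := fun M hM u => hvan _ _ (Or.inl ⟨rfl, Or.inl rfl⟩) _ _ M hM u
    van₂b := fun M hM u => hvan _ _ (Or.inl ⟨rfl, Or.inr rfl⟩) _ _ M hM u
    van₁a := fun M hM u => hvan _ _ (Or.inr ⟨Or.inl rfl, rfl⟩) _ _ M hM u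
    van₁b := fun M hM u => hvan _ _ (Or.inr ⟨Or.inr rfl, rfl⟩) _ _ M hM u }, fun M φ => rfl⟩
  · intro M _ φ ψ k h
    show l (trT e.toRingHom M ψ) = k * l (trT e.toRingHom M φ)
    have h1 : (show sec M t →ₗ[R.ring t] sec M t from ψ) =
        (algebraMap K (R.ring t) k) • (show sec M t →ₗ[R.ring t] sec M t from φ) := by
      ext x
      exact h x
    have h2 : trT e.toRingHom M ψ = e (algebraMap K (R.ring t) k) * trT e.toRingHom M φ := by
      unfold trT
      rw [h1]
      exact (hTRA (R.ring t) F e.toRingHom (sec M t)).2.1 _ _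
    rw [h2, AlgHom.commutes, ← Algebra.smul_def, map_smul, smul_eq_mul]
  · intro M N hM hN φ ψ
    show l (trT e.toRingHom M (ψ.comp φ)) = l (trT e.toRingHom N (φ.comp ψ))
    have := (hTRA (R.ring t) F e.toRingHom (sec M t)).2.2.2 (hfin M hM) (sec N t) (hfin N hN)
      (show sec M t →ₗ[R.ring t] sec N t from φ) (show sec N t →ₗ[R.ring t] sec M t from ψ)
    exact congrArg l this

end Pool.CRD.Tra
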