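import Pool.Agent.CRD.T.Stmts

/-!
# CRD, area D3, module TRA: the trace after base change to a field
-/

set_option autoImplicit false

open CategoryTheory Opposite Limits Pretriangulated CochainComplex HomComplex
open scoped TensorProduct

namespace Pool.CRD.Tra

theorem tra_proof : Stmt_TRA := by
  intro A F _ _ e M _ _
  letI := e.toAlgebra
  refine ⟨fun φ ψ => ?_, fun a φ => ?_, fun hM => ?_, fun hM N _ _ hN φ ψ => ?_⟩
  · show LinearMap.trace F (F ⊗[A] M) ((φ + ψ).baseChange F) =
      LinearMap.trace F (F ⊗[A] M) (φ.baseChange F) + LinearMap.trace F (F ⊗[A] M) (ψ.baseChange F)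
    rw [LinearMap.baseChange_add, map_add]
  · show LinearMap.trace F (F ⊗[A] M) ((a • φ).baseChange F) =
      e a * LinearMap.trace F (F ⊗[A] M) (φ.baseChange F)
    have h1 : (a • φ).baseChange F = e a • φ.baseChange F := by
      rw [LinearMap.baseChange_smul]
      exact (algebraMap_smul F a (φ.baseChange F)).symm
    rw [h1, map_smul, smul_eq_mul]
  · show LinearMap.trace F (F ⊗[A] M) ((LinearMap.id : M →ₗ[A] M).baseChange F) =
      ((Module.finrank F (F ⊗[A] M) : ℕ) : F)
    rw [LinearMap.baseChange_id, LinearMap.trace_id]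
  · show LinearMap.trace F (F ⊗[A] M) ((ψ.comp φ).baseChange F) =
      LinearMap.trace F (F ⊗[A] N) ((φ.comp ψ).baseChange F)
    rw [LinearMap.baseChange_comp, LinearMap.baseChange_comp]
    exact LinearMap.trace_comp_comm' _ _

end Pool.CRD.Tra
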