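import Pool.Agent.CRD.T.Stmts

/-!
# CRD, area D3: traces of endomorphisms of projective modules
-/

open CategoryTheory Opposite Limits Pretriangulated CochainComplex HomComplex

open scoped TensorProduct

namespace Pool.CRD.Tra

namespace TRP_

/-- the trace of an endomorphism of a finitely generated projective module lies in the ring -/
theorem proj (A F : Type) [CommRing A] [Field F] [Algebra A F] (M₀ : Type) [AddCommGroup M₀]
    [Module A M₀] [Module.Finite A M₀] [Module.Projective A M₀] (φ₀ : M₀ →ₗ[A] M₀) :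
    ∃ a : A, LinearMap.trace F (F ⊗[A] M₀) (φ₀.baseChange F) = algebraMap A F a := by
  obtain ⟨n, s, i, -, -, hsi⟩ := Module.Finite.exists_comp_eq_id_of_projective A M₀
  refine ⟨LinearMap.trace A _ (i ∘ₗ (φ₀ ∘ₗ s)), ?_⟩
  rw [← LinearMap.trace_baseChange, LinearMap.baseChange_comp, LinearMap.trace_comp_comm',
    ← LinearMap.baseChange_comp, LinearMap.comp_assoc, hsi, LinearMap.comp_id]

end TRP_

theorem trp_proof : Stmt_TRP := by
  intro A B F _ _ _ _ e M₀ _ _ _ _ M _ _ _ _ ρ hρ φ₀ φ hφ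
  let _ : Algebra B F := e.toAlgebra
  let _ : Algebra A F := ((algebraMap B F).comp (algebraMap A B)).toAlgebra
  have _ : IsScalarTower A B F := IsScalarTower.of_algebraMap_eq (fun _ => rfl)
  obtain ⟨a, ha⟩ := TRP_.proj A F M₀ φ₀
  refine ⟨a, ?_⟩
  let E : F ⊗[A] M₀ ≃ₗ[F] F ⊗[B] M :=
    (TensorProduct.AlgebraTensorModule.cancelBaseChange A B F F M₀).symm ≪≫ₗ
      TensorProduct.AlgebraTensorModule.congr (LinearEquiv.refl F F) hρ.equiv
  have hE : ∀ (f : F) (m : M₀), E (f ⊗ₜ m) = f ⊗ₜ (ρ m) := by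
    intro f m
    change f ⊗ₜ (hρ.equiv (1 ⊗ₜ m)) = f ⊗ₜ (ρ m)
    rw [hρ.equiv_tmul, one_smul]
  have hcomm : ∀ t : F ⊗[A] M₀, (φ.baseChange F) (E t) = E (φ₀.baseChange F t) := by
    intro t
    induction t with
    | zero => simp
    | add x y hx hy => rw [map_add, map_add, hx, hy, map_add, map_add]
    | tmul f m =>
      rw [hE, LinearMap.baseChange_tmul, hφ, LinearMap.baseChange_tmul, hE]
  have hconj : E.conj (φ₀.baseChange F) = φ.baseChange F := by
    apply LinearMap.ext
    intro t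
    rw [LinearEquiv.conj_apply_apply, ← hcomm, E.apply_symm_apply]
  change LinearMap.trace F (F ⊗[B] M) (φ.baseChange F) = algebraMap A F a
  rw [← hconj, LinearMap.trace_conj', ha]

end Pool.CRD.Tra
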