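import Pool.Agent.CRD.T.Stmts

/-!
# CRD, area D3: the functional on cochains is linear
-/

open CategoryTheory Opposite Limits Pretriangulated CochainComplex HomComplex

open scoped TensorProduct

namespace Pool.CRD.Tra

namespace VLN_

variable {K : Type} [Field K] {C : Type} [Preorder C] {R : PAlg K C}

theorem th_zero {w₁ w₂ : Cov2 C} {t : C} {Q : ObjectProperty (PMod R)} (θ : Theta w₁ w₂ t Q)
    {M : PMod R} (hM : IsZero M)
    (φ : M.obj (op t) →ₗ[R.toRing.obj (op t)] M.obj (op t)) : θ.th M φ = 0 := by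
  have h2 : IsZero ((ev R (op t)).obj M) := (ev R (op t)).map_isZero hM
  have h3 : Subsingleton (M.obj (op t)) := ModuleCat.subsingleton_of_isZero h2
  have h4 : φ = 0 := by
    apply LinearMap.ext
    intro x
    exact Subsingleton.elim _ _
  rw [h4, map_zero]

theorem supp {w₁ w₂ : Cov2 C} {t : C} {Q : ObjectProperty (PMod R)} (θ : Theta w₁ w₂ t Q)
    {N : Cx R} (hN : BQ Q N)
    (u : ∀ n, (N.X n).obj (op t) →ₗ[R.toRing.obj (op t)] (N.X n).obj (op t)) :
    (Function.support (fun n : ℤ => ((n.negOnePow : ℤ) : K) * θ.th (N.X n) (u n))).Finite := by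
  obtain ⟨⟨a, b, ha, hb⟩, -⟩ := hN
  refine (Set.finite_Icc a b).subset fun n hn => ?_
  by_contra hcon
  apply hn
  rw [Set.mem_Icc, not_and_or, not_le, not_le] at hcon
  have hz : IsZero (N.X n) := by
    rcases hcon with h | h
    · exact N.isZero_of_isStrictlyGE a n h
    · exact N.isZero_of_isStrictlyLE b n h
  change ((n.negOnePow : ℤ) : K) * θ.th (N.X n) (u n) = 0
  rw [th_zero θ hz, mul_zero]

theorem atT_add {U V : LowerSet C} {t : C} (hU : t ∈ U) (hV : t ∈ V) {M M' : PMod R}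
    (u u' : (tr R U).obj ((tr R V).obj M) ⟶ M') : atT hU hV (u + u') = atT hU hV u + atT hU hV u' :=
  rfl

theorem atT_smul {U V : LowerSet C} {t : C} (hU : t ∈ U) (hV : t ∈ V) {M M' : PMod R}
    (k : K) (u : (tr R U).obj ((tr R V).obj M) ⟶ M') (x : M.obj (op t)) :
    atT hU hV (k • u) x = cst R (op t) k • atT hU hV u x :=
  rfl

end VLN_

open VLN_ in
theorem vln_proof : Stmt_VLN := by
  intro K _ C _ R w₁ w₂ t Q θ N hN
  constructor
  · intro z z'
    have h1 : top w₁ w₂ (z + z') = top w₁ w₂ z + top w₁ w₂ z' := by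
      unfold top
      exact Cochain.comp_add _ _ _ _
    unfold Theta.val Theta.str
    rw [← finsum_add_distrib (supp θ hN _) (supp θ hN _)]
    apply finsum_congr
    intro n
    rw [← mul_add]
    congr 1
    have h2 : atT θ.h₁ θ.h₂ ((top w₁ w₂ (z + z')).v n n (add_zero n)) =
        atT θ.h₁ θ.h₂ ((top w₁ w₂ z).v n n (add_zero n)) +
          atT θ.h₁ θ.h₂ ((top w₁ w₂ z').v n n (add_zero n)) := by
      rw [h1]
      rfl
    refine (congrArg (θ.th (N.X n)) h2).trans ?_
    exact map_add _ _ _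
  · intro k z
    have h1 : top w₁ w₂ (k • z) = k • top w₁ w₂ z := by
      unfold top
      exact Cochain.comp_smul _ _ _ _
    unfold Theta.val Theta.str
    rw [mul_finsum]
    apply finsum_congr
    intro n
    have h2 : ∀ x, atT θ.h₁ θ.h₂ ((top w₁ w₂ (k • z)).v n n (add_zero n)) x =
        cst R (op t) k • atT θ.h₁ θ.h₂ ((top w₁ w₂ z).v n n (add_zero n)) x := by
      intro x
      rw [h1]
      rfl
    have h3 := θ.smul (N.X n) (hN.2 n) (atT θ.h₁ θ.h₂ ((top w₁ w₂ z).v n n (add_zero n)))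
      (atT θ.h₁ θ.h₂ ((top w₁ w₂ (k • z)).v n n (add_zero n))) k h2
    refine (congrArg (fun y => ((n.negOnePow : ℤ) : K) * y) h3).trans ?_
    ring

end Pool.CRD.Tra
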