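import Pool.Agent.CRD.B.VBD
import Pool.Agent.CRD.B.VBR
import Pool.Agent.CRD.T.CCT
import Pool.Agent.CRD.T.CLA
import Pool.Agent.CRD.T.CYA
import Pool.Agent.CRD.T.CYC
import Pool.Agent.CRD.T.CYR
import Pool.Agent.CRD.T.CYS
import Pool.Agent.CRD.T.D3M
import Pool.Agent.CRD.T.EXS
import Pool.Agent.CRD.T.FN0
import Pool.Agent.CRD.T.FRS
import Pool.Agent.CRD.T.JDL
import Pool.Agent.CRD.T.KA1
import Pool.Agent.CRD.T.KA2
import Pool.Agent.CRD.T.KPB
import Pool.Agent.CRD.T.LAM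
import Pool.Agent.CRD.T.MVE
import Pool.Agent.CRD.T.PRJ
import Pool.Agent.CRD.T.REP
import Pool.Agent.CRD.T.RKF
import Pool.Agent.CRD.T.RKV
import Pool.Agent.CRD.T.ROF
import Pool.Agent.CRD.T.STB
import Pool.Agent.CRD.T.TAU
import Pool.Agent.CRD.T.THT
import Pool.Agent.CRD.T.TRA
import Pool.Agent.CRD.T.TRP
import Pool.Agent.CRD.T.VLN

/-!
# CRD, area D3 (trace on the surface): assembly
-/

open CategoryTheory Opposite Limits Pretriangulated CochainComplex HomComplex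

namespace Pool.CRD.Tra

theorem stb_all : Stmt_STB := stb_proof jdl_proof

theorem kpb_all : Stmt_KPB := kpb_proof prj_proof

theorem tht_all : Stmt_THT := tht_proof tra_proof trp_proof

theorem tau_all : Stmt_TAU := tau_proof mve_proof kpb_all rep_proof cla_proof stb_all vln_proof

theorem cyr_all : Stmt_CYR := cyr_proof mve_proof kpb_all rep_proof cla_proof cys_proof

theorem ka1_all : Stmt_KA1 := ka1_proof exs_proof mve_proof

theorem rof_all (hVBR : Pool.CRD.Stmt_VBR) : Stmt_ROF := rof_proof hVBR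

theorem cya_all (hVBR : Pool.CRD.Stmt_VBR) : Stmt_CYA :=
  cya_proof cyr_all (rof_all hVBR) tau_all

theorem cyc_all (hVBD : Pool.CRD.Stmt_VBD) (hVBR : Pool.CRD.Stmt_VBR) : Stmt_CYC :=
  cyc_proof hVBD tau_all (cya_all hVBR)

theorem fn0_all (hVBD : Pool.CRD.Stmt_VBD) (hVBR : Pool.CRD.Stmt_VBR) : Stmt_FN0 :=
  fn0_proof (cyc_all hVBD hVBR) tht_all lam_proof frs_proof rkf_proof rkv_proof tra_proof hVBD

/-- **the main theorem of area D3** -/
theorem d3m_all : Stmt_D3M :=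
  d3m_proof (fn0_all (Pool.CRD.vbd_proof Pool.CRD.vbr_proof) Pool.CRD.vbr_proof) cct_proof ka1_all
    ka2_proof

end Pool.CRD.Tra
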