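import Pool.Agent.CRD.T.Stmts

/-!
# CRD, area D3: a functional on the function field of the surface
-/

open CategoryTheory Opposite Limits Pretriangulated CochainComplex HomComplex

open scoped TensorProduct

namespace Pool.CRD.Tra

namespace LAM_

variable {K : Type} [Field K] {F₁ F₂ L : Type} [Field F₁] [Field F₂] [Field L] [Algebra K F₁]
  [Algebra K F₂] [Algebra K L]

/-- vanishing on the composite of two subalgebras -/
theorem van (e₁ : F₁ →ₐ[K] L) (e₂ : F₂ →ₐ[K] L) (U₁ : Subalgebra K F₁) (U₂ : Subalgebra K F₂)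
    (l : L →ₗ[K] K) (hl : ∀ f ∈ U₁, ∀ g ∈ U₂, l (e₁ f * e₂ g) = 0) :
    ∀ x ∈ U₁.map e₁ ⊔ U₂.map e₂, l x = 0 := by
  intro x hx
  have h1 : U₁.map e₁ = (e₁.comp U₁.val).range := by
    rw [AlgHom.range_comp, Subalgebra.range_val]
  have h2 : U₂.map e₂ = (e₂.comp U₂.val).range := by
    rw [AlgHom.range_comp, Subalgebra.range_val]
  rw [h1, h2, ← Algebra.TensorProduct.productMap_range] at hx
  obtain ⟨t, rfl⟩ := hx
  change l (Algebra.TensorProduct.productMap (e₁.comp U₁.val) (e₂.comp U₂.val) t) = 0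
  induction t with
  | zero => rw [map_zero, map_zero]
  | add x y hx hy => rw [map_add, map_add, hx, hy, add_zero]
  | tmul f g =>
    rw [Algebra.TensorProduct.productMap_apply_tmul]
    exact hl f f.2 g g.2

end LAM_

theorem lam_proof : Stmt_LAM := by
  intro K _ c₁ c₂ S β hβ₁ hβ₂
  let m : (c₁.A cab) ⊗[K] (c₂.A cab) →ₗ[K] S.L :=
    (Algebra.TensorProduct.productMap S.e₁ S.e₂).toLinearMap ∘ₗ
      TensorProduct.map (c₁.A cab).val.toLinearMap (c₂.A cab).val.toLinearMap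
  have hm : ∀ (f : c₁.A cab) (g : c₂.A cab), m (f ⊗ₜ g) = S.e₁ (f : c₁.F) * S.e₂ (g : c₂.F) := by
    intro f g
    change Algebra.TensorProduct.productMap S.e₁ S.e₂ ((f : c₁.F) ⊗ₜ (g : c₂.F)) = _
    rw [Algebra.TensorProduct.productMap_apply_tmul]
  have hinj : Function.Injective m := by
    refine S.inj.comp ?_
    exact TensorProduct.map_injective_of_flat_flat _ _ Subtype.val_injective
      Subtype.val_injective
  obtain ⟨r, hr⟩ := m.exists_leftInverse_of_injective (LinearMap.ker_eq_bot.mpr hinj)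
  let l : S.L →ₗ[K] K := (TensorProduct.lift β) ∘ₗ r
  have hl : ∀ (f : c₁.A cab) (g : c₂.A cab), l (S.e₁ (f : c₁.F) * S.e₂ (g : c₂.F)) = β f g := by
    intro f g
    rw [← hm]
    change TensorProduct.lift β (r (m (f ⊗ₜ g))) = β f g
    have h1 : r (m (f ⊗ₜ g)) = f ⊗ₜ g := LinearMap.congr_fun hr _
    rw [h1, TensorProduct.lift.tmul]
  have ha1 : c₁.A ca ≤ c₁.A cab := c₁.mono (Finset.subset_univ _)
  have hb1 : c₁.A cb ≤ c₁.A cab := c₁.mono (Finset.subset_univ _)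
  have ha2 : c₂.A ca ≤ c₂.A cab := c₂.mono (Finset.subset_univ _)
  have hb2 : c₂.A cb ≤ c₂.A cab := c₂.mono (Finset.subset_univ _)
  refine ⟨l, hl, ?_, ?_, ?_, ?_⟩
  · refine LAM_.van S.e₁ S.e₂ (c₁.A cab) (c₂.A ca) l ?_
    intro f hf g hg
    exact (hl ⟨f, hf⟩ ⟨g, ha2 hg⟩).trans (hβ₂ _ _ (Or.inl hg))
  · refine LAM_.van S.e₁ S.e₂ (c₁.A cab) (c₂.A cb) l ?_
    intro f hf g hg
    exact (hl ⟨f, hf⟩ ⟨g, hb2 hg⟩).trans (hβ₂ _ _ (Or.inr hg))
  · refine LAM_.van S.e₁ S.e₂ (c₁.A ca) (c₂.A cab) l ?_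
    intro f hf g hg
    exact (hl ⟨f, ha1 hf⟩ ⟨g, hg⟩).trans (hβ₁ _ _ (Or.inl hf))
  · refine LAM_.van S.e₁ S.e₂ (c₁.A cb) (c₂.A cab) l ?_
    intro f hf g hg
    exact (hl ⟨f, hb1 hf⟩ ⟨g, hg⟩).trans (hβ₁ _ _ (Or.inr hf))

end Pool.CRD.Tra
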