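import Pool.Agent.CRD.B.Stmts

/-!
# CRD, area D3 (trace): Cech resolutions of complexes by two covers with two opens, cochains,
traces of the top component
-/

open CategoryTheory Opposite Limits Pretriangulated CochainComplex HomComplex

namespace Pool.CRD.Tra

variable {K : Type} [Field K] {C : Type} [Preorder C]

/-- cochain complexes of presheaves of modules -/
abbrev Cx (R : PAlg K C) := CochainComplex (PMod R) ℤ

/-- a cover by two opens, with their intersection -/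
structure Cov2 (C : Type) [Preorder C] where
  a : LowerSet C
  b : LowerSet C
  ab : LowerSet C
  cov : ∀ X : C, X ∈ a ∨ X ∈ b
  mem_ab : ∀ X : C, X ∈ ab ↔ X ∈ a ∧ X ∈ b

lemma Cov2.ab_a (w : Cov2 C) : w.ab ≤ w.a := fun _ h => ((w.mem_ab _).1 h).1
lemma Cov2.ab_b (w : Cov2 C) : w.ab ≤ w.b := fun _ h => ((w.mem_ab _).1 h).2

variable (R : PAlg K C)

/-- `N ↦ N_U` on complexes -/
noncomputable abbrev trC (U : LowerSet C) : Cx R ⥤ Cx R :=
  (tr R U).mapHomologicalComplex (ComplexShape.up ℤ)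

/-- `N_U ⟶ N` on complexes -/
noncomputable def trCι (U : LowerSet C) (N : Cx R) : (trC R U).obj N ⟶ N where
  f n := (trι R U).app (N.X n)
  comm' i j _ := ((trι R U).naturality (N.d i j)).symm

/-- `N_U ⟶ N_V` on complexes -/
noncomputable def trCLE {U V : LowerSet C} (h : U ≤ V) (N : Cx R) :
    (trC R U).obj N ⟶ (trC R V).obj N where
  f n := (trLE R h).app (N.X n)
  comm' i j _ := ((trLE R h).naturality (N.d i j)).symm

variable {R}

/-- `0 ⟶ N_ab ⟶ N_a ⊞ N_b ⟶ N ⟶ 0` -/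
noncomputable abbrev mvS (w : Cov2 C) (N : Cx R) : ShortComplex (Cx R) where
  X₁ := (trC R w.ab).obj N
  X₂ := (trC R w.a).obj N ⊞ (trC R w.b).obj N
  X₃ := N
  f := biprod.lift (trCLE R w.ab_a N) (trCLE R w.ab_b N)
  g := biprod.desc (trCι R w.a N) (-trCι R w.b N)
  zero := by
    rw [biprod.lift_desc]
    have : trCLE R w.ab_a N ≫ trCι R w.a N = trCLE R w.ab_b N ≫ trCι R w.b N := by
      ext n
      rfl
    rw [this, Preadditive.comp_neg, add_neg_cancel]

/-- functoriality of `mvS` -/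
noncomputable abbrev mvMap (w : Cov2 C) {N N' : Cx R} (f : N ⟶ N') : mvS w N ⟶ mvS w N' where
  τ₁ := (trC R w.ab).map f
  τ₂ := biprod.map ((trC R w.a).map f) ((trC R w.b).map f)
  τ₃ := f
  comm₁₂ := by
    dsimp [mvS]
    apply biprod.hom_ext
    · simp only [Category.assoc, biprod.lift_fst, biprod.map_fst, biprod.lift_fst_assoc]
      ext n
      rfl
    · simp only [Category.assoc, biprod.lift_snd, biprod.map_snd, biprod.lift_snd_assoc]
      ext n
      rfl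
  comm₂₃ := by
    dsimp [mvS]
    apply biprod.hom_ext'
    · simp only [biprod.inl_map_assoc, biprod.inl_desc, biprod.inl_desc_assoc]
      ext n
      rfl
    · simp only [biprod.inr_map_assoc, biprod.inr_desc, biprod.inr_desc_assoc,
        Preadditive.comp_neg, Preadditive.neg_comp]
      congr 1

/-- the Cech resolution of `N` with respect to one cover -/
noncomputable abbrev CE (w : Cov2 C) (N : Cx R) : Cx R := mappingCone (mvS w N).f

/-- the augmentation `CE w N ⟶ N` -/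
noncomputable abbrev CEπ (w : Cov2 C) (N : Cx R) : CE w N ⟶ N :=
  mappingCone.descShortComplex (mvS w N)

/-- functoriality of `CE` -/
noncomputable abbrev CEmap (w : Cov2 C) {N N' : Cx R} (f : N ⟶ N') : CE w N ⟶ CE w N' :=
  mappingCone.map (mvS w N).f (mvS w N').f (mvMap w f).τ₁ (mvMap w f).τ₂ (mvMap w f).comm₁₂.symm

/-- the Cech resolution with respect to two covers -/
noncomputable abbrev PP (w₁ w₂ : Cov2 C) (N : Cx R) : Cx R := CE w₁ (CE w₂ N)

/-- the augmentation `PP w₁ w₂ N ⟶ N` -/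
noncomputable abbrev PPπ (w₁ w₂ : Cov2 C) (N : Cx R) : PP w₁ w₂ N ⟶ N :=
  CEπ w₁ (CE w₂ N) ≫ CEπ w₂ N

/-- functoriality of `PP` -/
noncomputable abbrev PPmap (w₁ w₂ : Cov2 C) {N N' : Cx R} (f : N ⟶ N') :
    PP w₁ w₂ N ⟶ PP w₁ w₂ N' := CEmap w₁ (CEmap w₂ f)

/-- `N_{U ∩ V}` as `(N_V)_U` -/
noncomputable abbrev tt (U V : LowerSet C) (N : Cx R) : Cx R := (trC R U).obj ((trC R V).obj N)

/-- the top summand of `PP w₁ w₂ N`, a cochain of degree `-2` -/
noncomputable def jj (w₁ w₂ : Cov2 C) (N : Cx R) :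
    Cochain (tt w₁.ab w₂.ab N) (PP w₁ w₂ N) (-2) :=
  ((mappingCone.inl (mvS w₂ N).f).map (tr R w₁.ab)).comp
    (mappingCone.inl (mvS w₁ (CE w₂ N)).f) (by norm_num)

/-- the top component of a cochain of degree 2 -/
noncomputable def top (w₁ w₂ : Cov2 C) {N N' : Cx R} (z : Cochain (PP w₁ w₂ N) N' 2) :
    Cochain (tt w₁.ab w₂.ab N) N' 0 :=
  (jj w₁ w₂ N).comp z (by norm_num)

/-- the section `x` over the chart `t` as a section of `(M_V)_U` -/
noncomputable def emT {U V : LowerSet C} {t : C} (hU : t ∈ U) (hV : t ∈ V) (M : PMod R) :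
    M.obj (op t) →ₗ[R.toRing.obj (op t)] ((tr R U).obj ((tr R V).obj M)).obj (op t) where
  toFun := fun x => (⟨(⟨x, fun h => absurd hV h⟩ : trSub V M (op t)), fun h => absurd hU h⟩ :
        trSub U (trObj V M) (op t))
  map_add' := fun _ _ => rfl
  map_smul' := fun _ _ => Subtype.ext (Subtype.ext rfl)

/-- the linear map on the chart `t` given by a morphism `(M_V)_U ⟶ M'` -/
noncomputable def atT {U V : LowerSet C} {t : C} (hU : t ∈ U) (hV : t ∈ V) {M M' : PMod R}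
    (u : (tr R U).obj ((tr R V).obj M) ⟶ M') :
    M.obj (op t) →ₗ[R.toRing.obj (op t)] M'.obj (op t) :=
  (u.app (op t)).hom.comp (emT hU hV M)

/-- functionals on the endomorphisms of the modules `M(t)` (`M` in the class `Q`) with the formal
properties of `λ(trace)`, `λ` a functional on `R(t)` which vanishes on the functions regular on one
of the four charts `(ab,a)`, `(ab,b)`, `(a,ab)`, `(b,ab)`. -/
structure Theta (w₁ w₂ : Cov2 C) (t : C) (Q : ObjectProperty (PMod R)) where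
  h₁ : t ∈ w₁.ab
  h₂ : t ∈ w₂.ab
  th : ∀ M : PMod R, (M.obj (op t) →ₗ[R.toRing.obj (op t)] M.obj (op t)) →+ K
  smul : ∀ M : PMod R, Q M → ∀ (φ ψ : M.obj (op t) →ₗ[R.toRing.obj (op t)] M.obj (op t)) (k : K),
    (∀ x, ψ x = cst R (op t) k • φ x) → th M ψ = k * th M φ
  cyc : ∀ M N : PMod R, Q M → Q N →
    ∀ (φ : M.obj (op t) →ₗ[R.toRing.obj (op t)] N.obj (op t))
      (ψ : N.obj (op t) →ₗ[R.toRing.obj (op t)] M.obj (op t)),
      th M (ψ.comp φ) = th N (φ.comp ψ)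
  van₂a : ∀ M : PMod R, Q M → ∀ u : (tr R w₁.ab).obj ((tr R w₂.a).obj M) ⟶ M,
    th M (atT h₁ (w₂.ab_a h₂) u) = 0
  van₂b : ∀ M : PMod R, Q M → ∀ u : (tr R w₁.ab).obj ((tr R w₂.b).obj M) ⟶ M,
    th M (atT h₁ (w₂.ab_b h₂) u) = 0
  van₁a : ∀ M : PMod R, Q M → ∀ u : (tr R w₁.a).obj ((tr R w₂.ab).obj M) ⟶ M,
    th M (atT (w₁.ab_a h₁) h₂ u) = 0
  van₁b : ∀ M : PMod R, Q M → ∀ u : (tr R w₁.b).obj ((tr R w₂.ab).obj M) ⟶ M,
    th M (atT (w₁.ab_b h₁) h₂ u) = 0

/-- bounded complexes with terms in `Q` -/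
def BQ (Q : ObjectProperty (PMod R)) (N : Cx R) : Prop :=
  (∃ a b : ℤ, N.IsStrictlyGE a ∧ N.IsStrictlyLE b) ∧ ∀ n, Q (N.X n)

/-- the supertrace of a family of endomorphisms -/
noncomputable def Theta.str {w₁ w₂ : Cov2 C} {t : C} {Q : ObjectProperty (PMod R)}
    (θ : Theta w₁ w₂ t Q) (N : Cx R)
    (u : ∀ n, (N.X n).obj (op t) →ₗ[R.toRing.obj (op t)] (N.X n).obj (op t)) : K :=
  ∑ᶠ n : ℤ, ((n.negOnePow : ℤ) : K) * θ.th (N.X n) (u n)

/-- the value of the functional on a cochain of degree 2 -/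
noncomputable def Theta.val {w₁ w₂ : Cov2 C} {t : C} {Q : ObjectProperty (PMod R)}
    (θ : Theta w₁ w₂ t Q) {N : Cx R} (z : Cochain (PP w₁ w₂ N) N 2) : K :=
  θ.str N (fun n => atT θ.h₁ θ.h₂ ((top w₁ w₂ z).v n n (add_zero n)))

/-- the morphism in the derived category given by a cocycle -/
noncomputable def cl {A : Type 1} [Category.{0} A] [Abelian A] [HasDerivedCategory.{1} A]
    {M N : CochainComplex A ℤ} (z : Cocycle M N 2) :
    DerivedCategory.Q.obj M ⟶ (DerivedCategory.Q.obj N)⟦(2 : ℤ)⟧ :=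
  DerivedCategory.Q.map ((Cocycle.equivHomShift).symm z) ≫
    (DerivedCategory.Q.commShiftIso (2 : ℤ)).hom.app N

/-- the cocycle `z` represents `e` -/
def Rep (w₁ w₂ : Cov2 C) {N N' : Cx R} (z : Cocycle (PP w₁ w₂ N) N' 2)
    (e : DerivedCategory.Q.obj N ⟶ (DerivedCategory.Q.obj N')⟦(2 : ℤ)⟧) : Prop :=
  DerivedCategory.Q.map (PPπ w₁ w₂ N) ≫ e = cl z

/-- `τ` is the functional on `Hom(N, N[2])` given by `θ` -/
def IsTau {w₁ w₂ : Cov2 C} {t : C} {Q : ObjectProperty (PMod R)}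
    (θ : Theta w₁ w₂ t Q) (N : Cx R)
    (τ : (DerivedCategory.Q.obj N ⟶ (DerivedCategory.Q.obj N)⟦(2 : ℤ)⟧) →ₗ[K] K) : Prop :=
  ∀ (e : DerivedCategory.Q.obj N ⟶ (DerivedCategory.Q.obj N)⟦(2 : ℤ)⟧)
    (z : Cocycle (PP w₁ w₂ N) N 2), Rep w₁ w₂ z e → τ e = θ.val (z : Cochain (PP w₁ w₂ N) N 2)

/-- the nine intersections of the two covers are principal sieves -/
def Princ (w₁ w₂ : Cov2 C) : Prop :=
  ∀ U V : LowerSet C, (U = w₁.a ∨ U = w₁.b ∨ U = w₁.ab) → (V = w₂.a ∨ V = w₂.b ∨ V = w₂.ab) →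
    ∃ v, ∀ X, X ∈ U ∧ X ∈ V ↔ X ≤ v

/-- multiplication by a function on `U`, as a morphism `N_U ⟶ N` -/
noncomputable def mulC {U : LowerSet C} (s : SecOn R U) (N : Cx R) : (trC R U).obj N ⟶ N where
  f n := (mulU s ≫ trι R U).app (N.X n)
  comm' i j _ := ((mulU s ≫ trι R U).naturality (N.d i j)).symm

/-- the morphism `CE w N ⟶ N[1]` given by `m : N_ab ⟶ N` -/
noncomputable def wm (w : Cov2 C) (N : Cx R) (m : (trC R w.ab).obj N ⟶ N) :
    CE w N ⟶ N⟦(1 : ℤ)⟧ :=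
  (mappingCone.triangle (mvS w N).f).mor₃ ≫ m⟦(1 : ℤ)⟧'

/-! ### complexes of coherent modules -/

section Coh

/-- bounded complexes of vector bundles in `Coh R` -/
def BVB {R : PAlg K C} [R.Good] (V : CochainComplex (Coh R) ℤ) : Prop :=
  (∃ a b : ℤ, V.IsStrictlyGE a ∧ V.IsStrictlyLE b) ∧ ∀ n, IsVB R (V.X n).obj

/-- enough vector bundles and finite global dimension -/
def Enough (R : PAlg K C) (r : ℕ) : Prop :=
  (∀ M, IsCoh R M → ∃ (V : PMod R) (f : V ⟶ M), IsVB R V ∧ Epi f) ∧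
    ∀ X : Cᵒᵖ, GDim (R.obj X) r

/-- the inclusion of `Coh R` on complexes -/
noncomputable abbrev ιC (R : PAlg K C) [R.Good] : CochainComplex (Coh R) ℤ ⥤ Cx R :=
  (IsCoh R).ι.mapHomologicalComplex (ComplexShape.up ℤ)

/-- the image in `DPM R` of a morphism of the derived category of `Coh R` -/
noncomputable def icm {R : PAlg K C} [R.Good] {V V' : CochainComplex (Coh R) ℤ}
    (f : DerivedCategory.Q.obj V ⟶ DerivedCategory.Q.obj V') :
    DerivedCategory.Q.obj ((ιC R).obj V) ⟶ DerivedCategory.Q.obj ((ιC R).obj V') :=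
  (IsCoh R).ι.mapDerivedCategoryFactors.inv.app V ≫ (IsCoh R).ι.mapDerivedCategory.map f ≫
    (IsCoh R).ι.mapDerivedCategoryFactors.hom.app V'

/-- an isomorphism of `M` with a complex, in `DPM R` -/
noncomputable def tra {R : PAlg K C} [R.Good] (M : Db R) (V : CochainComplex (Coh R) ℤ)
    (α : M.obj ≅ DerivedCategory.Q.obj V) :
    (ιD R).obj M ≅ DerivedCategory.Q.obj ((ιC R).obj V) :=
  (IsCoh R).ι.mapDerivedCategory.mapIso α ≪≫ (IsCoh R).ι.mapDerivedCategoryFactors.app V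

/-- transport of `e : M ⟶ M[2]` -/
noncomputable def tre {R : PAlg K C} [R.Good] (M : Db R) (V : CochainComplex (Coh R) ℤ)
    (α : M.obj ≅ DerivedCategory.Q.obj V) (e : M ⟶ M⟦(2 : ℤ)⟧) :
    DerivedCategory.Q.obj ((ιC R).obj V) ⟶ (DerivedCategory.Q.obj ((ιC R).obj V))⟦(2 : ℤ)⟧ :=
  (tra M V α).inv ≫ (ιD R).map e ≫ ((ιD R).commShiftIso (2 : ℤ)).hom.app M ≫
    (tra M V α).hom⟦(2 : ℤ)⟧'

end Coh

end Pool.CRD.Tra
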