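import Pool.Agent.CRD.T.Defs
import Pool.Agent.CRD.Lib.ACoc

/-!
# CRD, area D3: traces over a field, the covers given by the two directions of the product of two
curves
-/

open CategoryTheory Opposite Limits Pretriangulated CochainComplex HomComplex

open scoped TensorProduct

namespace Pool.CRD.Tra

section Trace

variable {A F : Type} [CommRing A] [Field F] (e : A →+* F)

/-- trace over `F` of an endomorphism of an `A`-module, after base change to the field `F` -/
noncomputable def trE (M : Type) [AddCommGroup M] [Module A M] (φ : M →ₗ[A] M) : F :=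
  letI := e.toAlgebra
  LinearMap.trace F (F ⊗[A] M) (φ.baseChange F)

/-- dimension over `F` of the base change to the field `F` -/
noncomputable def rkE (M : Type) [AddCommGroup M] [Module A M] : ℕ :=
  letI := e.toAlgebra
  Module.finrank F (F ⊗[A] M)

end Trace

section PM

variable {K : Type} [Field K] {C : Type} [Preorder C] {R : PAlg K C} {F : Type} [Field F]

/-- trace of an endomorphism of `M(t)` -/
noncomputable def trT {t : C} (e : R.ring t →+* F) (M : PMod R)
    (φ : M.obj (op t) →ₗ[R.toRing.obj (op t)] M.obj (op t)) : F :=
  trE e (sec M t) (show sec M t →ₗ[R.ring t] sec M t from φ)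

end PM

section Dir

variable {K : Type} [Field K] {c : CurveData K} {C : Type} [Preorder C] {R : PAlg K C}

lemma cb_le_or (s : Cov Bool) : s ≤ ca ∨ s ≤ cb := by
  obtain ⟨x, hx⟩ := s.ne
  cases x
  · left; intro y hy
    have : y = false := Finset.mem_singleton.1 hy
    rw [this]; exact hx
  · right; intro y hy
    have : y = true := Finset.mem_singleton.1 hy
    rw [this]; exact hx

lemma le_cab_iff (s : Cov Bool) : s ≤ cab ↔ s ≤ ca ∧ s ≤ cb := by
  constructor
  · intro h
    exact ⟨h.trans (Finset.subset_univ _), h.trans (Finset.subset_univ _)⟩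
  · rintro ⟨h1, h2⟩ x _
    cases x
    · exact h1 (Finset.mem_singleton_self _)
    · exact h2 (Finset.mem_singleton_self _)

/-- the cover given by a direction -/
def covD (D : Dir c R) : Cov2 C where
  a := D.U ca
  b := D.U cb
  ab := D.U cab
  cov X := cb_le_or (D.p X)
  mem_ab X := le_cab_iff (D.p X)

end Dir

section Surf

variable {K : Type} [Field K] {c₁ c₂ : CurveData K} (S : SurfData c₁ c₂)

/-- the two covers of the surface -/
abbrev w₁S : Cov2 Ch2 := covD S.dirS₁
abbrev w₂S : Cov2 Ch2 := covD S.dirS₂

lemma c0_mem₁ : SurfData.c0 ∈ (w₁S S).ab := le_refl (α := Cov Bool) cab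
lemma c0_mem₂ : SurfData.c0 ∈ (w₂S S).ab := le_refl (α := Cov Bool) cab

/-- the inclusion of the functions on the smallest chart in the function field -/
def eS : S.R.ring SurfData.c0 →ₐ[K] S.L := (S.A cab cab).val

end Surf

end Pool.CRD.Tra
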